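import Pool.Agent.H83.F4.Abs
import Pool.Agent.H97.S4.Tab

/-!
# Theorem FOUR (MP_75f39d): finite tables, second part

Row F4/Abs2: T4, T5, by the kernel checker of `Pool/Agent/H97/S4`.
-/

set_option autoImplicit false

namespace Pool.Agent.H83.F4

open Finset Pool.Agent.H97.R4 Pool.Agent.H97.S4

variable {β : Type*} [DecidableEq β] {M : Finset β → Prop} {C : Finset β}

section

variable {f : ℕ → β}

lemma p15 (hC' : (Finset.range 4).image f = C) (hC : M C) : pp f M 15 = true :=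
  pp_iff.2 ⟨by omega, by rw [D_top hC']; exact hC⟩

lemma p0 (h0 : ¬ M ∅) : pp f M 0 = false := by
  rw [← Bool.not_eq_true]
  intro h
  have := (pp_iff.1 h).2
  rw [D_zero] at this
  exact h0 this

lemma D_single {i : ℕ} (hi : i < 4) : D f (2 ^ i) = {f i} := by
  have key : ∀ i < 4, (Finset.range 4).filter (fun j => Nat.testBit (2 ^ i) j) = {i} := by decide
  unfold D
  rw [key i hi, Finset.image_singleton]

lemma two_pow_lt {i : ℕ} (hi : i < 4) : 2 ^ i < 16 := by
  interval_cases i <;> norm_num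

lemma pp_single {i : ℕ} (hi : i < 4) : pp f M (2 ^ i) = true ↔ M {f i} := by
  rw [pp_iff, D_single hi]
  exact ⟨fun h => h.2, fun h => ⟨two_pow_lt hi, h⟩⟩

lemma D_pair {i j : ℕ} (hi : i < 4) (hj : j < 4) : D f (2 ^ i ||| 2 ^ j) = {f i, f j} := by
  rw [D_or, D_single hi, D_single hj]
  rfl

lemma pp_pair {i j : ℕ} (hi : i < 4) (hj : j < 4) :
    pp f M (2 ^ i ||| 2 ^ j) = true ↔ M {f i, f j} := by
  rw [pp_iff, D_pair hi hj]
  exact ⟨fun h => h.2, fun h => ⟨or_lt (two_pow_lt hi) (two_pow_lt hj), h⟩⟩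

lemma erase_all (hf : Set.InjOn f (Finset.range 4 : Finset ℕ)) (hC' : (Finset.range 4).image f = C)
    {i : ℕ} (hi : i < 4) (hT : ∀ T, T ⊆ C.erase (f i) → M T) :
    ((List.range 16).all fun S => S.testBit i || pp f M S) = true := by
  rw [List.all_eq_true]
  intro S hS
  have hS' := List.mem_range.1 hS
  rw [Bool.or_eq_true]
  by_cases hb : S.testBit i = true
  · exact Or.inl hb
  · right
    refine pp_iff.2 ⟨hS', hT _ ?_⟩
    intro z hz
    rw [Finset.mem_erase]
    refine ⟨?_, D_sub hC' S hz⟩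
    rintro rfl
    exact hb ((mem_D hf hi).1 hz)

end

/-- T4a. -/
theorem bM_nonneg4 (hU : ∀ S S', M S → M S' → M (S ∪ S')) (hC : M C) (h4 : C.card = 4)
    (h0 : ¬ M ∅) : 0 ≤ bM M C := by
  obtain ⟨f, hf, hC'⟩ := exists_f h4
  have h := check' (f := f) P4a g4a hU
  unfold P4a at h
  rw [p15 hC' hC, p0 h0] at h
  have h1 : neg (pp f M) ≤ pos (pp f M) := by simpa using h
  rw [bM_val hf hC' h4]
  omega

/-- T4b: value zero without the empty set. -/
theorem bM_zero4 (hU : ∀ S S', M S → M S' → M (S ∪ S')) (hC : M C) (h4 : C.card = 4)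
    (h0 : ¬ M ∅) (hz : bM M C = 0) :
    (∃ r, Pv M C r) ∧ FoM M C = ∅ ∧ ∀ T, T ⊆ C → M T → ∃ p ∈ T, M {p} := by
  obtain ⟨f, hf, hC'⟩ := exists_f h4
  have h := check' (f := f) P4b g4b hU
  have h1 : pos (pp f M) = neg (pp f M) := by
    rw [bM_val hf hC' h4] at hz
    omega
  unfold P4b at h
  rw [p15 hC' hC, p0 h0, h1] at h
  simp only [Bool.not_true, Bool.false_or, beq_self_eq_true, Bool.and_eq_true,
    Bool.or_eq_true] at h
  obtain ⟨⟨h2, h3⟩, h4'⟩ := h
  refine ⟨?_, ?_, ?_⟩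
  · rcases h2 with ((h2 | h2) | h2) | h2
    · exact ⟨f 0, (pvb_iff hf hC' (by omega)).1 h2⟩
    · exact ⟨f 1, (pvb_iff hf hC' (by omega)).1 h2⟩
    · exact ⟨f 2, (pvb_iff hf hC' (by omega)).1 h2⟩
    · exact ⟨f 3, (pvb_iff hf hC' (by omega)).1 h2⟩
  · rw [← Finset.card_eq_zero, foc_eq hf hC']
    exact beq_iff_eq.1 h3
  · intro T hT hM
    obtain ⟨S, hS, rfl⟩ := D_surj hC' hT
    have h5 := (List.all_eq_true.1 h4') S (List.mem_range.2 hS)
    rw [pp_iff.2 ⟨hS, hM⟩] at h5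
    simp only [Bool.not_true, Bool.false_or, Bool.or_eq_true, Bool.and_eq_true] at h5
    rcases h5 with ((⟨h5, h6⟩ | ⟨h5, h6⟩) | ⟨h5, h6⟩) | ⟨h5, h6⟩
    · exact ⟨f 0, (mem_D hf (by omega)).2 h5, (pp_single (i := 0) (by omega)).1 h6⟩
    · exact ⟨f 1, (mem_D hf (by omega)).2 h5, (pp_single (i := 1) (by omega)).1 h6⟩
    · exact ⟨f 2, (mem_D hf (by omega)).2 h5, (pp_single (i := 2) (by omega)).1 h6⟩
    · exact ⟨f 3, (mem_D hf (by omega)).2 h5, (pp_single (i := 3) (by omega)).1 h6⟩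

section

variable {f : ℕ → β}

open scoped Classical in
/-- The number of the pairs, by the masks. -/
lemma gM_sum (hf : Set.InjOn f (Finset.range 4 : Finset ℕ))
    (hC' : (Finset.range 4).image f = C) :
    (gM M C).card = ∑ S ∈ Finset.range 16,
      if (D f S).card ≤ 2 ∧ M (D f S) ∧ ∀ U, U ⊂ D f S → ¬ M U then (D f S).card else 0 := by
  unfold gM
  rw [Finset.card_filter, Finset.sum_product_right, sum_D hf hC']
  apply Finset.sum_congr rfl
  intro S _
  by_cases h : (D f S).card ≤ 2 ∧ M (D f S) ∧ ∀ U, U ⊂ D f S → ¬ M U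
  · rw [if_pos h]
    have h1 : ∀ x ∈ C, (if x ∈ D f S ∧ (D f S).card ≤ 2 ∧ M (D f S) ∧ ∀ U, U ⊂ D f S → ¬ M U
        then 1 else 0) = if x ∈ D f S then 1 else 0 := by
      intro x _
      by_cases hx : x ∈ D f S
      · rw [if_pos ⟨hx, h⟩, if_pos hx]
      · rw [if_neg (fun h' => hx h'.1), if_neg hx]
    rw [Finset.sum_congr rfl h1, ← Finset.card_filter]
    congr 1
    ext z
    rw [Finset.mem_filter]
    exact ⟨fun h => h.2, fun h => ⟨D_sub hC' S h, h⟩⟩
  · rw [if_neg h]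
    apply Finset.sum_eq_zero
    intro x _
    exact if_neg (fun h' => h h'.2)

lemma gM_le (hf : Set.InjOn f (Finset.range 4 : Finset ℕ))
    (hC' : (Finset.range 4).image f = C) : (gM M C).card ≤ gcb (pp f M) := by
  classical
  rw [gM_sum hf hC']
  have key : ∀ S : ℕ, S < 16 → ∀ b : Bool,
      ((D f S).card ≤ 2 ∧ M (D f S) ∧ (∀ U, U ⊂ D f S → ¬ M U) → b = true) →
      (if (D f S).card ≤ 2 ∧ M (D f S) ∧ ∀ U, U ⊂ D f S → ¬ M U then (D f S).card else 0)
        ≤ pc S * bt b := by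
    intro S _ b hb
    by_cases h : (D f S).card ≤ 2 ∧ M (D f S) ∧ ∀ U, U ⊂ D f S → ¬ M U
    · rw [if_pos h, hb h, D_card hf]
      simp [bt]
    · rw [if_neg h]
      exact Nat.zero_le _
  have big : ∀ S : ℕ, S < 16 → 2 < pc S →
      (if (D f S).card ≤ 2 ∧ M (D f S) ∧ ∀ U, U ⊂ D f S → ¬ M U then (D f S).card else 0) ≤ 0 := by
    intro S _ hp
    rw [if_neg]
    rintro ⟨h, _⟩
    rw [D_card hf] at h
    omega
  have sub : ∀ {S T : ℕ}, S < 16 → T < 16 → S ≠ T → T ||| S = T →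
      (∀ U, U ⊂ D f T → ¬ M U) → pp f M S = false := by
    intro S T hS hT hne hor h
    rw [← Bool.not_eq_true]
    intro hp
    refine h (D f S) ?_ (pp_iff.1 hp).2
    rw [Finset.ssubset_iff_subset_ne]
    refine ⟨?_, fun he => hne (D_inj hf hS hT he)⟩
    rw [← hor, D_or]
    exact Finset.subset_union_right
  simp only [Finset.sum_range_succ, Finset.sum_range_zero]
  have k0 := key 0 (by omega) true (fun _ => rfl)
  have k1 := key 1 (by omega) (pp f M 1) (fun h => pp_iff.2 ⟨by omega, h.2.1⟩)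
  have k2 := key 2 (by omega) (pp f M 2) (fun h => pp_iff.2 ⟨by omega, h.2.1⟩)
  have k4 := key 4 (by omega) (pp f M 4) (fun h => pp_iff.2 ⟨by omega, h.2.1⟩)
  have k8 := key 8 (by omega) (pp f M 8) (fun h => pp_iff.2 ⟨by omega, h.2.1⟩)
  have k3 := key 3 (by omega) (pp f M 3 && !(pp f M 1) && !(pp f M 2)) (fun h => by
    rw [pp_iff.2 ⟨by omega, h.2.1⟩, sub (S := 1) (by omega) (by omega) (by omega) (by decide) h.2.2,
      sub (S := 2) (by omega) (by omega) (by omega) (by decide) h.2.2]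
    rfl)
  have k5 := key 5 (by omega) (pp f M 5 && !(pp f M 1) && !(pp f M 4)) (fun h => by
    rw [pp_iff.2 ⟨by omega, h.2.1⟩, sub (S := 1) (by omega) (by omega) (by omega) (by decide) h.2.2,
      sub (S := 4) (by omega) (by omega) (by omega) (by decide) h.2.2]
    rfl)
  have k9 := key 9 (by omega) (pp f M 9 && !(pp f M 1) && !(pp f M 8)) (fun h => by
    rw [pp_iff.2 ⟨by omega, h.2.1⟩, sub (S := 1) (by omega) (by omega) (by omega) (by decide) h.2.2,
      sub (S := 8) (by omega) (by omega) (by omega) (by decide) h.2.2]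
    rfl)
  have k6 := key 6 (by omega) (pp f M 6 && !(pp f M 2) && !(pp f M 4)) (fun h => by
    rw [pp_iff.2 ⟨by omega, h.2.1⟩, sub (S := 2) (by omega) (by omega) (by omega) (by decide) h.2.2,
      sub (S := 4) (by omega) (by omega) (by omega) (by decide) h.2.2]
    rfl)
  have k10 := key 10 (by omega) (pp f M 10 && !(pp f M 2) && !(pp f M 8)) (fun h => by
    rw [pp_iff.2 ⟨by omega, h.2.1⟩, sub (S := 2) (by omega) (by omega) (by omega) (by decide) h.2.2,
      sub (S := 8) (by omega) (by omega) (by omega) (by decide) h.2.2]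
    rfl)
  have k12 := key 12 (by omega) (pp f M 12 && !(pp f M 4) && !(pp f M 8)) (fun h => by
    rw [pp_iff.2 ⟨by omega, h.2.1⟩, sub (S := 4) (by omega) (by omega) (by omega) (by decide) h.2.2,
      sub (S := 8) (by omega) (by omega) (by omega) (by decide) h.2.2]
    rfl)
  have k7 := big 7 (by omega) (by decide)
  have k11 := big 11 (by omega) (by decide)
  have k13 := big 13 (by omega) (by decide)
  have k14 := big 14 (by omega) (by decide)
  have k15 := big 15 (by omega) (by decide)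
  have e : pc 0 = 0 ∧ pc 1 = 1 ∧ pc 2 = 1 ∧ pc 4 = 1 ∧ pc 8 = 1 ∧ pc 3 = 2 ∧ pc 5 = 2 ∧ pc 9 = 2
      ∧ pc 6 = 2 ∧ pc 10 = 2 ∧ pc 12 = 2 := by decide
  obtain ⟨e0, e1, e2, e4, e8, e3, e5, e9, e6, e10, e12⟩ := e
  rw [e0] at k0
  rw [e1] at k1
  rw [e2] at k2
  rw [e4] at k4
  rw [e8] at k8
  rw [e3] at k3
  rw [e5] at k5
  rw [e9] at k9
  rw [e6] at k6
  rw [e10] at k10
  rw [e12] at k12
  unfold gcb
  omega

end

/-- T4c: the capacity. -/
theorem gM_card4 (hU : ∀ S S', M S → M S' → M (S ∪ S')) (hC : M C) (h4 : C.card = 4)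
    (h0 : ¬ M ∅) (hpos : 0 < bM M C) :
    ((gM M C).card : ℤ) + ((FoM M C).card : ℤ) ≤ 2 * bM M C := by
  obtain ⟨f, hf, hC'⟩ := exists_f h4
  have h := check' (f := f) P4c g4c hU
  rw [bM_val hf hC' h4] at hpos ⊢
  have h1 : neg (pp f M) < pos (pp f M) := by omega
  unfold P4c at h
  rw [p15 hC' hC, p0 h0] at h
  have h2 : gcb (pp f M) + foc (pp f M) + 2 * neg (pp f M) ≤ 2 * pos (pp f M) := by
    simpa [h1] using h
  have h3 := gM_le (M := M) hf hC'
  rw [foc_eq hf hC']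
  omega

/-- T5a: twins. -/
theorem bM_twin4 (hU : ∀ S S', M S → M S' → M (S ∪ S')) (hC : M C) (h4 : C.card = 4)
    {r x : β} (hr : r ∈ C) (hx : x ∈ C) (hxr : x ≠ r) (hT : ∀ T, T ⊆ C.erase r → M T)
    (hxrM : M {x, r}) : 0 ≤ bM M C := by
  obtain ⟨f, hf, hC'⟩ := exists_f h4
  have h := check' (f := f) P5a g5a hU
  obtain ⟨i, hi, rfl⟩ := f_surj hC' hr
  obtain ⟨j, hj, rfl⟩ := f_surj hC' hx
  rw [bM_val hf hC' h4]
  by_contra hcon
  push Not at hcon
  have h1 : ¬ neg (pp f M) ≤ pos (pp f M) := by omega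
  unfold P5a at h
  rw [p15 hC' hC, decide_eq_false h1] at h
  simp only [Bool.not_true, Bool.false_or] at h
  have h2 := (List.all_eq_true.1 ((List.all_eq_true.1 h) i (List.mem_range.2 hi))) j
    (List.mem_range.2 hj)
  rw [erase_all hf hC' hi hT, (pp_pair hi hj).2 (by rw [Finset.pair_comm]; exact hxrM)] at h2
  have h3 : i = j := by simpa using h2
  rw [h3] at hxr
  exact hxr rfl

/-- T5b: twins. -/
theorem bM_twin4' (hU : ∀ S S', M S → M S' → M (S ∪ S')) (hC : M C) (h4 : C.card = 4)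
    {r x p : β} (hr : r ∈ C) (hx : x ∈ C) (hxr : x ≠ r) (hT : ∀ T, T ⊆ C.erase r → M T)
    (hxrM : M {x, r}) (hnr : ¬ M {r}) (hp : p ∈ C) (hpx : p ≠ x) (hpr : p ≠ r) (hprM : M {p, r}) :
    2 ≤ bM M C := by
  obtain ⟨f, hf, hC'⟩ := exists_f h4
  have h := check' (f := f) P5b g5b hU
  obtain ⟨i, hi, rfl⟩ := f_surj hC' hr
  obtain ⟨j, hj, rfl⟩ := f_surj hC' hx
  obtain ⟨k, hk, rfl⟩ := f_surj hC' hp
  rw [bM_val hf hC' h4]
  by_contra hcon
  push Not at hcon
  have h1 : ¬ 2 + neg (pp f M) ≤ pos (pp f M) := by omega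
  have h0 : pp f M (2 ^ i) = false := by
    rw [← Bool.not_eq_true]
    exact fun h' => hnr ((pp_single hi).1 h')
  unfold P5b at h
  rw [p15 hC' hC, decide_eq_false h1] at h
  simp only [Bool.not_true, Bool.false_or] at h
  have h2 := (List.all_eq_true.1 h) i (List.mem_range.2 hi)
  rw [h0, erase_all hf hC' hi hT] at h2
  simp only [Bool.not_true, Bool.false_or] at h2
  have h3 := (List.all_eq_true.1 h2) j (List.mem_range.2 hj)
  have nij : (i == j) = false := by
    rw [beq_eq_false_iff_ne]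
    rintro rfl
    exact hxr rfl
  rw [nij, (pp_pair hj hi).2 hxrM] at h3
  simp only [Bool.not_true, Bool.false_or] at h3
  have h4' := (List.all_eq_true.1 h3) k (List.mem_range.2 hk)
  have nki : (k == i) = false := by
    rw [beq_eq_false_iff_ne]
    rintro rfl
    exact hpr rfl
  have nkj : (k == j) = false := by
    rw [beq_eq_false_iff_ne]
    rintro rfl
    exact hpx rfl
  rw [nki, nkj, (pp_pair hk hi).2 hprM] at h4'
  exact absurd h4' (by decide)

/-- T5c: half twins. -/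
theorem bM_semi4 (hU : ∀ S S', M S → M S' → M (S ∪ S')) (hC : M C) (h4 : C.card = 4)
    (h0 : ¬ M ∅) {r x : β} (hr : r ∈ C) (hx : x ∈ C) (hxr : x ≠ r) (hxM : ¬ M {x}) (hrM : ¬ M {r})
    (hT : ∀ T, T ⊆ C.erase r → M ({x, r} ∪ T)) : 0 < bM M C := by
  obtain ⟨f, hf, hC'⟩ := exists_f h4
  have h := check' (f := f) P5c g5c hU
  obtain ⟨i, hi, rfl⟩ := f_surj hC' hr
  obtain ⟨j, hj, rfl⟩ := f_surj hC' hx
  rw [bM_val hf hC' h4]
  by_contra hcon
  push Not at hcon
  have h1 : ¬ neg (pp f M) < pos (pp f M) := by omega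
  have hi0 : pp f M (2 ^ i) = false := by
    rw [← Bool.not_eq_true]
    exact fun h' => hrM ((pp_single hi).1 h')
  have hj0 : pp f M (2 ^ j) = false := by
    rw [← Bool.not_eq_true]
    exact fun h' => hxM ((pp_single hj).1 h')
  unfold P5c at h
  rw [p15 hC' hC, p0 h0, decide_eq_false h1] at h
  simp only [Bool.not_true, Bool.false_or] at h
  have h2 := (List.all_eq_true.1 h) i (List.mem_range.2 hi)
  rw [hi0] at h2
  simp only [Bool.false_or] at h2
  have h3 := (List.all_eq_true.1 h2) j (List.mem_range.2 hj)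
  have nij : (i == j) = false := by
    rw [beq_eq_false_iff_ne]
    rintro rfl
    exact hxr rfl
  have hall : ((List.range 16).all fun S => pp f M ((2 ^ j ||| 2 ^ i) ||| S)) = true := by
    rw [List.all_eq_true]
    intro S hS
    have hS' := List.mem_range.1 hS
    refine pp_iff.2 ⟨or_lt (or_lt (two_pow_lt hj) (two_pow_lt hi)) hS', ?_⟩
    rw [D_or, D_pair hj hi]
    have : ({f j, f i} : Finset β) ∪ D f S = {f j, f i} ∪ (D f S).erase (f i) := by
      ext z
      simp only [Finset.mem_union, Finset.mem_insert, Finset.mem_singleton, Finset.mem_erase]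
      by_cases hz : z = f i
      · simp [hz]
      · simp [hz]
    rw [this]
    exact hT _ (Finset.erase_subset_erase _ (D_sub hC' S))
  rw [nij, hj0, hall] at h3
  exact absurd h3 (by decide)

end Pool.Agent.H83.F4
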