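import Pool.Agent.H27.F4.Tab

/-!
# Theorem FOUR (MP_75f39d): finite tables

Row F4/Abs: T1, T2, T3 (T4, T5 are in Abs2). All statements checked by brute force over all union-closed `M` on at most four points
(`/tmp/s83/four/abs.py`). `bM`, `FoM`: `Pool/Agent/H97/R4/Defs.lean`; the case `C.card ≤ 3` is in
`Pool/Agent/H97/R4/Abs.lean` (`bM_forced`, `bM_loser`, `bM_pos`, `bM_small`, ...).
Losing types for four points (with the empty set): `{0,1,C}`, `{0,1,12,C}`, `{0,1,2,12,C}`, all subsets of
`123` and `C` (the needy ones) and `{0,1,2,12,123,C}`, `{0,1,2,12,13,(23),123,C}`, `{0,1,2,12,134,C}`,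
`{0,1,2,3,pairs,123,124,C}`.
-/

set_option autoImplicit false

namespace Pool.Agent.H83.F4

open Finset Pool.Agent.H97.R4

variable {β : Type*} [DecidableEq β]

open scoped Classical in
/-- The singles. -/
noncomputable def sM (M : Finset β → Prop) (C : Finset β) : Finset β := C.filter fun p => M {p}

open scoped Classical in
/-- The pairs `(x, τ)` with `x ∈ τ`, `τ` minimal with at most two elements. -/
noncomputable def gM (M : Finset β → Prop) (C : Finset β) : Finset (β × Finset β) :=
  (C ×ˢ C.powerset).filter fun t => t.1 ∈ t.2 ∧ t.2.card ≤ 2 ∧ M t.2 ∧ ∀ S, S ⊂ t.2 → ¬ M S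

/-- Privacy. -/
def Pv (M : Finset β → Prop) (C : Finset β) (r : β) : Prop :=
  r ∈ C ∧ ∀ T, T ⊆ C → M T → r ∈ T → T = C

variable {M : Finset β → Prop} {C : Finset β}

/-! ### Three points -/

private lemma fo_ind {p : β} (hp : p ∈ FoM M C) {T : Finset β} (hT : T ⊆ C) (hpT : p ∉ T) :
    ind M T = 0 := ind_zero.2 fun h => hpT ((mem_FoM.1 hp).2 T hT h)

private lemma fo_two {p q r : β} (hC : C = {p, q, r}) (hp : p ∈ FoM M C) (hq : q ∈ FoM M C)
    (hr : r ∉ FoM M C) : ind M {p, q} = 1 := by
  rw [ind_one]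
  have hrC : r ∈ C := by rw [hC]; simp
  rw [mem_FoM] at hr
  push Not at hr
  obtain ⟨T, hT, hM, hrT⟩ := hr hrC
  have hpT := (mem_FoM.1 hp).2 T hT hM
  have hqT := (mem_FoM.1 hq).2 T hT hM
  have : T = {p, q} := by
    ext z
    constructor
    · intro hz
      have := hT hz
      rw [hC] at this
      simp only [Finset.mem_insert, Finset.mem_singleton] at this ⊢
      rcases this with h | h | h
      · exact Or.inl h
      · exact Or.inr h
      · rw [h] at hz
        exact absurd hz hrT
    · intro hz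
      simp only [Finset.mem_insert, Finset.mem_singleton] at hz
      rcases hz with h | h <;> rw [h] <;> assumption
  rw [← this]
  exact hM

private lemma swp1 (a b c : β) : ({a, b, c} : Finset β) = {a, c, b} := by
  ext z
  simp only [Finset.mem_insert, Finset.mem_singleton]
  tauto

private lemma swp2 (a b c : β) : ({a, b, c} : Finset β) = {b, c, a} := by
  ext z
  simp only [Finset.mem_insert, Finset.mem_singleton]
  tauto

private lemma sb1 (a b c : β) : ({a, b} : Finset β) ⊆ {a, b, c} := by
  intro z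
  simp only [Finset.mem_insert, Finset.mem_singleton]
  tauto

private lemma sb2 (a b c : β) : ({a, c} : Finset β) ⊆ {a, b, c} := by
  intro z
  simp only [Finset.mem_insert, Finset.mem_singleton]
  tauto

private lemma sb3 (a b c : β) : ({b, c} : Finset β) ⊆ {a, b, c} := by
  intro z
  simp only [Finset.mem_insert, Finset.mem_singleton]
  tauto

private lemma forced3 (hU : ∀ S S', M S → M S' → M (S ∪ S')) (hC : M C) (h4 : C.card ≤ 3)
    (hF : (FoM M C).Nonempty) :
    (if FoM M C = C then (1 : ℤ) else 2) * ((FoM M C).card : ℤ) ≤ bM M C := by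
  have hsub : FoM M C ⊆ C := fun p hp => (mem_FoM.1 hp).1
  have hFp := hF.card_pos
  have h0 : ¬ M ∅ := by
    intro h0
    obtain ⟨p, hp⟩ := hF
    exact absurd ((mem_FoM.1 hp).2 ∅ (Finset.empty_subset _) h0) (Finset.notMem_empty p)
  by_cases h2 : C.card ≤ 2
  · rw [bM_eq_card hC h2 h0]
    split_ifs with h
    · rw [h]
      omega
    · have := Finset.card_lt_card (Finset.ssubset_iff_subset_ne.2 ⟨hsub, h⟩)
      omega
  · obtain ⟨a, b, c, hab, hac, hbc, hCe⟩ := Finset.card_eq_three.1 (show C.card = 3 by omega)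
    obtain ⟨hv, f0, f1, f2, f3⟩ := facts3 hU hab hac hbc hC hCe
    have b0 := ind_zero.2 h0
    have ba := ind_bd M {a}
    have bb := ind_bd M {b}
    have bc := ind_bd M {c}
    have bab := ind_bd M {a, b}
    have bac := ind_bd M {a, c}
    have bbc := ind_bd M {b, c}
    have hcard : (FoM M C).card = (if a ∈ FoM M C then 1 else 0) + (if b ∈ FoM M C then 1 else 0)
        + (if c ∈ FoM M C then 1 else 0) := by
      have e : FoM M C = ({a, b, c} : Finset β).filter (· ∈ FoM M C) := by
        ext z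
        rw [Finset.mem_filter, ← hCe]
        exact ⟨fun h => ⟨hsub h, h⟩, fun h => h.2⟩
      conv_lhs => rw [e]
      rw [Finset.card_filter, Finset.sum_insert (by simp [hab, hac]), Finset.sum_insert (by simp [hbc]),
        Finset.sum_singleton]
      ring
    have sa : ({a} : Finset β) ⊆ C := by
      rw [hCe, Finset.singleton_subset_iff]
      simp
    have sb' : ({b} : Finset β) ⊆ C := by
      rw [hCe, Finset.singleton_subset_iff]
      simp
    have sc : ({c} : Finset β) ⊆ C := by
      rw [hCe, Finset.singleton_subset_iff]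
      simp
    have sab : ({a, b} : Finset β) ⊆ C := by
      rw [hCe]
      exact sb1 a b c
    have sac : ({a, c} : Finset β) ⊆ C := by
      rw [hCe]
      exact sb2 a b c
    have sbc : ({b, c} : Finset β) ⊆ C := by
      rw [hCe]
      exact sb3 a b c
    have na : a ∈ FoM M C → ind M {b} = 0 ∧ ind M {c} = 0 ∧ ind M {b, c} = 0 := fun h =>
      ⟨fo_ind h sb' (by simp [hab]), fo_ind h sc (by simp [hac]), fo_ind h sbc (by simp [hab, hac])⟩
    have nb : b ∈ FoM M C → ind M {a} = 0 ∧ ind M {c} = 0 ∧ ind M {a, c} = 0 := fun h =>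
      ⟨fo_ind h sa (by simp [hab.symm]), fo_ind h sc (by simp [hbc]),
        fo_ind h sac (by simp [hab.symm, hbc])⟩
    have nc : c ∈ FoM M C → ind M {a} = 0 ∧ ind M {b} = 0 ∧ ind M {a, b} = 0 := fun h =>
      ⟨fo_ind h sa (by simp [hac.symm]), fo_ind h sb' (by simp [hbc.symm]),
        fo_ind h sab (by simp [hac.symm, hbc.symm])⟩
    have hone : FoM M C = C → (FoM M C).card = 3 := fun h => by rw [h]; omega
    have hne : FoM M C ≠ C → (FoM M C).card < 3 := fun h => by
      have := Finset.card_lt_card (Finset.ssubset_iff_subset_ne.2 ⟨hsub, h⟩)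
      omega
    have e1 : C = {a, c, b} := hCe.trans (swp1 a b c)
    have e2 : C = {b, c, a} := hCe.trans (swp2 a b c)
    rw [hv, f0, b0]
    by_cases ha : a ∈ FoM M C <;> by_cases hb : b ∈ FoM M C <;> by_cases hc : c ∈ FoM M C
    · obtain ⟨x1, x2, x3⟩ := na ha
      obtain ⟨y1, y2, y3⟩ := nb hb
      obtain ⟨z1, z2, z3⟩ := nc hc
      simp only [ha, hb, hc, if_true] at hcard
      have : FoM M C = C := by
        by_contra h
        have := hne h
        omega
      rw [if_pos this, hcard]
      push_cast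
      omega
    · obtain ⟨x1, x2, x3⟩ := na ha
      obtain ⟨y1, y2, y3⟩ := nb hb
      have t := fo_two hCe ha hb hc
      simp only [ha, hb, hc, if_true, if_false] at hcard
      rw [if_neg (fun h => by have := hone h; omega), hcard]
      push_cast
      omega
    · obtain ⟨x1, x2, x3⟩ := na ha
      obtain ⟨z1, z2, z3⟩ := nc hc
      have t := fo_two e1 ha hc hb
      simp only [ha, hb, hc, if_true, if_false] at hcard
      rw [if_neg (fun h => by have := hone h; omega), hcard]
      push_cast
      omega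
    · obtain ⟨x1, x2, x3⟩ := na ha
      simp only [ha, hb, hc, if_true, if_false] at hcard
      rw [if_neg (fun h => by have := hone h; omega), hcard]
      push_cast
      omega
    · obtain ⟨y1, y2, y3⟩ := nb hb
      obtain ⟨z1, z2, z3⟩ := nc hc
      have t := fo_two e2 hb hc ha
      simp only [ha, hb, hc, if_true, if_false] at hcard
      rw [if_neg (fun h => by have := hone h; omega), hcard]
      push_cast
      omega
    · obtain ⟨y1, y2, y3⟩ := nb hb
      simp only [ha, hb, hc, if_true, if_false] at hcard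
      rw [if_neg (fun h => by have := hone h; omega), hcard]
      push_cast
      omega
    · obtain ⟨z1, z2, z3⟩ := nc hc
      simp only [ha, hb, hc, if_true, if_false] at hcard
      rw [if_neg (fun h => by have := hone h; omega), hcard]
      push_cast
      omega
    · simp only [ha, hb, hc, if_false] at hcard
      omega

/-! ### Four points -/

open Pool.Agent.H97.S4 Pool.Agent.H27.F4 in
private lemma D_single {f : ℕ → β} {i : ℕ} (hi : i < 4) : D f (2 ^ i) = {f i} := by
  have key : ∀ i < 4, ((Finset.range 4).filter fun j => Nat.testBit (2 ^ i) j) = {i} := by decide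
  unfold D
  rw [key i hi, Finset.image_singleton]

open Pool.Agent.H97.S4 Pool.Agent.H27.F4 in
private lemma single_iff {f : ℕ → β} {i : ℕ} (hi : i < 4) : pp f M (2 ^ i) = true ↔ M {f i} := by
  rw [pp_iff, D_single hi]
  exact ⟨fun h => h.2, fun h => ⟨by interval_cases i <;> norm_num, h⟩⟩

open Pool.Agent.H97.S4 Pool.Agent.H27.F4 in
private lemma sM_card {f : ℕ → β} (hf : Set.InjOn f (Finset.range 4 : Finset ℕ))
    (hC : (Finset.range 4).image f = C) : (sM M C).card = sb (pp f M) := by
  classical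
  unfold sM
  rw [card_filter_range hf hC (fun p => M {p}) (fun i => pp f M (2 ^ i)) (fun i hi => single_iff hi)]
  rfl

open Pool.Agent.H97.S4 Pool.Agent.H27.F4 in
private lemma top_pp {f : ℕ → β} (hC : (Finset.range 4).image f = C) (h : M C) : pp f M 15 = true := by
  rw [pp_iff, D_top hC]
  exact ⟨by norm_num, h⟩

open Pool.Agent.H97.S4 Pool.Agent.H27.F4 in
private lemma zero_pp {f : ℕ → β} : pp f M 0 = true ↔ M ∅ := by
  rw [pp_iff, D_zero]
  exact ⟨fun h => h.2, fun h => ⟨by norm_num, h⟩⟩

/-- T1: forced points. -/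
theorem bM_forced4 (hU : ∀ S S', M S → M S' → M (S ∪ S')) (hC : M C) (h4 : C.card ≤ 4)
    (hF : (FoM M C).Nonempty) :
    (if FoM M C = C then (1 : ℤ) else 2) * ((FoM M C).card : ℤ) ≤ bM M C := by
  open Pool.Agent.H97.S4 Pool.Agent.H27.F4 in
  by_cases h3 : C.card ≤ 3
  · exact forced3 hU hC h3 hF
  · have h4' : C.card = 4 := by omega
    obtain ⟨f, hf, hfC⟩ := exists_f h4'
    have hp := check' (f := f) P1 g1 hU
    have hsub : FoM M C ⊆ C := fun p hp => (mem_FoM.1 hp).1
    have h0 : ¬ M ∅ := by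
      intro h0
      obtain ⟨p, hp⟩ := hF
      exact absurd ((mem_FoM.1 hp).2 ∅ (Finset.empty_subset _) h0) (Finset.notMem_empty p)
    have h0' : pp f M 0 = false := by
      rw [← Bool.not_eq_true]
      exact fun h => h0 (zero_pp.1 h)
    have hfo : foc (pp f M) ≠ 0 := by
      rw [← foc_eq hf hfC]
      exact hF.card_pos.ne'
    have hfc := foc_eq (M := M) hf hfC
    have hiff : FoM M C = C ↔ foc (pp f M) = 4 := by
      rw [← hfc]
      constructor
      · intro h
        rw [h, h4']
      · intro h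
        exact Finset.eq_of_subset_of_card_le hsub (by omega)
    unfold P1 at hp
    rw [top_pp hfC hC, h0'] at hp
    simp only [Bool.not_true, Bool.false_or, Bool.or_eq_true, beq_iff_eq, decide_eq_true_eq] at hp
    rcases hp with hp | hp
    · exact absurd hp hfo
    · rw [bM_val hf hfC h4', hfc]
      by_cases h : foc (pp f M) = 4
      · rw [if_pos (hiff.2 h)]
        rw [if_pos h] at hp
        omega
      · rw [if_neg (fun h' => h (hiff.1 h'))]
        rw [if_neg h] at hp
        omega

open Pool.Agent.H97.S4 Pool.Agent.H27.F4 in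
private lemma hGb_of {f : ℕ → β} (hf : Set.InjOn f (Finset.range 4 : Finset ℕ))
    (hC : (Finset.range 4).image f = C)
    (hG : M ∅ → ∀ T, T ⊆ C → M T → T ≠ C → ∀ r ∈ T, ∃ G, G ⊆ T ∧ r ∈ G ∧ G.card ≤ 2 ∧ M G) :
    hGb (pp f M) = true := by
  unfold hGb
  by_cases h0 : pp f M 0 = true
  · rw [h0]
    simp only [Bool.not_true, Bool.false_or, List.all_eq_true, List.mem_range, Bool.or_eq_true,
      Bool.not_eq_true', List.any_eq_true, Bool.and_eq_true]
    intro S hS
    by_cases hp : pp f M S = true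
    · right
      intro i hi
      by_cases hb : S.testBit i = true
      · right
        have hT := (pp_iff.1 hp).2
        have hne : D f S ≠ C := by
          intro h
          rw [← D_top hC] at h
          have := D_inj hf (by omega) (by norm_num) h
          omega
        obtain ⟨G, hGs, hiG, hc, hMG⟩ := hG (zero_pp.1 h0) (D f S) (D_sub hC S) hT hne (f i)
          ((mem_D hf hi).2 hb)
        obtain ⟨G', hG', rfl⟩ := D_surj hC (hGs.trans (D_sub hC S))
        rw [D_card hf] at hc
        obtain ⟨j, hj, hjb, hje⟩ := pair_of G' hG' i hi ((mem_D hf hi).1 hiG) hc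
        refine ⟨j, hj, (mem_D hf hj).1 (hGs ((mem_D hf hj).2 hjb)), ?_⟩
        rw [hje, pp_iff]
        exact ⟨hG', hMG⟩
      · left
        rw [← Bool.not_eq_true]
        exact hb
    · left
      rw [← Bool.not_eq_true]
      exact hp
  · rw [Bool.not_eq_true] at h0
    rw [h0]
    rfl

/-- T2: losers. -/
theorem bM_loser4 (hU : ∀ S S', M S → M S' → M (S ∪ S')) (hC : M C) (h4 : C.card ≤ 4)
    (hneg : bM M C < 0)
    (hG : M ∅ → ∀ T, T ⊆ C → M T → T ≠ C → ∀ r ∈ T, ∃ G, G ⊆ T ∧ r ∈ G ∧ G.card ≤ 2 ∧ M G) :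
    3 ≤ C.card ∧ M ∅ ∧ (∃ r, Pv M C r) ∧ 0 ≤ bM M C + 2 * ((sM M C).card : ℤ) := by
  open Pool.Agent.H97.S4 Pool.Agent.H27.F4 in
  by_cases h3 : C.card ≤ 3
  · obtain ⟨h3', h0, p, hp, hMp, r, hr, hrp, hpv⟩ := bM_loser hU hC h3 hneg
    refine ⟨by omega, h0, ⟨r, hr, hpv⟩, ?_⟩
    have hge := bM_ge hU hC h3
    have hs : 0 < (sM M C).card := by
      classical
      refine Finset.card_pos.2 ⟨p, ?_⟩
      unfold sM
      exact Finset.mem_filter.2 ⟨hp, hMp⟩
    omega
  · have h4' : C.card = 4 := by omega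
    obtain ⟨f, hf, hfC⟩ := exists_f h4'
    have hp := check' (f := f) P2 g2 hU
    have hv := bM_val (M := M) hf hfC h4'
    have hs := sM_card (M := M) hf hfC
    have hlt : ¬ neg (pp f M) ≤ pos (pp f M) := by omega
    unfold P2 at hp
    rw [top_pp hfC hC, hGb_of hf hfC hG, decide_eq_false hlt] at hp
    simp only [Bool.not_true, Bool.false_or, Bool.or_eq_true, Bool.and_eq_true,
      decide_eq_true_eq] at hp
    obtain ⟨⟨h0, hpv⟩, hle⟩ := hp
    refine ⟨by omega, zero_pp.1 h0, ?_, by omega⟩
    rcases hpv with ((h | h) | h) | h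
    · exact ⟨f 0, (pvb_iff hf hfC (by norm_num)).1 h⟩
    · exact ⟨f 1, (pvb_iff hf hfC (by norm_num)).1 h⟩
    · exact ⟨f 2, (pvb_iff hf hfC (by norm_num)).1 h⟩
    · exact ⟨f 3, (pvb_iff hf hfC (by norm_num)).1 h⟩

/-- T3: needy ones. -/
theorem bM_needy (hU : ∀ S S', M S → M S' → M (S ∪ S')) (hC : M C) (h4 : C.card ≤ 4)
    (hneg : bM M C + ((sM M C).card : ℤ) < 0) :
    C.card = 4 ∧ M ∅ ∧ ((∃ r r', r ≠ r' ∧ Pv M C r ∧ Pv M C r') ∨
      ∃ r, Pv M C r ∧ ∀ T, T ⊆ C.erase r → M T) := by
  open Pool.Agent.H97.S4 Pool.Agent.H27.F4 in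
  by_cases h3 : C.card ≤ 3
  · exfalso
    obtain ⟨h3', h0, p, hp, hMp, r, hr, hrp, hpv⟩ := bM_loser hU hC h3 (by omega)
    have hge := bM_ge hU hC h3
    have hs : 0 < (sM M C).card := by
      classical
      refine Finset.card_pos.2 ⟨p, ?_⟩
      unfold sM
      exact Finset.mem_filter.2 ⟨hp, hMp⟩
    omega
  · have h4' : C.card = 4 := by omega
    obtain ⟨f, hf, hfC⟩ := exists_f h4'
    have hp := check' (f := f) P3 g3 hU
    have hv := bM_val (M := M) hf hfC h4'
    have hs := sM_card (M := M) hf hfC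
    have hlt : ¬ neg (pp f M) ≤ pos (pp f M) + sb (pp f M) := by omega
    unfold P3 at hp
    rw [top_pp hfC hC, decide_eq_false hlt] at hp
    simp only [Bool.not_true, Bool.false_or, Bool.or_eq_true, Bool.and_eq_true,
      List.any_eq_true, List.mem_range, Bool.not_eq_true', beq_eq_false_iff_ne, List.all_eq_true] at hp
    obtain ⟨h0, hp⟩ := hp
    refine ⟨h4', zero_pp.1 h0, ?_⟩
    rcases hp with ⟨i, hi, j, hj, ⟨hij, hpi⟩, hpj⟩ | ⟨i, hi, hpi, hall⟩
    · left
      refine ⟨f i, f j, fun h => hij (hf (by simpa using hi) (by simpa using hj) h),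
        (pvb_iff hf hfC hi).1 hpi, (pvb_iff hf hfC hj).1 hpj⟩
    · right
      refine ⟨f i, (pvb_iff hf hfC hi).1 hpi, ?_⟩
      intro T hT
      obtain ⟨S, hS, rfl⟩ := D_surj hfC (hT.trans (Finset.erase_subset _ _))
      rcases hall S hS with h | h
      · exact absurd (hT ((mem_D hf hi).2 h)) (Finset.notMem_erase _ _)
      · exact (pp_iff.1 h).2

end Pool.Agent.H83.F4
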