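import Pool.Agent.H83.F4.Loc

/-!
# Theorem FOUR (MP_75f39d): contexts

Row F4/Ctx. `a`, `b` members of the group of the context `(B', x, v)`, `X = B' ∪ a ∪ b`. Proofs:
* `sdiff_mem`: `Nd.neg` and `loser_struct` at `B' ∪ a`. `down`: `A ∪ v = B'` gives `(A ∪ a) ∪ v = B' ∪ a`, so `v ⊆ A ∪ a` by
  `Fo J (B' ∪ a) v = v`, and `a ∩ v = {x}`.
* `down_value`, `down_Fo`: the only traces of `(B', v)` are `v.erase x` (from `B' \ {x}`) and `v`.
* `down_CP`: a loser `w` at `B'` with `v ∩ w = {p}`, `p ∈ Fo J B' v`, so `p ≠ x`; `x ∉ w` (else `x ∈ v ∩ w`); `B' \ w ∈ unions J` contains `x`,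
  so a generator inside `B' \ w` with `x`, it is `v` (`Uq`), but `p ∈ v ∩ w`.
* `loser_eq`: `r` private point of `w` at `X`. If `r ∈ b` or `r ∈ a`: `w = b` or `w = a`. Otherwise `r ∈ B' ∪ b`, not in `b`, so
  `r ∈ (B' ∪ b) \ b = B' \ {x} ∈ unions J`: a generator inside `B' \ {x}` with `r`, it is `w`; but `z ∈ w`, `z ∈ b`, `z ∉ B' \ {x}`.
* `min`: `A ∩ a ⊆ a ∩ b` gives `A ⊆ (X \ a) ∪ (a ∩ b) = B' ∪ b` (`tau`); `r` private for `b` at `B' ∪ b`, `r ∉ a`: `r ∈ A`, so `b ⊆ A`.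
-/

set_option autoImplicit false

namespace Pool.Agent.H83.F4

open Finset Pool.Agent.H97.GEN Pool.Agent.H83.ELZ Pool.Agent.H97.R3

variable {α : Type*} [DecidableEq α] {J P : Finset (Finset α)} {B' v a b : Finset α} {x : α}

/-- `B' ∪ a` without `a` is `B'` without `x`. -/
lemma InW.sdiff (h : InW J P B' x v a) : (B' ∪ a) \ a = B' \ {x} := by
  have hi := h.2.2.1
  ext z
  simp only [Finset.mem_sdiff, Finset.mem_union, Finset.mem_singleton]
  have hz : z ∈ a ∩ B' ↔ z = x := by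
    rw [hi, Finset.mem_singleton]
  rw [Finset.mem_inter] at hz
  tauto

lemma InW.mem_iff_x (h : InW J P B' x v a) {z : α} (hz : z ∈ B') : z ∈ a ↔ z = x := by
  have hi := h.2.2.1
  have hz' : z ∈ a ∩ B' ↔ z = x := by
    rw [hi, Finset.mem_singleton]
  rw [Finset.mem_inter] at hz'
  tauto

lemma InW.sdiff_union (h : InW J P B' x v a) : ((B' ∪ a) \ a) ∪ {x} = B' := by
  rw [h.sdiff]
  ext z
  simp only [Finset.mem_sdiff, Finset.mem_union, Finset.mem_singleton]
  constructor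
  · rintro (⟨h1, _⟩ | rfl)
    · exact h1
    · exact h.x_mem.2
  · intro h1
    by_cases hz : z = x
    · exact Or.inr hz
    · exact Or.inl ⟨h1, hz⟩

lemma InW.top_mem (hF : HF J P) (h : InW J P B' x v a) : B' ∪ a ∈ unions J :=
  union_mem h.1 (self_mem (hF.PJ h.2.1))

lemma InW.card (hF : HF J P) (h : InW J P B' x v a) : a.card = 4 :=
  (hF.needy_struct (h.top_mem hF) h.2.1 Finset.subset_union_right h.2.2.2.1).1

/-- The empty trace. -/
lemma InW.sdiff_mem (hF : HF J P) (h : InW J P B' x v a) : B' \ {x} ∈ unions J := by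
  have := (hF.loser_struct (h.top_mem hF) h.2.1 Finset.subset_union_right h.2.2.2.1.neg).2.1
  rwa [h.sdiff] at this

lemma InW.v_sub (h : InW J P B' x v a) : v ⊆ B' := h.2.2.2.2.2.1.2.1

lemma InW.x_v (h : InW J P B' x v a) : x ∈ v := h.2.2.2.2.2.1.2.2.1

lemma InW.v_P (h : InW J P B' x v a) : v ∈ P := h.2.2.2.2.1

lemma InW.v_ne (hF : HF J P) (h : InW J P B' x v a) : v ≠ a := by
  intro hva
  have h1 := h.card hF
  have h2 : a ∩ B' = a := Finset.inter_eq_left.2 (hva ▸ h.v_sub)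
  rw [h.2.2.1] at h2
  rw [← h2, Finset.card_singleton] at h1
  omega

/-- The members `A` with `A ∪ v = B'` contain `v` without `x`. -/
lemma InW.down (hF : HF J P) (h : InW J P B' x v a) {A : Finset α} (hA : A ∈ unions J)
    (hAv : A ∪ v = B') : v.erase x ⊆ A := by
  have hfull := h.2.2.2.2.2.2
  intro z hz
  obtain ⟨hzx, hzv⟩ := Finset.mem_erase.1 hz
  have hzF : z ∈ Fo J (B' ∪ a) v := by rw [hfull]; exact hzv
  have hvX : v ⊆ B' ∪ a := h.v_sub.trans Finset.subset_union_left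
  have h1 := ((mem_Fo' hvX).1 hzF).2 (A ∪ a) (union_mem hA (self_mem (hF.PJ h.2.1))) (by
    rw [← hAv]
    ext y
    simp only [Finset.mem_union]
    tauto)
  rcases Finset.mem_union.1 h1 with h2 | h2
  · exact h2
  · exact absurd ((h.mem_iff_x (h.v_sub hzv)).1 h2) hzx

lemma InW.erase_union (h : InW J P B' x v a) : (B' \ {x}) ∪ v = B' := by
  ext z
  simp only [Finset.mem_sdiff, Finset.mem_union, Finset.mem_singleton]
  constructor
  · rintro (⟨h1, _⟩ | h1)
    · exact h1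
    · exact h.v_sub h1
  · intro h1
    by_cases hz : z = x
    · exact Or.inr (hz ▸ h.x_v)
    · exact Or.inl ⟨h1, hz⟩

lemma InW.down_Fo (hF : HF J P) (h : InW J P B' x v a) : Fo J B' v = v.erase x := by
  ext p
  rw [mem_Fo' h.v_sub, Finset.mem_erase]
  constructor
  · rintro ⟨h1, h2⟩
    have h3 := h2 _ (h.sdiff_mem hF) h.erase_union
    exact ⟨fun hpx => (Finset.mem_sdiff.1 h3).2 (Finset.mem_singleton.2 hpx), h1⟩
  · rintro ⟨h1, h2⟩
    refine ⟨h2, fun A hA hAv => h.down hF hA hAv (Finset.mem_erase.2 ⟨h1, h2⟩)⟩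

/-- The value of `(B', v)`. -/
lemma InW.down_value (hF : HF J P) (h : InW J P B' x v a) :
    bb J B' v = 2 * (v.card : ℤ) - 2 := by
  have hxv := h.x_v
  have hne : v.erase x ≠ v := fun he => absurd hxv (Finset.erase_eq_self.1 he)
  have hset : v.powerset.filter (fun T => (B' \ v) ∪ T ∈ unions J) = {v.erase x, v} := by
    ext T
    rw [Finset.mem_filter, Finset.mem_powerset, Finset.mem_insert, Finset.mem_singleton]
    constructor
    · rintro ⟨hT, hm⟩
      have h1 := h.down hF hm (union_eq_of_sub h.v_sub hT)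
      have h2 : v.erase x ⊆ T := by
        intro z hz
        rcases Finset.mem_union.1 (h1 hz) with h3 | h3
        · exact absurd (Finset.mem_of_mem_erase hz) (Finset.mem_sdiff.1 h3).2
        · exact h3
      by_cases hxT : x ∈ T
      · right
        apply Finset.Subset.antisymm hT
        intro z hz
        by_cases hzx : z = x
        · rw [hzx]; exact hxT
        · exact h2 (Finset.mem_erase.2 ⟨hzx, hz⟩)
      · left
        apply Finset.Subset.antisymm _ h2
        intro z hz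
        exact Finset.mem_erase.2 ⟨fun hzx => hxT (hzx ▸ hz), hT hz⟩
    · rintro (rfl | rfl)
      · refine ⟨Finset.erase_subset _ _, ?_⟩
        have he : (B' \ v) ∪ v.erase x = B' \ {x} := by
          ext z
          simp only [Finset.mem_union, Finset.mem_sdiff, Finset.mem_erase, Finset.mem_singleton]
          constructor
          · rintro (⟨h1, h2⟩ | ⟨h1, h2⟩)
            · exact ⟨h1, fun hzx => h2 (hzx ▸ hxv)⟩
            · exact ⟨h.v_sub h2, h1⟩
          · rintro ⟨h1, h2⟩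
            by_cases hz : z ∈ v
            · exact Or.inr ⟨h2, hz⟩
            · exact Or.inl ⟨h1, hz⟩
        rw [he]
        exact h.sdiff_mem hF
      · exact ⟨Finset.Subset.refl _, tr_top h.1 h.v_sub⟩
  unfold bb
  rw [← Finset.sum_filter, hset, Finset.sum_pair hne, Finset.card_erase_of_mem hxv]
  have : 1 ≤ v.card := Finset.card_pos.2 ⟨x, hxv⟩
  push_cast [Nat.cast_sub this]
  ring

/-- No loser at `B'` meets `v`. -/
lemma InW.down_CP (hF : HF J P) (h : InW J P B' x v a) : CP J P B' v = ∅ := by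
  rw [Finset.eq_empty_iff_forall_notMem]
  intro p hp
  obtain ⟨hpF, w, hwP, hwB, hneg, hvw⟩ := mem_CP.1 hp
  rw [h.down_Fo hF] at hpF
  obtain ⟨hpx, _⟩ := Finset.mem_erase.1 hpF
  have hpw : p ∈ v ∩ w := by
    rw [hvw]
    exact Finset.mem_singleton_self p
  have hxw : x ∉ w := by
    intro hxw
    have : x ∈ v ∩ w := Finset.mem_inter.2 ⟨h.x_v, hxw⟩
    rw [hvw, Finset.mem_singleton] at this
    exact hpx this.symm
  have h0 := (hF.loser_struct h.1 hwP hwB hneg).2.1
  obtain ⟨g, hg, hgs, hxg⟩ := (mem_iff h0 x).1 (Finset.mem_sdiff.2 ⟨h.x_mem.2, hxw⟩)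
  have hgv : g = v := h.2.2.2.2.2.1.2.2.2 g hg (hgs.trans Finset.sdiff_subset) hxg
  rw [hgv] at hgs
  obtain ⟨h1, h2⟩ := Finset.mem_inter.1 hpw
  exact (Finset.mem_sdiff.1 (hgs h1)).2 h2

/-- (3.0) -/
lemma InW.loser_eq (hF : HF J P) (ha : InW J P B' x v a) (hb : InW J P B' x v b)
    {w : Finset α} (hw : w ∈ P) (hwX : w ⊆ B' ∪ a ∪ b) (hneg : bb J (B' ∪ a ∪ b) w < 0) {z : α}
    (hzw : z ∈ w) (hza : z ∈ a) (hzb : z ∈ b) : w = a ∨ w = b := by
  have hX : B' ∪ a ∪ b ∈ unions J := union_mem (ha.top_mem hF) (self_mem (hF.PJ hb.2.1))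
  obtain ⟨_, _, ⟨r, hrw, hr⟩, _⟩ := hF.loser_struct hX hw hwX hneg
  by_cases hra : r ∈ a
  · left
    exact (hr a (hF.PJ ha.2.1)
      (Finset.subset_union_right.trans Finset.subset_union_left) hra).symm
  by_cases hrb : r ∈ b
  · right
    exact (hr b (hF.PJ hb.2.1) Finset.subset_union_right hrb).symm
  exfalso
  have hrX := hwX hrw
  have hrB : r ∈ B' := by
    rcases Finset.mem_union.1 hrX with h1 | h1
    · rcases Finset.mem_union.1 h1 with h2 | h2
      · exact h2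
      · exact absurd h2 hra
    · exact absurd h1 hrb
  have hrx : r ≠ x := fun he => hra (he ▸ ha.x_mem.1)
  obtain ⟨g, hg, hgs, hrg⟩ := (mem_iff (hb.sdiff_mem hF) r).1
    (Finset.mem_sdiff.2 ⟨hrB, fun he => hrx (Finset.mem_singleton.1 he)⟩)
  have hgw := hr g hg (hgs.trans (Finset.sdiff_subset.trans
    (Finset.subset_union_left.trans Finset.subset_union_left))) hrg
  rw [hgw] at hgs
  obtain ⟨h1, h2⟩ := Finset.mem_sdiff.1 (hgs hzw)
  exact h2 (Finset.mem_singleton.2 ((ha.mem_iff_x h1).1 hza))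

/-- The trace of `B' ∪ b` on `a` at `X`. -/
lemma InW.tau (hF : HF J P) (ha : InW J P B' x v a) (hb : InW J P B' x v b) :
    ((B' ∪ a ∪ b) \ a) ∪ (a ∩ b) = B' ∪ b := by
  ext z
  simp only [Finset.mem_union, Finset.mem_sdiff, Finset.mem_inter]
  constructor
  · rintro (⟨(h1 | h1) | h1, h2⟩ | ⟨h1, h2⟩)
    · exact Or.inl h1
    · exact absurd h1 h2
    · exact Or.inr h1
    · exact Or.inr h2
  · rintro (h1 | h1)
    · by_cases hza : z ∈ a
      · right
        refine ⟨hza, ?_⟩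
        rw [(ha.mem_iff_x h1).1 hza]
        exact hb.x_mem.1
      · exact Or.inl ⟨Or.inl (Or.inl h1), hza⟩
    · by_cases hza : z ∈ a
      · exact Or.inr ⟨hza, h1⟩
      · exact Or.inl ⟨Or.inr h1, hza⟩

/-- (3.2) -/
lemma InW.min (hF : HF J P) (ha : InW J P B' x v a) (hb : InW J P B' x v b)
    (ho : Out J B' a b) {A : Finset α} (hA : A ∈ unions J) (hAa : A ∪ a = B' ∪ a ∪ b)
    (hsub : A ∩ a ⊆ a ∩ b) : a ∩ b ⊆ A := by
  obtain ⟨r, ⟨hrb, hr⟩, hra⟩ := ho
  have hAsub : A ⊆ B' ∪ b := by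
    rw [← InW.tau hF ha hb]
    intro z hz
    by_cases hza : z ∈ a
    · exact Finset.mem_union_right _ (hsub (Finset.mem_inter.2 ⟨hz, hza⟩))
    · refine Finset.mem_union_left _ (Finset.mem_sdiff.2 ⟨?_, hza⟩)
      rw [← hAa]
      exact Finset.mem_union_left _ hz
  have hrA : r ∈ A := by
    have : r ∈ A ∪ a := by
      rw [hAa]
      exact Finset.mem_union_right _ hrb
    rcases Finset.mem_union.1 this with h1 | h1
    · exact h1
    · exact absurd h1 hra
  obtain ⟨g, hg, hgs, hrg⟩ := (mem_iff hA r).1 hrA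
  rw [hr g hg (hgs.trans hAsub) hrg] at hgs
  exact Finset.inter_subset_right.trans hgs

lemma InW.no_empty (hF : HF J P) (ha : InW J P B' x v a) (hb : InW J P B' x v b)
    (ho : Out J B' a b) : (B' ∪ a ∪ b) \ a ∉ unions J := by
  intro hm
  have h1 := InW.min hF ha hb ho hm (by
    rw [Finset.sdiff_union_of_subset]
    exact Finset.subset_union_right.trans Finset.subset_union_left) (by
    intro z hz
    obtain ⟨h2, h3⟩ := Finset.mem_inter.1 hz
    exact absurd h3 (Finset.mem_sdiff.1 h2).2)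
  have h2 := h1 (Finset.mem_inter.2 ⟨ha.x_mem.1, hb.x_mem.1⟩)
  exact (Finset.mem_sdiff.1 h2).2 ha.x_mem.1

/-- `B'` from `X`. -/
lemma InW.B'_eq (ha : InW J P B' x v a) (hb : InW J P B' x v b) :
    B' = (B' ∪ a ∪ b) \ ((a ∪ b).erase x) := by
  ext z
  simp only [Finset.mem_sdiff, Finset.mem_union, Finset.mem_erase]
  constructor
  · intro h1
    refine ⟨Or.inl (Or.inl h1), ?_⟩
    rintro ⟨h2, h3 | h3⟩
    · exact h2 ((ha.mem_iff_x h1).1 h3)
    · exact h2 ((hb.mem_iff_x h1).1 h3)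
  · rintro ⟨(h1 | h1) | h1, h2⟩
    · exact h1
    · have : z = x := by
        by_contra hzx
        exact h2 ⟨hzx, Or.inl h1⟩
      rw [this]
      exact ha.x_mem.2
    · have : z = x := by
        by_contra hzx
        exact h2 ⟨hzx, Or.inr h1⟩
      rw [this]
      exact ha.x_mem.2

/-- Needy members: two private points, or one and all subsets of the rest. -/
lemma InW.needy (hF : HF J P) (ha : InW J P B' x v a) :
    (∃ r r', r ≠ r' ∧ r ≠ x ∧ r' ≠ x ∧ Priv J (B' ∪ a) a r ∧ Priv J (B' ∪ a) a r') ∨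
      ∃ r, r ≠ x ∧ Priv J (B' ∪ a) a r ∧ ∀ T, T ⊆ a.erase r → (B' \ {x}) ∪ T ∈ unions J := by
  have hx : ∀ r, Priv J (B' ∪ a) a r → r ≠ x := by
    rintro r ⟨_, hr⟩ rfl
    exact ha.v_ne hF (hr v (hF.PJ ha.v_P) (ha.v_sub.trans Finset.subset_union_left) ha.x_v)
  rcases (hF.needy_struct (ha.top_mem hF) ha.2.1 Finset.subset_union_right ha.2.2.2.1).2 with
    ⟨r, r', hne, h1, h2⟩ | ⟨r, h1, h2⟩
  · exact Or.inl ⟨r, r', hne, hx r h1, hx r' h2, h1, h2⟩
  · rw [ha.sdiff] at h2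
    exact Or.inr ⟨r, hx r h1, h1, h2⟩

/-- If all private points of `a` are in `b` there is exactly one. -/
lemma InW.single (hF : HF J P) (ha : InW J P B' x v a) (hb : InW J P B' x v b) (hab : a ≠ b)
    (ho : ¬ Out J B' b a) :
    ∃ r, r ≠ x ∧ r ∈ b ∧ Priv J (B' ∪ a) a r ∧ a ∩ b = {x, r} ∧
      ∀ T, T ⊆ a.erase r → (B' \ {x}) ∪ T ∈ unions J := by
  have hin : ∀ r, Priv J (B' ∪ a) a r → r ∈ b := by
    intro r hr
    by_contra hrb
    exact ho ⟨r, hr, hrb⟩
  have hc : (a ∩ b).card ≤ 2 := hF.share b hb.2.1 a ha.2.1 hab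
  have hxm : x ∈ a ∩ b := Finset.mem_inter.2 ⟨ha.x_mem.1, hb.x_mem.1⟩
  rcases ha.needy hF with ⟨r, r', hne, hrx, hrx', h1, h2⟩ | ⟨r, hrx, h1, h2⟩
  · exfalso
    have hsub : ({x, r, r'} : Finset α) ⊆ a ∩ b := by
      intro z hz
      rw [Finset.mem_insert, Finset.mem_insert, Finset.mem_singleton] at hz
      rcases hz with rfl | rfl | rfl
      · exact hxm
      · exact Finset.mem_inter.2 ⟨h1.1, hin _ h1⟩
      · exact Finset.mem_inter.2 ⟨h2.1, hin _ h2⟩
    have h3 := Finset.card_le_card hsub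
    rw [Finset.card_eq_three.2 ⟨x, r, r', hrx.symm, hrx'.symm, hne, rfl⟩] at h3
    omega
  · refine ⟨r, hrx, hin r h1, h1, ?_, h2⟩
    symm
    apply Finset.eq_of_subset_of_card_le
    · intro z hz
      rw [Finset.mem_insert, Finset.mem_singleton] at hz
      rcases hz with rfl | rfl
      · exact hxm
      · exact Finset.mem_inter.2 ⟨h1.1, hin _ h1⟩
    · rw [Finset.card_pair hrx.symm]
      exact hc

end Pool.Agent.H83.F4
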