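import Pool.Agent.H97.R3.Main
import Pool.Agent.H83.F4.Abs

/-!
# Theorem FOUR (MP_75f39d): definitions
-/

set_option autoImplicit false

namespace Pool.Agent.H83.F4

open Finset Pool.Agent.H97.GEN Pool.Agent.H83.ELZ Pool.Agent.H97.R3
open Pool.Agent.H97.R4 (bM FoM mem_FoM)

variable {α : Type*} [DecidableEq α]

/-- The hypotheses (no singletons in `P`). -/
structure HF (J P : Finset (Finset α)) : Prop where
  irr : ∀ g ∈ J, g ∉ unions (J.erase g)
  PC : P ⊆ cov J
  comp : ∀ w ∈ cov J, ∀ i ∈ P, ∀ z, z ∈ w → z ∈ i → w ∈ P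
  four : ∀ w ∈ P, w.card ≤ 4
  two : ∀ w ∈ P, 2 ≤ w.card
  share : ∀ w ∈ P, ∀ v ∈ P, v ≠ w → (v ∩ w).card ≤ 2

/-- The traces at `(B, w)`. -/
def Tr (J : Finset (Finset α)) (B w : Finset α) : Finset α → Prop :=
  fun T => (B \ w) ∪ T ∈ unions J

/-- The singles at `(B, w)`. -/
def sg (J : Finset (Finset α)) (B w : Finset α) : Finset α :=
  w.filter fun p => (B \ w) ∪ {p} ∈ unions J

/-- Needy pairs. -/
def Nd (J : Finset (Finset α)) (B w : Finset α) : Prop := bb J B w + ((sg J B w).card : ℤ) < 0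

/-- `r` is in no other generator inside `B`. -/
def Priv (J : Finset (Finset α)) (B w : Finset α) (r : α) : Prop :=
  r ∈ w ∧ ∀ g ∈ J, g ⊆ B → r ∈ g → g = w

/-- `v` is the only generator inside `B` with the point `x`. -/
def Uq (J : Finset (Finset α)) (B : Finset α) (x : α) (v : Finset α) : Prop :=
  v ∈ J ∧ v ⊆ B ∧ x ∈ v ∧ ∀ g ∈ J, g ⊆ B → x ∈ g → g = v

/-- `w` is a member of the group of the context `(B', x, v)`. -/
def InW (J P : Finset (Finset α)) (B' : Finset α) (x : α) (v w : Finset α) : Prop :=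
  B' ∈ unions J ∧ w ∈ P ∧ w ∩ B' = {x} ∧ Nd J (B' ∪ w) w ∧ v ∈ P ∧ Uq J B' x v ∧
    Fo J (B' ∪ w) v = v

/-- The supply of a forced point. -/
def uu (J : Finset (Finset α)) (B v : Finset α) : ℤ := if Fo J B v = v then 1 else 2

open scoped Classical in
/-- The charged points of `v` at `B`. -/
noncomputable def CP (J P : Finset (Finset α)) (B v : Finset α) : Finset α :=
  (Fo J B v).filter fun p => ∃ w ∈ P, w ⊆ B ∧ bb J B w < 0 ∧ v ∩ w = {p}

/-- The rest of the value. -/
noncomputable def res (J P : Finset (Finset α)) (B v : Finset α) : ℤ :=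
  if bb J B v < 0 then 0 else bb J B v - uu J B v * ((CP J P B v).card : ℤ)

open scoped Classical in
/-- The bad nodes of `w` at `B`. -/
noncomputable def bad (J P : Finset (Finset α)) (B w : Finset α) : Finset α :=
  w.filter fun x => ∃ v, InW J P ((B \ w) ∪ {x}) x v w

open scoped Classical in
/-- The contexts `(B', x, v)`. -/
noncomputable def Cx (J P : Finset (Finset α)) : Finset (Finset α × α × Finset α) :=
  (unions J ×ˢ (P.sup id) ×ˢ P).filter fun t => ∃ w, InW J P t.1 t.2.1 t.2.2 w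

open scoped Classical in
/-- The group of a context. -/
noncomputable def WW (J P : Finset (Finset α)) (t : Finset α × α × Finset α) :
    Finset (Finset α) :=
  P.filter fun w => InW J P t.1 t.2.1 t.2.2 w

open scoped Classical in
/-- The ordered pairs in the groups: `((B', x, v), a, b)`. -/
noncomputable def Om (J P : Finset (Finset α)) :
    Finset ((Finset α × α × Finset α) × Finset α × Finset α) :=
  (Cx J P ×ˢ P ×ˢ P).filter fun o => InW J P o.1.1 o.1.2.1 o.1.2.2 o.2.1 ∧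
    InW J P o.1.1 o.1.2.1 o.1.2.2 o.2.2 ∧ o.2.1 ≠ o.2.2

/-- `b` has a private point (in `B' ∪ b`) outside `a`. -/
def Out (J : Finset (Finset α)) (B' a b : Finset α) : Prop := ∃ r, Priv J (B' ∪ b) b r ∧ r ∉ a

/-- The set `X`. -/
def XX (o : (Finset α × α × Finset α) × Finset α × Finset α) : Finset α :=
  o.1.1 ∪ o.2.1 ∪ o.2.2

/-- Claims of the first kind: paid by `(X, a)`. -/
def KG (J : Finset (Finset α)) (o : (Finset α × α × Finset α) × Finset α × Finset α) : Prop :=
  Out J o.1.1 o.2.1 o.2.2 ∧ 0 < bb J (XX o) o.2.1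

/-- Twins. -/
def Tw (J : Finset (Finset α)) (o : (Finset α × α × Finset α) × Finset α × Finset α) : Prop :=
  ¬ Out J o.1.1 o.2.1 o.2.2 ∧ ¬ Out J o.1.1 o.2.2 o.2.1

open scoped Classical in
/-- The number of claims of the first kind on `(X, w)`. -/
noncomputable def cG (J P : Finset (Finset α)) (X w : Finset α) : ℕ :=
  ((Om J P).filter fun o => KG J o ∧ XX o = X ∧ o.2.1 = w).card

open scoped Classical in
/-- The number of claims of twins on `(X, v)`, `x` forced. -/
noncomputable def c1 (J P : Finset (Finset α)) (X w : Finset α) : ℕ :=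
  ((Om J P).filter fun o => Tw J o ∧ o.1.2.1 ∈ Fo J (XX o) o.1.2.2 ∧ XX o = X ∧
    o.1.2.2 = w).card

open scoped Classical in
/-- The number of claims of twins on `(X, b)`, `x` not forced in `(X, v)`. -/
noncomputable def c2 (J P : Finset (Finset α)) (X w : Finset α) : ℕ :=
  ((Om J P).filter fun o => Tw J o ∧ o.1.2.1 ∉ Fo J (XX o) o.1.2.2 ∧ XX o = X ∧
    o.2.2 = w).card

open scoped Classical in
/-- The number of contexts paid by `(X, w)`. -/
noncomputable def dn (J P : Finset (Finset α)) (X w : Finset α) : ℕ :=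
  ((Cx J P).filter fun t => t.1 = X ∧ t.2.2 = w).card

/-- All claims on `(X, w)`, in quarters. -/
noncomputable def cl (J P : Finset (Finset α)) (X w : Finset α) : ℤ :=
  8 * (dn J P X w : ℤ) + 2 * (cG J P X w : ℤ) + (c1 J P X w : ℤ) + (c2 J P X w : ℤ)

section

variable {J P : Finset (Finset α)} {B w v : Finset α}

lemma bb_eq : bb J B w = bM (Tr J B w) w := by
  classical
  unfold bb bM Tr
  apply Finset.sum_congr rfl
  intro T _
  split_ifs <;> rfl

lemma Fo_eq : Fo J B w = FoM (Tr J B w) w := by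
  ext p
  rw [mem_Fo, mem_FoM]
  rfl

lemma mem_sg {p : α} : p ∈ sg J B w ↔ p ∈ w ∧ (B \ w) ∪ {p} ∈ unions J := Finset.mem_filter

lemma mem_sM {M : Finset α → Prop} {C : Finset α} {p : α} : p ∈ sM M C ↔ p ∈ C ∧ M {p} := by
  classical
  unfold sM
  exact Finset.mem_filter

lemma sg_eq : sg J B w = sM (Tr J B w) w := by
  ext p
  rw [mem_sg, mem_sM]
  rfl

lemma Tr_union (S S' : Finset α) (h : Tr J B w S) (h' : Tr J B w S') : Tr J B w (S ∪ S') := by
  unfold Tr at *
  have := union_mem h h'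
  have he : (B \ w) ∪ S ∪ ((B \ w) ∪ S') = (B \ w) ∪ (S ∪ S') := by
    ext z
    simp only [Finset.mem_union]
    tauto
  rwa [he] at this

lemma Tr_top (hB : B ∈ unions J) (hw : w ⊆ B) : Tr J B w w := tr_top hB hw

/-- Members `A` with `A ∪ w = B` and traces. -/
lemma sdiff_union_inter {A : Finset α} (h : A ∪ w = B) : (B \ w) ∪ (A ∩ w) = A := by
  ext z
  rw [← h]
  simp only [Finset.mem_union, Finset.mem_sdiff, Finset.mem_inter]
  tauto

lemma Tr_inter {A : Finset α} (hA : A ∈ unions J) (h : A ∪ w = B) : Tr J B w (A ∩ w) := by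
  unfold Tr
  rw [sdiff_union_inter h]
  exact hA

lemma union_eq_of_sub {T : Finset α} (hw : w ⊆ B) (hT : T ⊆ w) : ((B \ w) ∪ T) ∪ w = B := by
  ext z
  simp only [Finset.mem_union, Finset.mem_sdiff]
  constructor
  · rintro ((⟨h, _⟩ | h) | h)
    · exact h
    · exact hw (hT h)
    · exact hw h
  · intro h
    by_cases hz : z ∈ w
    · exact Or.inr hz
    · exact Or.inl (Or.inl ⟨h, hz⟩)

/-- Forced points, in terms of members. -/
lemma mem_Fo' {p : α} (hv : v ⊆ B) :
    p ∈ Fo J B v ↔ p ∈ v ∧ ∀ A ∈ unions J, A ∪ v = B → p ∈ A := by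
  rw [mem_Fo]
  constructor
  · rintro ⟨h1, h2⟩
    refine ⟨h1, fun A hA hAv => ?_⟩
    have h3 := h2 (A ∩ v) Finset.inter_subset_right (Tr_inter hA hAv)
    exact (Finset.mem_inter.1 h3).1
  · rintro ⟨h1, h2⟩
    refine ⟨h1, fun T hT hm => ?_⟩
    have h3 := h2 _ hm (union_eq_of_sub hv hT)
    rcases Finset.mem_union.1 h3 with h | h
    · exact absurd h1 (Finset.mem_sdiff.1 h).2
    · exact h

lemma mem_CP {p : α} : p ∈ CP J P B v ↔
    p ∈ Fo J B v ∧ ∃ w ∈ P, w ⊆ B ∧ bb J B w < 0 ∧ v ∩ w = {p} := by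
  classical
  unfold CP
  exact Finset.mem_filter

lemma mem_bad {x : α} : x ∈ bad J P B w ↔ x ∈ w ∧ ∃ v, InW J P ((B \ w) ∪ {x}) x v w := by
  classical
  unfold bad
  exact Finset.mem_filter

lemma InW.x_mem {B' : Finset α} {x : α} {w : Finset α} (h : InW J P B' x v w) :
    x ∈ w ∧ x ∈ B' := by
  have hx : x ∈ w ∩ B' := by
    rw [h.2.2.1]
    exact Finset.mem_singleton_self x
  exact Finset.mem_inter.1 hx

lemma mem_Cx {t : Finset α × α × Finset α} :
    t ∈ Cx J P ↔ ∃ w, InW J P t.1 t.2.1 t.2.2 w := by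
  classical
  unfold Cx
  rw [Finset.mem_filter]
  constructor
  · exact fun h => h.2
  · rintro ⟨w, hw⟩
    refine ⟨?_, w, hw⟩
    rw [Finset.mem_product, Finset.mem_product]
    refine ⟨hw.1, ?_, hw.2.2.2.2.1⟩
    exact mem_sup_id.2 ⟨w, hw.2.1, hw.x_mem.1⟩

lemma mem_WW {t : Finset α × α × Finset α} {w : Finset α} :
    w ∈ WW J P t ↔ InW J P t.1 t.2.1 t.2.2 w := by
  classical
  unfold WW
  rw [Finset.mem_filter]
  exact ⟨fun h => h.2, fun h => ⟨h.2.1, h⟩⟩

lemma mem_Om {o : (Finset α × α × Finset α) × Finset α × Finset α} :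
    o ∈ Om J P ↔ InW J P o.1.1 o.1.2.1 o.1.2.2 o.2.1 ∧
      InW J P o.1.1 o.1.2.1 o.1.2.2 o.2.2 ∧ o.2.1 ≠ o.2.2 := by
  classical
  unfold Om
  rw [Finset.mem_filter]
  constructor
  · exact fun h => h.2
  · intro h
    refine ⟨?_, h⟩
    rw [Finset.mem_product, Finset.mem_product]
    exact ⟨mem_Cx.2 ⟨_, h.1⟩, h.1.2.1, h.2.1.2.1⟩

lemma HF.PJ (h : HF J P) {w : Finset α} (hw : w ∈ P) : w ∈ J := (mem_cov.1 (h.PC hw)).1

lemma HF.ne (h : HF J P) {w : Finset α} (hw : w ∈ J) : w.Nonempty := by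
  rw [Finset.nonempty_iff_ne_empty]
  rintro rfl
  exact h.irr _ hw (empty_mem _)

end

end Pool.Agent.H83.F4
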