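import Pool.Agent.H83.F4.Strict
import Pool.Agent.H83.ELZ.FinalM

/-!
# Theorem FOUR (MP_75f39d): union-closed families

Row F4/Final (helper4 or helper83). `four_local`: from `four_exists_gt` (Strict) as in `Pool/Agent/H97/R5/Final.lean` (`tr_local`);
`four_all`: as `tr_all` there.
-/

set_option autoImplicit false

namespace Pool.Agent.H83.F4

open Finset Pool.Agent.H97.GEN Pool.Agent.H83.ELZ Pool.Agent.H84.GEN

variable {α : Type*} [DecidableEq α]

/-- The local form. -/
theorem four_local {A : Finset (Finset α)} (hA : UnionClosed A) (P : Finset (Finset α))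
    (hP : P ⊆ cov (gens A)) (hne : P.Nonempty)
    (hcl : ∀ w ∈ cov (gens A), ∀ i ∈ P, ¬ Disjoint w i → w ∈ P)
    (h4 : ∀ G ∈ P, G.card ≤ 4) (h2 : ∀ G ∈ P, ∀ G' ∈ P, G' ≠ G → (G' ∩ G).card ≤ 2) :
    ∃ x ∈ P.sup id, A.card < 2 * fr A x := by
  have hu := unions_gens hA
  obtain ⟨z, hz, hlt⟩ := four_exists_gt (J := gens A) (P := P) (fun g hg => gens_irr A hg) hP
    (fun w hw i hi y hyw hyi => hcl w hw i hi (Finset.not_disjoint_iff.2 ⟨y, hyw, hyi⟩)) h4 h2 hne
  have h1 : A.card ≤ (unions (gens A)).card := by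
    rw [hu]
    exact Finset.card_le_card (Finset.subset_insert _ _)
  have h3 : fr (unions (gens A)) z = fr A z := by
    rw [hu]
    exact fr_insert_empty A z
  exact ⟨z, hz, by omega⟩

/-- The whole family. -/
theorem four_all {A : Finset (Finset α)} (hA : UnionClosed A)
    (h : (meet A).Nonempty ∨ SepNotPower A)
    (h4 : ∀ G ∈ cov (gens A), G.card ≤ 4)
    (h2 : ∀ G ∈ cov (gens A), ∀ G' ∈ cov (gens A), G' ≠ G → (G' ∩ G).card ≤ 2) :
    ∃ x ∈ A.sup id, A.card < 2 * fr A x := by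
  classical
  by_cases hc : (cov (gens A)).Nonempty
  · obtain ⟨x, hx, hlt⟩ := four_local hA (cov (gens A)) (Finset.Subset.refl _) hc
      (fun w hw _ _ _ => hw) h4 h2
    obtain ⟨G, hG, hxG⟩ := mem_sup_id.1 hx
    exact ⟨x, mem_sup_id.2 ⟨G, gens_subset A (mem_cov.1 hG).1, hxG⟩, hlt⟩
  · apply part4_M hA h
    intro z
    rw [Finset.not_nonempty_iff_eq_empty] at hc
    rw [hc]
    simp

end Pool.Agent.H83.F4
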