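import Pool.Agent.H83.F4.Defs

/-!
# Theorem FOUR (MP_75f39d): losers, their targets

Row F4/Loc. Proofs:
* `in_P`: `g` in `J` with a point of `w` in `P`: if `g` is not in `P` it is not covered, so it has a point `f` in no other
  generator; `f` is not in `w`; `A ∪ w = B ⊇ g` gives `f ∈ A`, so `g ⊆ A`.
* `loser_struct`: `bM_loser4` (Abs) for `M = Tr J B w`. If `Tr ∅`, i.e. `B \ w ∈ unions J`, every generator inside `B`
  meeting `w` is in `P` (by `in_P` with `A = B \ w`), so every trace `T = A ∩ w ≠ w` is a union of sets `g ∩ w`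
  (`g ⊆ A`, `g ≠ w`) with at most two points which are traces themselves (`(B \ w) ∪ g`). Privacy in the sense of traces
  gives `Priv`: `g ∩ w` would be a trace with `r`, so `g ∩ w = w`, which has at least three points.
* `target`: `p ∈ g ⊆ (B \ w) ∪ {p}`: `g ≠ w` (`w` has at least three points), `g` in `P` (see above), `g ∩ w = {p}`; `p ∈ Fo J B g`:
  `A ∪ g = B`, the private point `r` of `w` is not in `g`, so `r ∈ A`, `w ⊆ A`.
* `loser_unique`: as at the end of `HR.ss_nonneg` in `Pool/Agent/H97/R3/Main.lean`.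
* `forced_le`: `bM_forced4`.
-/

set_option autoImplicit false

namespace Pool.Agent.H83.F4

open Finset Pool.Agent.H97.GEN Pool.Agent.H83.ELZ Pool.Agent.H97.R3
open Pool.Agent.H97.R4 (bM FoM mem_FoM)

variable {α : Type*} [DecidableEq α] {J P : Finset (Finset α)} {B w v : Finset α}

/-- A generator outside `P` that meets `w` is inside every `A` with `A ∪ w = B`. -/
lemma HF.in_P (h : HF J P) (hwP : w ∈ P) {g : Finset α} (hg : g ∈ J) (hgB : g ⊆ B) {z : α}
    (hzg : z ∈ g) (hzw : z ∈ w) (hgP : g ∉ P) {A : Finset α} (hA : A ∈ unions J)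
    (hAw : A ∪ w = B) : g ⊆ A := by
  have hcov : g ∉ cov J := fun hc => hgP (h.comp g hc w hwP z hzg hzw)
  have hf : ∃ f ∈ g, ∀ g' ∈ J, f ∈ g' → g' = g := by
    by_contra hne
    push Not at hne
    refine hcov (mem_cov.2 ⟨hg, fun p hp => ?_⟩)
    obtain ⟨g', hg', hpg', hne'⟩ := hne p hp
    exact ⟨g', hg', hne', hpg'⟩
  obtain ⟨f, hfg, hf⟩ := hf
  have hfw : f ∉ w := by
    intro hfw
    have := hf w (h.PJ hwP) hfw
    rw [this] at hwP
    exact hgP hwP
  have hfB : f ∈ A ∪ w := by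
    rw [hAw]
    exact hgB hfg
  have hfA : f ∈ A := by
    rcases Finset.mem_union.1 hfB with h' | h'
    · exact h'
    · exact absurd h' hfw
  obtain ⟨G, hG, hGA, hfG⟩ := (mem_iff hA f).1 hfA
  rw [hf G hG hfG] at hGA
  exact hGA

/-- If `B \ w` is a member, every generator inside `B` that meets `w` is in `P`. -/
lemma HF.mem_P (h : HF J P) (hwP : w ∈ P) (hwB : w ⊆ B) (h0 : B \ w ∈ unions J) {g : Finset α}
    (hg : g ∈ J) (hgB : g ⊆ B) {z : α} (hzg : z ∈ g) (hzw : z ∈ w) : g ∈ P := by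
  by_contra hgP
  have := h.in_P hwP hg hgB hzg hzw hgP h0 (Finset.sdiff_union_of_subset hwB)
  exact (Finset.mem_sdiff.1 (this hzg)).2 hzw

/-- The trace of a generator inside `B`. -/
lemma tr_gen (h0 : B \ w ∈ unions J) {g : Finset α} (hg : g ∈ J) (hgB : g ⊆ B) :
    Tr J B w (g ∩ w) := by
  unfold Tr
  have he : (B \ w) ∪ (g ∩ w) = (B \ w) ∪ g := by
    ext u
    simp only [Finset.mem_union, Finset.mem_sdiff, Finset.mem_inter]
    constructor
    · rintro (hu | hu)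
      · exact Or.inl hu
      · exact Or.inr hu.1
    · rintro (hu | hu)
      · exact Or.inl hu
      · by_cases huw : u ∈ w
        · exact Or.inr ⟨hu, huw⟩
        · exact Or.inl ⟨hgB hu, huw⟩
  rw [he]
  exact union_mem h0 (self_mem hg)

/-- Privacy in the sense of traces gives privacy. -/
lemma HF.priv (h : HF J P) (hwP : w ∈ P) (hwB : w ⊆ B) (h0 : B \ w ∈ unions J)
    (hc : 3 ≤ w.card) {r : α} (hr : Pv (Tr J B w) w r) : Priv J B w r := by
  refine ⟨hr.1, fun g hg hgB hrg => ?_⟩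
  by_contra hgw
  have hgP := h.mem_P hwP hwB h0 hg hgB hrg hr.1
  have h1 := hr.2 _ Finset.inter_subset_right (tr_gen h0 hg hgB) (Finset.mem_inter.2 ⟨hrg, hr.1⟩)
  have h2 := h.share w hwP g hgP hgw
  rw [h1] at h2
  omega

/-- The structure of losers. -/
theorem HF.loser_struct (h : HF J P) (hB : B ∈ unions J) (hwP : w ∈ P) (hwB : w ⊆ B)
    (hneg : bb J B w < 0) :
    3 ≤ w.card ∧ B \ w ∈ unions J ∧ (∃ r, Priv J B w r) ∧
      0 ≤ bb J B w + 2 * ((sg J B w).card : ℤ) := by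
  have hneg' : bM (Tr J B w) w < 0 := by
    rw [← bb_eq]
    exact hneg
  have hG : Tr J B w ∅ → ∀ T, T ⊆ w → Tr J B w T → T ≠ w → ∀ r ∈ T,
      ∃ G, G ⊆ T ∧ r ∈ G ∧ G.card ≤ 2 ∧ Tr J B w G := by
    intro h0 T hT hm hTw r hr
    have h0' : B \ w ∈ unions J := by
      unfold Tr at h0
      rwa [Finset.union_empty] at h0
    unfold Tr at hm
    obtain ⟨g, hg, hgA, hrg⟩ := (mem_iff hm r).1 (Finset.mem_union_right _ hr)
    have hgB : g ⊆ B := by
      intro u hu
      rcases Finset.mem_union.1 (hgA hu) with h' | h'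
      · exact (Finset.mem_sdiff.1 h').1
      · exact hwB (hT h')
    have hgT : g ∩ w ⊆ T := by
      intro u hu
      obtain ⟨hu1, hu2⟩ := Finset.mem_inter.1 hu
      rcases Finset.mem_union.1 (hgA hu1) with h' | h'
      · exact absurd hu2 (Finset.mem_sdiff.1 h').2
      · exact h'
    have hgw : g ≠ w := by
      rintro rfl
      rw [Finset.inter_self] at hgT
      exact hTw (Finset.Subset.antisymm hT hgT)
    have hgP := h.mem_P hwP hwB h0' hg hgB hrg (hT hr)
    exact ⟨g ∩ w, hgT, Finset.mem_inter.2 ⟨hrg, hT hr⟩, h.share w hwP g hgP hgw,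
      tr_gen h0' hg hgB⟩
  obtain ⟨hc, h0, ⟨r, hr⟩, hs⟩ :=
    bM_loser4 (fun S S' => Tr_union S S') (Tr_top hB hwB) (h.four w hwP) hneg' hG
  have h0' : B \ w ∈ unions J := by
    unfold Tr at h0
    rwa [Finset.union_empty] at h0
  refine ⟨hc, h0', ⟨r, h.priv hwP hwB h0' hc hr⟩, ?_⟩
  rw [bb_eq, sg_eq]
  exact hs

/-- Targets exist. -/
lemma HF.target_ex {p : α} (hp : p ∈ sg J B w) :
    ∃ g ∈ J, p ∈ g ∧ g ⊆ (B \ w) ∪ {p} := by
  obtain ⟨_, hm⟩ := mem_sg.1 hp
  obtain ⟨g, hg, hgA, hpg⟩ :=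
    (mem_iff hm p).1 (Finset.mem_union_right _ (Finset.mem_singleton_self p))
  exact ⟨g, hg, hpg, hgA⟩

/-- Targets. -/
theorem HF.target (h : HF J P) (hB : B ∈ unions J) (hwP : w ∈ P) (hwB : w ⊆ B)
    (hneg : bb J B w < 0) {p : α} (hp : p ∈ sg J B w) {g : Finset α} (hg : g ∈ J) (hpg : p ∈ g)
    (hgs : g ⊆ (B \ w) ∪ {p}) :
    g ∈ P ∧ g ⊆ B ∧ g ∩ w = {p} ∧ g ≠ w ∧ p ∈ Fo J B g := by
  obtain ⟨hc, h0, ⟨r, hrw, hr⟩, _⟩ := h.loser_struct hB hwP hwB hneg
  obtain ⟨hpw, _⟩ := mem_sg.1 hp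
  have hgB : g ⊆ B := by
    intro u hu
    rcases Finset.mem_union.1 (hgs hu) with h' | h'
    · exact (Finset.mem_sdiff.1 h').1
    · rw [Finset.mem_singleton.1 h']
      exact hwB hpw
  have hgw1 : g ∩ w = {p} := by
    ext u
    rw [Finset.mem_inter, Finset.mem_singleton]
    constructor
    · rintro ⟨hu1, hu2⟩
      rcases Finset.mem_union.1 (hgs hu1) with h' | h'
      · exact absurd hu2 (Finset.mem_sdiff.1 h').2
      · exact Finset.mem_singleton.1 h'
    · rintro rfl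
      exact ⟨hpg, hpw⟩
  have hgw : g ≠ w := by
    rintro rfl
    rw [Finset.inter_self] at hgw1
    rw [hgw1, Finset.card_singleton] at hc
    omega
  refine ⟨h.mem_P hwP hwB h0 hg hgB hpg hpw, hgB, hgw1, hgw, (mem_Fo' hgB).2 ⟨hpg, ?_⟩⟩
  intro A hA hAg
  have hrg : r ∉ g := fun hrg => hgw (hr g hg hgB hrg)
  have hrA : r ∈ A := by
    have hrB : r ∈ A ∪ g := by
      rw [hAg]
      exact hwB hrw
    rcases Finset.mem_union.1 hrB with h' | h'
    · exact h'
    · exact absurd h' hrg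
  obtain ⟨G, hG, hGA, hrG⟩ := (mem_iff hA r).1 hrA
  have hAB : A ⊆ B := by
    rw [← hAg]
    exact Finset.subset_union_left
  rw [hr G hG (hGA.trans hAB) hrG] at hGA
  exact hGA hpw

/-- Different losers at `B` are disjoint. -/
theorem HF.loser_unique (h : HF J P) (hB : B ∈ unions J) (hwP : w ∈ P) (hwB : w ⊆ B)
    (hneg : bb J B w < 0) (hvP : v ∈ P) (hvB : v ⊆ B) (hneg' : bb J B v < 0) {z : α}
    (hzw : z ∈ w) (hzv : z ∈ v) : w = v := by
  obtain ⟨_, h0, _, _⟩ := h.loser_struct hB hwP hwB hneg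
  obtain ⟨_, _, ⟨r, hrv, hr⟩, _⟩ := h.loser_struct hB hvP hvB hneg'
  by_contra hne
  have hrw : r ∉ w := fun hh => hne (hr w (h.PJ hwP) hwB hh)
  obtain ⟨g, hg, hsub, hrg⟩ := (mem_iff h0 r).1 (Finset.mem_sdiff.2 ⟨hvB hrv, hrw⟩)
  rw [hr g hg (hsub.trans Finset.sdiff_subset) hrg] at hsub
  exact (Finset.mem_sdiff.1 (hsub hzv)).2 hzw

/-- Forced points are paid for. -/
theorem HF.forced_le (h : HF J P) (hB : B ∈ unions J) (hvP : v ∈ P) (hvB : v ⊆ B)
    (hF : (Fo J B v).Nonempty) : uu J B v * ((Fo J B v).card : ℤ) ≤ bb J B v := by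
  have h1 := bM_forced4 (M := Tr J B v) (C := v) (fun S S' => Tr_union S S') (Tr_top hB hvB)
    (h.four v hvP) (by rw [← Fo_eq]; exact hF)
  rw [← Fo_eq, ← bb_eq] at h1
  exact h1

/-- Needy members are losers. -/
lemma Nd.neg (h : Nd J B w) : bb J B w < 0 := by
  unfold Nd at h
  have : (0 : ℤ) ≤ ((sg J B w).card : ℤ) := by positivity
  linarith

/-- The structure of needy members. -/
theorem HF.needy_struct (h : HF J P) (hB : B ∈ unions J) (hwP : w ∈ P) (hwB : w ⊆ B)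
    (hn : Nd J B w) :
    w.card = 4 ∧ ((∃ r r', r ≠ r' ∧ Priv J B w r ∧ Priv J B w r') ∨
      ∃ r, Priv J B w r ∧ ∀ T, T ⊆ w.erase r → (B \ w) ∪ T ∈ unions J) := by
  have hneg' : bM (Tr J B w) w + ((sM (Tr J B w) w).card : ℤ) < 0 := by
    rw [← bb_eq, ← sg_eq]
    exact hn
  obtain ⟨hc, h0, hor⟩ :=
    bM_needy (fun S S' => Tr_union S S') (Tr_top hB hwB) (h.four w hwP) hneg'
  have h0' : B \ w ∈ unions J := by
    unfold Tr at h0
    rwa [Finset.union_empty] at h0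
  have hc3 : 3 ≤ w.card := by omega
  refine ⟨hc, ?_⟩
  rcases hor with ⟨r, r', hne, hr, hr'⟩ | ⟨r, hr, hT⟩
  · exact Or.inl ⟨r, r', hne, h.priv hwP hwB h0' hc3 hr, h.priv hwP hwB h0' hc3 hr'⟩
  · exact Or.inr ⟨r, h.priv hwP hwB h0' hc3 hr, fun T hs => hT T hs⟩

lemma HF.res_nonneg (h : HF J P) (hB : B ∈ unions J) (hvP : v ∈ P) (hvB : v ⊆ B) :
    0 ≤ res J P B v := by
  unfold res
  split_ifs with hneg
  · exact le_refl _
  · push Not at hneg
    have hsub : CP J P B v ⊆ Fo J B v := fun p hp => (mem_CP.1 hp).1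
    have hcard : ((CP J P B v).card : ℤ) ≤ ((Fo J B v).card : ℤ) := by
      exact_mod_cast Finset.card_le_card hsub
    have hu : 0 ≤ uu J B v := by
      unfold uu
      split_ifs <;> norm_num
    by_cases hF : (Fo J B v).Nonempty
    · have h1 := h.forced_le hB hvP hvB hF
      have h2 := mul_le_mul_of_nonneg_left hcard hu
      linarith
    · rw [Finset.not_nonempty_iff_eq_empty] at hF
      rw [hF, Finset.card_empty] at hcard
      have h2 := mul_le_mul_of_nonneg_left hcard hu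
      push_cast at h2
      linarith

end Pool.Agent.H83.F4
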