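import Pool.Agent.H83.F4.Ctx
import Pool.Agent.H83.F4.Abs2
import Pool.Agent.H27.F4.PG

/-!
# Theorem FOUR (MP_75f39d): pairs of members of a group

`X = B' ∪ a ∪ b`, `M = Tr J X a` resp. `Tr J X b` (`bb_eq`, `Fo_eq` translate to `bM`, `FoM` of Abs, Abs2). PROOFS
(cite the statements of Ctx, Loc, Abs2).
* `pair_good`: `X \ a`, `X \ b` are no members (`no_empty`, for `b` with the roles of `a`, `b` exchanged: `B' ∪ a ∪ b = B' ∪ b ∪ a`), so both
  values are `≥ 0` (`bM_nonneg4`). Suppose both are `≤ 0`. `bM_zero4` for `a`: a trace-private `r ∈ a`, no forced points, every trace contains a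
  single: apply it to `τ = a ∩ b` (`tau`): `{p}` with `p ∈ a ∩ b` is a trace, by `min` `a ∩ b = {p}`, so `a ∩ b = {x}`. `r` is in no other generator
  inside `X`: `g ∋ r`, `g ≠ a`: if `g ∈ P`: `(B' ∪ b) ∪ g` has the trace `{x} ∪ (g ∩ a)`, which contains `r`, so it is `a`: but it has at most
  three points; if `g ∉ P`: by `in_P` all of `g ∩ a ∋ r` is forced (`mem_Fo'`), but there are no forced points. `r ≠ x` (`{x}` is a trace and
  `{x} ≠ a`), so `r ∉ b`; so every `A` with `A ∪ b = X` contains `r`, hence `a`, hence `x`: `x ∈ Fo J X b` and `0 < bb J X b` (`forced_le`).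
* `pair_semi`: `single` for `b` (roles exchanged): `r ∈ a`, `a ∩ b = {x, r}`, all `T ⊆ b.erase r` are traces at `(B' ∪ b, b)`. `bM_semi4` for
  `M = Tr J X b`: `{x, r}` is the trace of `B' ∪ a`; `{x}`, `{r}` are no traces by `min` (roles exchanged); `{x, r} ∪ T` is the trace of
  `(B' ∪ a) ∪ ((B' \ {x}) ∪ T)`; the empty set is no trace (`no_empty`).
* `twin_pt`: `single` twice; `a ∩ b = {x, r} = {x, r'}` gives `r = r'`.
* `twin_tr`: `X \ b = (B' \ {x}) ∪ (a \ b)`, `a \ b ⊆ a.erase r`; union of `(B' \ {x}) ∪ (a \ b)` and `(B' \ {x}) ∪ T`.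
* `twin_nonneg`: `bM_twin4` with `twin_tr` and the trace `{x, r}` of `B' ∪ a`; for `a` exchange the roles.
* `twin_two`: `A ∈ unions J`, `A ∪ v = X`, `x ∉ A` (`mem_Fo'`; `v ⊆ B'`); `r ∉ v` so `r ∈ A`; a generator `g ⊆ A` with `r`, `x ∉ g`, so `g ≠ a`, `g ≠ b`. `g` is not
  inside `B' ∪ a` (`r` private there), so it has a point `p ∈ b`, `p ∉ B' ∪ a`, so `p ≠ x, r`. `X \ b ∈ unions J` (`twin_tr` with `T = ∅`), so `g ∈ P`
  (else `g ⊆ X \ b` by `in_P`), `(g ∩ b).card ≤ 2`, `g ∩ b = {p, r}`, `(X \ b) ∪ {p, r} = (X \ b) ∪ g`. `{r}` is no trace: `(X \ b) ∪ {r} = (B' ∪ a) \ {x}`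
  would contain a generator inside `B' ∪ a` with `r` without `x`. `bM_twin4'`.
* `twin_third`: if `c ≠ a, b`: `c ∩ a = {x, r} = c ∩ b` (at most two points), so `c ⊆ B' ∪ {r} ⊆ B' ∪ a`, `hpr` gives `c = a`.
-/

set_option autoImplicit false

namespace Pool.Agent.H83.F4

open Finset Pool.Agent.H97.GEN Pool.Agent.H83.ELZ Pool.Agent.H97.R3

variable {α : Type*} [DecidableEq α] {J P : Finset (Finset α)} {B' v a b : Finset α} {x : α}

/-- Both have a private point outside the other: not both values are zero. -/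
theorem InW.pair_good (hF : HF J P) (ha : InW J P B' x v a) (hb : InW J P B' x v b) (hab : a ≠ b)
    (ho : Out J B' a b) (ho' : Out J B' b a) :
    0 < bb J (B' ∪ a ∪ b) a ∨ 0 < bb J (B' ∪ a ∪ b) b :=
  InW.pair_good' hF ha hb hab ho ho'


/-- `X` without `b`. -/
lemma InW.X_sdiff (hb : InW J P B' x v b) : (B' ∪ a ∪ b) \ b = (B' \ {x}) ∪ (a \ b) := by
  have h1 : ∀ z, z ∈ b → z ∈ B' → z = x := by
    intro z hz hz'
    have : z ∈ b ∩ B' := Finset.mem_inter.2 ⟨hz, hz'⟩
    rw [hb.2.2.1] at this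
    exact Finset.mem_singleton.1 this
  have h2 := hb.x_mem
  ext z
  simp only [Finset.mem_sdiff, Finset.mem_union, Finset.mem_singleton]
  constructor
  · rintro ⟨(h | h) | h, h'⟩
    · exact Or.inl ⟨h, fun hz => h' (hz ▸ h2.1)⟩
    · exact Or.inr ⟨h, h'⟩
    · exact absurd h h'
  · rintro (⟨h, h'⟩ | ⟨h, h'⟩)
    · exact ⟨Or.inl (Or.inl h), fun hz => h' (h1 z hz h)⟩
    · exact ⟨Or.inl (Or.inr h), h'⟩

lemma X_swap : B' ∪ b ∪ a = B' ∪ a ∪ b := by
  ext z
  simp only [Finset.mem_union]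
  tauto

/-- `X` is a member. -/
lemma InW.X_mem (hF : HF J P) (ha : InW J P B' x v a) (hb : InW J P B' x v b) :
    B' ∪ a ∪ b ∈ unions J := by
  have h := union_mem (ha.top_mem hF) (hb.top_mem hF)
  have he : B' ∪ a ∪ (B' ∪ b) = B' ∪ a ∪ b := by
    ext z
    simp only [Finset.mem_union]
    tauto
  rwa [he] at h

lemma pair_eq {r r' : α} (hr : r ≠ x) (h : ({x, r} : Finset α) = {x, r'}) : r = r' := by
  have h1 : r ∈ ({x, r'} : Finset α) := by
    rw [← h]
    simp
  rcases Finset.mem_insert.1 h1 with h2 | h2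
  · exact absurd h2 hr
  · exact Finset.mem_singleton.1 h2

/-- All private points of `b` are in `a`, `a` has one outside `b`. -/
theorem InW.pair_semi (hF : HF J P) (ha : InW J P B' x v a) (hb : InW J P B' x v b) (hab : a ≠ b)
    (ho : ¬ Out J B' a b) (ho' : Out J B' b a) : 0 < bb J (B' ∪ a ∪ b) b := by
  obtain ⟨r, hrx, hra, hpr, hrab, hT⟩ := InW.single hF hb ha hab.symm ho
  have hxb := hb.x_mem
  have hrb : r ∈ b := hpr.1
  have hXb : b ⊆ B' ∪ a ∪ b := Finset.subset_union_right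
  have hmin : ∀ y, y ∈ b → ∀ y', y' ∈ b → y' ≠ y → b ∩ a = {y, y'} →
      ¬ Tr J (B' ∪ a ∪ b) b {y} := by
    intro y hy y' hy' hyy hba hM
    have h1 : (B' ∪ a ∪ b) \ b ∪ {y} ∪ b = B' ∪ b ∪ a :=
      (union_eq_of_sub hXb (Finset.singleton_subset_iff.2 hy)).trans (X_swap (B' := B') (a := a) (b := b)).symm
    have h2 : ((B' ∪ a ∪ b) \ b ∪ {y}) ∩ b ⊆ b ∩ a := by
      intro z hz
      rw [Finset.mem_inter, Finset.mem_union, Finset.mem_sdiff, Finset.mem_singleton] at hz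
      rcases hz with ⟨h | h, h'⟩
      · exact absurd h' h.2
      · rw [hba, h]
        simp
    have h3 := InW.min hF hb ha ho' hM h1 h2
    have h4 : y' ∈ (B' ∪ a ∪ b) \ b ∪ {y} := h3 (by rw [hba]; simp)
    rw [Finset.mem_union, Finset.mem_sdiff, Finset.mem_singleton] at h4
    rcases h4 with h | h
    · exact h.2 hy'
    · exact hyy h
  rw [bb_eq]
  refine bM_semi4 (r := r) (x := x) (fun S S' => Tr_union S S') (Tr_top (ha.X_mem hF hb) hXb)
    (hb.card hF) ?_ hrb hxb.1 hrx.symm ?_ ?_ ?_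
  · have h := InW.no_empty hF hb ha ho'
    rw [X_swap (B' := B') (a := a) (b := b)] at h
    unfold Tr
    rwa [Finset.union_empty]
  · exact hmin x hxb.1 r hrb hrx hrab
  · refine hmin r hrb x hxb.1 hrx.symm ?_
    rw [hrab, Finset.pair_comm]
  · intro T hTb
    have h1 := union_mem (ha.top_mem hF) (hT T hTb)
    have h2 := InW.tau hF hb ha
    rw [X_swap (B' := B') (a := a) (b := b), hrab] at h2
    unfold Tr
    have h3 : (B' ∪ a ∪ b) \ b ∪ ({x, r} ∪ T) = B' ∪ a ∪ (B' \ {x} ∪ T) := by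
      rw [← Finset.union_assoc, h2]
      ext z
      simp only [Finset.mem_union, Finset.mem_sdiff]
      tauto
    rw [h3]
    exact h1

/-- Twins: the common private point. -/
theorem InW.twin_pt (hF : HF J P) (ha : InW J P B' x v a) (hb : InW J P B' x v b) (hab : a ≠ b)
    (ho : ¬ Out J B' a b) (ho' : ¬ Out J B' b a) :
    ∃ r, r ≠ x ∧ a ∩ b = {x, r} ∧ Priv J (B' ∪ a) a r ∧ Priv J (B' ∪ b) b r ∧
      (∀ T, T ⊆ a.erase r → (B' \ {x}) ∪ T ∈ unions J) ∧
      (∀ T, T ⊆ b.erase r → (B' \ {x}) ∪ T ∈ unions J) := by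
  obtain ⟨r, hrx, hrb, hpr, hrab, hT⟩ := InW.single hF ha hb hab ho'
  obtain ⟨r', hrx', hra', hpr', hrab', hT'⟩ := InW.single hF hb ha hab.symm ho
  have he : r = r' := by
    refine pair_eq hrx ?_
    rw [← hrab, ← hrab', Finset.inter_comm]
  subst he
  exact ⟨r, hrx, hrab, hpr, hpr', hT, hT'⟩

/-- Twins: traces at `X`. -/
theorem InW.twin_tr (hF : HF J P) (ha : InW J P B' x v a) (hb : InW J P B' x v b) (hab : a ≠ b)
    (ho : ¬ Out J B' a b) (ho' : ¬ Out J B' b a) {r : α} (hr : r ≠ x) (hr' : a ∩ b = {x, r})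
    {T : Finset α} (hT : T ⊆ b.erase r) : ((B' ∪ a ∪ b) \ b) ∪ T ∈ unions J := by
  obtain ⟨r₀, hr₀, hab₀, hp, hp', hTa, hTb⟩ := InW.twin_pt hF ha hb hab ho ho'
  have he : r₀ = r := pair_eq hr₀ (by rw [← hab₀, ← hr'])
  subst he
  have hrb : r₀ ∈ b := hp'.1
  have h1 : a \ b ⊆ a.erase r₀ := by
    intro z hz
    rw [Finset.mem_sdiff] at hz
    exact Finset.mem_erase.2 ⟨fun h => hz.2 (h ▸ hrb), hz.1⟩
  have h2 := union_mem (hTa _ h1) (hTb _ hT)
  have h3 : (B' \ {x}) ∪ (a \ b) ∪ ((B' \ {x}) ∪ T) = ((B' ∪ a ∪ b) \ b) ∪ T := by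
    rw [hb.X_sdiff]
    ext z
    simp only [Finset.mem_union]
    tauto
  rwa [h3] at h2

lemma InW.twin_nonneg_aux (hF : HF J P) (ha : InW J P B' x v a) (hb : InW J P B' x v b)
    (hab : a ≠ b) (ho : ¬ Out J B' a b) (ho' : ¬ Out J B' b a) :
    0 ≤ bb J (B' ∪ a ∪ b) b := by
  obtain ⟨r, hr, hrab, hp, hp', hTa, hTb⟩ := InW.twin_pt hF ha hb hab ho ho'
  have hXb : b ⊆ B' ∪ a ∪ b := Finset.subset_union_right
  have hxr : (B' ∪ a) ∩ b = {x, r} := by
    rw [Finset.union_inter_distrib_right, hrab, Finset.inter_comm, hb.2.2.1]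
    ext z
    simp
  rw [bb_eq]
  refine bM_twin4 (r := r) (x := x) (fun S S' => Tr_union S S') (Tr_top (ha.X_mem hF hb) hXb)
    (hb.card hF) hp'.1 hb.x_mem.1 hr.symm ?_ ?_
  · intro T hT
    exact InW.twin_tr hF ha hb hab ho ho' hr hrab hT
  · rw [← hxr]
    exact Tr_inter (ha.top_mem hF) rfl

/-- Twins: the values. -/
theorem InW.twin_nonneg (hF : HF J P) (ha : InW J P B' x v a) (hb : InW J P B' x v b)
    (hab : a ≠ b) (ho : ¬ Out J B' a b) (ho' : ¬ Out J B' b a) :
    0 ≤ bb J (B' ∪ a ∪ b) a ∧ 0 ≤ bb J (B' ∪ a ∪ b) b := by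
  refine ⟨?_, InW.twin_nonneg_aux hF ha hb hab ho ho'⟩
  rw [← X_swap (B' := B') (a := a) (b := b)]
  exact InW.twin_nonneg_aux hF hb ha hab.symm ho' ho

/-- Twins, `x` not forced in `(X, v)`. -/
theorem InW.twin_two (hF : HF J P) (ha : InW J P B' x v a) (hb : InW J P B' x v b)
    (hab : a ≠ b) (ho : ¬ Out J B' a b) (ho' : ¬ Out J B' b a)
    (hx : x ∉ Fo J (B' ∪ a ∪ b) v) :
    2 ≤ bb J (B' ∪ a ∪ b) b ∧ (B' ∪ a ∪ b) \ b ∈ unions J ∧
      ∀ r, r ≠ x → a ∩ b = {x, r} → ((B' ∪ a ∪ b) \ b) ∪ {r} ∉ unions J := by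
  obtain ⟨r, hr, hr', hpra, -, -, -⟩ := ha.twin_pt hF hb hab ho ho'
  have haP : a ∈ P := ha.2.1
  have hbP : b ∈ P := hb.2.1
  have haB : a ∩ B' = {x} := ha.2.2.1
  have hbB : b ∩ B' = {x} := hb.2.2.1
  have hUq := ha.2.2.2.2.2.1
  have hvB : v ⊆ B' := hUq.2.1
  obtain ⟨hxa, hxB⟩ := ha.x_mem
  obtain ⟨hxb, -⟩ := hb.x_mem
  have hrab : r ∈ a ∩ b := by
    rw [hr']
    exact Finset.mem_insert_of_mem (Finset.mem_singleton_self r)
  obtain ⟨hra, hrb⟩ := Finset.mem_inter.1 hrab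
  have hrB : r ∉ B' := fun h => by
    have h1 : r ∈ a ∩ B' := Finset.mem_inter.2 ⟨hra, h⟩
    rw [haB] at h1
    exact hr (Finset.mem_singleton.1 h1)
  -- the member without the point `x`
  have hvX : v ⊆ B' ∪ a ∪ b :=
    hvB.trans (Finset.subset_union_left.trans Finset.subset_union_left)
  have hbX : b ⊆ B' ∪ a ∪ b := Finset.subset_union_right
  have hex : ∃ A ∈ unions J, A ∪ v = B' ∪ a ∪ b ∧ x ∉ A := by
    by_contra hcon
    push Not at hcon
    exact hx ((mem_Fo' hvX).2 ⟨hUq.2.2.1, hcon⟩)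
  obtain ⟨A, hA, hAv, hxA⟩ := hex
  have hrA : r ∈ A := by
    have h1 : r ∈ A ∪ v := by
      rw [hAv]
      exact hbX hrb
    rcases Finset.mem_union.1 h1 with h | h
    · exact h
    · exact absurd (hvB h) hrB
  obtain ⟨g, hgJ, hgA, hrg⟩ := (mem_iff hA r).1 hrA
  have hxg : x ∉ g := fun h => hxA (hgA h)
  have hga : g ≠ a := fun h => hxg (h ▸ hxa)
  have hgb : g ≠ b := fun h => hxg (h ▸ hxb)
  have hgX : g ⊆ B' ∪ a ∪ b := by
    rw [← hAv]
    exact hgA.trans Finset.subset_union_left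
  have hgn : ¬ g ⊆ B' ∪ a := fun h => hga (hpra.2 g hgJ h hrg)
  obtain ⟨p, hpg, hpn⟩ := Finset.not_subset.1 hgn
  have hpb : p ∈ b := by
    rcases Finset.mem_union.1 (hgX hpg) with h | h
    · exact absurd h hpn
    · exact h
  have hpx : p ≠ x := by
    rintro rfl
    exact hpn (Finset.mem_union_left _ hxB)
  have hpr : p ≠ r := by
    rintro rfl
    exact hpn (Finset.mem_union_right _ hra)
  -- the empty trace
  have h0 : (B' ∪ a ∪ b) \ b ∈ unions J := by
    have h1 := ha.twin_tr hF hb hab ho ho' hr hr' (T := ∅) (Finset.empty_subset _)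
    rwa [Finset.union_empty] at h1
  have hXb : ((B' ∪ a ∪ b) \ b) ∪ b = B' ∪ a ∪ b := Finset.sdiff_union_of_subset hbX
  have hgP : g ∈ P := by
    by_contra hgP
    have h1 := hF.in_P hbP hgJ hgX hrg hrb hgP h0 hXb
    exact (Finset.mem_sdiff.1 (h1 hrg)).2 hrb
  have hc2 : (g ∩ b).card ≤ 2 := hF.share b hbP g hgP hgb
  have hgb2 : g ∩ b = {p, r} := by
    symm
    apply Finset.eq_of_subset_of_card_le
    · intro z hz
      rcases Finset.mem_insert.1 hz with h | h
      · rw [h]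
        exact Finset.mem_inter.2 ⟨hpg, hpb⟩
      · rw [Finset.mem_singleton.1 h]
        exact Finset.mem_inter.2 ⟨hrg, hrb⟩
    · rw [Finset.card_pair hpr]
      exact hc2
  have hprM : Tr J (B' ∪ a ∪ b) b {p, r} := by
    unfold Tr
    have h1 := union_mem h0 (self_mem hgJ)
    have h2 : (B' ∪ a ∪ b) \ b ∪ g = (B' ∪ a ∪ b) \ b ∪ {p, r} := by
      rw [← hgb2]
      ext z
      constructor
      · intro hz
        rcases Finset.mem_union.1 hz with h | h
        · exact Finset.mem_union_left _ h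
        · by_cases hzb : z ∈ b
          · exact Finset.mem_union_right _ (Finset.mem_inter.2 ⟨h, hzb⟩)
          · exact Finset.mem_union_left _ (Finset.mem_sdiff.2 ⟨hgX h, hzb⟩)
      · intro hz
        rcases Finset.mem_union.1 hz with h | h
        · exact Finset.mem_union_left _ h
        · exact Finset.mem_union_right _ (Finset.mem_inter.1 h).1
    rwa [h2] at h1
  -- `{r}` is no trace
  have hnr : ((B' ∪ a ∪ b) \ b) ∪ {r} ∉ unions J := by
    intro h
    obtain ⟨g', hg'J, hg's, hrg'⟩ :=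
      (mem_iff h r).1 (Finset.mem_union_right _ (Finset.mem_singleton_self r))
    have hg'a : g' = a := by
      refine hpra.2 g' hg'J (fun z hz => ?_) hrg'
      rcases Finset.mem_union.1 (hg's hz) with h1 | h1
      · obtain ⟨h2, h3⟩ := Finset.mem_sdiff.1 h1
        rcases Finset.mem_union.1 h2 with h4 | h4
        · exact h4
        · exact absurd h4 h3
      · rw [Finset.mem_singleton.1 h1]
        exact Finset.mem_union_right _ hra
    have hxg' : x ∈ g' := by
      rw [hg'a]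
      exact hxa
    rcases Finset.mem_union.1 (hg's hxg') with h1 | h1
    · exact (Finset.mem_sdiff.1 h1).2 hxb
    · exact hr (Finset.mem_singleton.1 h1).symm
  -- `{x, r}` is a trace
  have hBa : B' ∪ a ∈ unions J := ha.top_mem hF
  have hxrM : Tr J (B' ∪ a ∪ b) b {x, r} := by
    have h1 : Tr J (B' ∪ a ∪ b) b ((B' ∪ a) ∩ b) := Tr_inter hBa rfl
    have h2 : (B' ∪ a) ∩ b = {x, r} := by
      ext z
      constructor
      · intro hz
        obtain ⟨h3, h4⟩ := Finset.mem_inter.1 hz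
        rcases Finset.mem_union.1 h3 with h5 | h5
        · have h6 : z ∈ b ∩ B' := Finset.mem_inter.2 ⟨h4, h5⟩
          rw [hbB] at h6
          rw [Finset.mem_singleton.1 h6]
          exact Finset.mem_insert_self _ _
        · rw [← hr']
          exact Finset.mem_inter.2 ⟨h5, h4⟩
      · intro hz
        rw [← hr'] at hz
        obtain ⟨h3, h4⟩ := Finset.mem_inter.1 hz
        exact Finset.mem_inter.2 ⟨Finset.mem_union_right _ h3, h4⟩
    rwa [h2] at h1
  have hX : B' ∪ a ∪ b ∈ unions J := union_mem hBa (self_mem (hF.PJ hbP))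
  refine ⟨?_, h0, ?_⟩
  · rw [bb_eq]
    exact bM_twin4' (fun S S' h h' => Tr_union S S' h h') (Tr_top hX hbX) (hb.card hF) hrb hxb
      (Ne.symm hr) (fun T hT => ha.twin_tr hF hb hab ho ho' hr hr' hT) hxrM hnr hpb hpx hpr hprM
  · intro r1 hr1 hr1'
    have h1 : r1 = r := by
      have h2 : r1 ∈ ({x, r} : Finset α) := by
        rw [← hr', hr1']
        exact Finset.mem_insert_of_mem (Finset.mem_singleton_self r1)
      rcases Finset.mem_insert.1 h2 with h | h
      · exact absurd h hr1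
      · exact Finset.mem_singleton.1 h
    rw [h1]
    exact hnr

/-- Twins: a third member with `x` and the private point inside `X` does not exist. -/
theorem InW.twin_third (hF : HF J P) (ha : InW J P B' x v a) (hb : InW J P B' x v b)
    (hab : a ≠ b) {r : α} (hr : r ≠ x) (hr' : a ∩ b = {x, r}) (hpr : Priv J (B' ∪ a) a r)
    {c : Finset α} (hc : c ∈ P) (hcX : c ⊆ B' ∪ a ∪ b) (hxc : x ∈ c) (hrc : r ∈ c) :
    c = a ∨ c = b := by
  by_cases hcb : c = b
  · exact Or.inr hcb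
  · left
    have hbP : b ∈ P := hb.2.1
    have hxab : x ∈ a ∩ b := by
      rw [hr']
      exact Finset.mem_insert_self _ _
    have hrab : r ∈ a ∩ b := by
      rw [hr']
      exact Finset.mem_insert_of_mem (Finset.mem_singleton_self r)
    have hc2 : (c ∩ b).card ≤ 2 := hF.share b hbP c hc hcb
    have hcb2 : ({x, r} : Finset α) = c ∩ b := by
      apply Finset.eq_of_subset_of_card_le
      · intro z hz
        rcases Finset.mem_insert.1 hz with h | h
        · rw [h]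
          exact Finset.mem_inter.2 ⟨hxc, (Finset.mem_inter.1 hxab).2⟩
        · rw [Finset.mem_singleton.1 h]
          exact Finset.mem_inter.2 ⟨hrc, (Finset.mem_inter.1 hrab).2⟩
      · rw [Finset.card_pair (Ne.symm hr)]
        exact hc2
    refine hpr.2 c (hF.PJ hc) (fun z hz => ?_) hrc
    rcases Finset.mem_union.1 (hcX hz) with h | h
    · exact h
    · have h1 : z ∈ c ∩ b := Finset.mem_inter.2 ⟨hz, h⟩
      rw [← hcb2, ← hr'] at h1
      exact Finset.mem_union_right _ (Finset.mem_inter.1 h1).1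

end Pool.Agent.H83.F4
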