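import Pool.Agent.H83.F4.Pair

/-!
# Theorem FOUR (MP_75f39d): the payer bound, contexts and claims of twins on `(X, b)`
-/

set_option autoImplicit false

namespace Pool.Agent.H83.F4

open Finset Pool.Agent.H97.GEN Pool.Agent.H83.ELZ Pool.Agent.H97.R3

variable {α : Type*} [DecidableEq α] {J P : Finset (Finset α)} {X w : Finset α}

lemma InW.v_unique {B' v v' a : Finset α} {x : α} (h : InW J P B' x v a)
    (h' : InW J P B' x v' a) : v = v' := by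
  obtain ⟨h1, h2, h3, _⟩ := h.2.2.2.2.2.1
  exact h'.2.2.2.2.2.1.2.2.2 v h1 h2 h3

/-- Contexts. -/
theorem HF.dn_le' (h : HF J P) (hpos : 0 < dn J P X w) :
    dn J P X w ≤ 1 ∧ X \ w ∉ unions J ∧ CP J P X w = ∅ ∧ bb J X w = 2 * (w.card : ℤ) - 2 := by
  classical
  have hpos' := hpos
  unfold dn at hpos
  obtain ⟨⟨B', x, v⟩, ht⟩ := Finset.card_pos.1 hpos
  obtain ⟨ht1, ht2, ht3⟩ := Finset.mem_filter.1 ht
  obtain ⟨a, ha⟩ := mem_Cx.1 ht1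
  simp only at ht2 ht3 ha
  subst ht2 ht3
  refine ⟨?_, ?_, ha.down_CP h, ha.down_value h⟩
  · unfold dn
    rw [Finset.card_le_one]
    rintro ⟨B1, x1, v1⟩ h1 ⟨B2, x2, v2⟩ h2
    obtain ⟨h11, h12, h13⟩ := Finset.mem_filter.1 h1
    obtain ⟨h21, h22, h23⟩ := Finset.mem_filter.1 h2
    obtain ⟨a1, ha1⟩ := mem_Cx.1 h11
    obtain ⟨a2, ha2⟩ := mem_Cx.1 h21
    simp only at h12 h13 ha1 h22 h23 ha2
    subst h12 h13 h22
    subst h23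
    have e1 := ha1.down_Fo h
    have e2 := ha2.down_Fo h
    rw [e1] at e2
    have hx : x1 = x2 := by
      by_contra hne
      have h3 : x1 ∈ v2.erase x2 := Finset.mem_erase.2 ⟨hne, ha1.x_v⟩
      rw [← e2] at h3
      exact (Finset.mem_erase.1 h3).1 rfl
    rw [hx]
  · intro hm
    have h1 := ha.down h hm (Finset.sdiff_union_of_subset ha.v_sub)
    have h2 := h.two v ha.v_P
    have h3 : 0 < (v.erase x).card := by
      rw [Finset.card_erase_of_mem ha.x_v]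
      omega
    obtain ⟨z, hz⟩ := Finset.card_pos.1 h3
    exact (Finset.mem_sdiff.1 (h1 hz)).2 (Finset.mem_of_mem_erase hz)

lemma HF.c2_inj (h : HF J P) {B1 B2 v1 v2 a1 a2 b : Finset α} {x : α}
    (ha1 : InW J P B1 x v1 a1) (hb1 : InW J P B1 x v1 b) (hab1 : a1 ≠ b)
    (h12 : ¬ Out J B1 a1 b) (h13 : ¬ Out J B1 b a1) (h14 : x ∉ Fo J (B1 ∪ a1 ∪ b) v1)
    (ha2 : InW J P B2 x v2 a2) (hb2 : InW J P B2 x v2 b) (hab2 : a2 ≠ b)
    (h22 : ¬ Out J B2 a2 b) (h23 : ¬ Out J B2 b a2)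
    (hX : B1 ∪ a1 ∪ b = B2 ∪ a2 ∪ b) : B1 = B2 ∧ v1 = v2 ∧ a1 = a2 := by
  obtain ⟨r1, hr1, hi1, hp1, hq1, _⟩ := InW.twin_pt h ha1 hb1 hab1 h12 h13
  obtain ⟨r2, hr2, hi2, hp2, hq2, _⟩ := InW.twin_pt h ha2 hb2 hab2 h22 h23
  have hr : r1 = r2 := by
    by_contra hne
    apply (InW.twin_two h ha1 hb1 hab1 h12 h13 h14).2.2 r1 hr1 hi1
    rw [hX]
    apply InW.twin_tr h ha2 hb2 hab2 h22 h23 hr2 hi2
    rw [Finset.singleton_subset_iff, Finset.mem_erase]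
    exact ⟨hne, hq1.1⟩
  subst hr
  have haa : a2 = a1 := by
    have ha2X : a2 ⊆ B1 ∪ a1 ∪ b := by
      rw [hX]
      exact Finset.subset_union_right.trans Finset.subset_union_left
    rcases InW.twin_third h ha1 hb1 hab1 hr1 hi1 hp1 ha2.2.1 ha2X ha2.x_mem.1 hp2.1 with h3 | h3
    · exact h3
    · exact absurd h3 hab2
  subst haa
  have hB : B1 = B2 := by
    rw [InW.B'_eq ha1 hb1, InW.B'_eq ha2 hb2, hX]
  subst hB
  exact ⟨rfl, ha1.v_unique ha2, rfl⟩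

/-- Claims of twins on `(X, b)`. -/
theorem HF.c2_le' (h : HF J P) (hpos : 0 < c2 J P X w) :
    2 ≤ bb J X w ∧ X \ w ∈ unions J ∧ c2 J P X w ≤ 4 := by
  classical
  have hpos' := hpos
  unfold c2 at hpos
  obtain ⟨⟨⟨B', x, v⟩, a, b⟩, ho⟩ := Finset.card_pos.1 hpos
  obtain ⟨ho1, ⟨ho2, ho3⟩, ho4, ho5, ho6⟩ := Finset.mem_filter.1 ho
  obtain ⟨ha, hb, hab⟩ := mem_Om.1 ho1
  unfold XX at ho4 ho5
  simp only at ha hb hab ho2 ho3 ho4 ho5 ho6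
  obtain ⟨t1, t2, _⟩ := InW.twin_two h ha hb hab ho2 ho3 ho4
  have hb4 := hb.card h
  rw [ho5, ho6] at t1 t2
  rw [ho6] at hb4
  refine ⟨t1, t2, ?_⟩
  rw [← hb4]
  unfold c2
  apply Finset.card_le_card_of_injOn (fun o => o.1.2.1)
  · rintro ⟨⟨B1, x1, v1⟩, a1, b1⟩ h1
    obtain ⟨h11, -, -, -, h15⟩ := Finset.mem_filter.1 h1
    obtain ⟨_, hb1, _⟩ := mem_Om.1 h11
    simp only at hb1 h15
    rw [h15] at hb1
    exact hb1.x_mem.1
  · rintro ⟨⟨B1, x1, v1⟩, a1, b1⟩ h1 ⟨⟨B2, x2, v2⟩, a2, b2⟩ h2 hx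
    obtain ⟨h11, ⟨h12, h13⟩, h14, h15, h16⟩ := Finset.mem_filter.1 h1
    obtain ⟨h21, ⟨h22, h23⟩, h24, h25, h26⟩ := Finset.mem_filter.1 h2
    obtain ⟨ha1, hb1, hab1⟩ := mem_Om.1 h11
    obtain ⟨ha2, hb2, hab2⟩ := mem_Om.1 h21
    unfold XX at h14 h15 h24 h25
    simp only at ha1 hb1 hab1 h12 h13 h14 h15 h16 ha2 hb2 hab2 h22 h23 h24 h25 h26 hx
    rw [h16] at hb1 hab1 h12 h13 h14 h15
    rw [h26] at hb2 hab2 h22 h23 h24 h25
    rw [← hx] at ha2 hb2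
    obtain ⟨e1, e2, e3⟩ := h.c2_inj ha1 hb1 hab1 h12 h13 h14 ha2 hb2 hab2 h22 h23
      (h15.trans h25.symm)
    rw [e1, e2, e3, h16, h26, hx]

end Pool.Agent.H83.F4
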