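import Pool.Agent.H83.F4.Pay2

/-!
# Theorem FOUR (MP_75f39d): the payer bound, claims of the first kind (helper93)
-/

set_option autoImplicit false

namespace Pool.Agent.H83.F4

open Finset Pool.Agent.H97.GEN Pool.Agent.H83.ELZ Pool.Agent.H97.R3

variable {α : Type*} [DecidableEq α] {J P : Finset (Finset α)} {X w : Finset α}

lemma mem_cG' {o : (Finset α × α × Finset α) × Finset α × Finset α} :
    (open scoped Classical in o ∈ (Om J P).filter fun o => KG J o ∧ XX o = X ∧ o.2.1 = w) ↔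
      (InW J P o.1.1 o.1.2.1 o.1.2.2 o.2.1 ∧ InW J P o.1.1 o.1.2.1 o.1.2.2 o.2.2 ∧
        o.2.1 ≠ o.2.2) ∧ KG J o ∧ XX o = X ∧ o.2.1 = w := by
  classical
  rw [Finset.mem_filter, mem_Om]

/-- The common points of `a` and `B' ∪ b` are those of `a ∩ b`. -/
lemma InW.mem_b' {B' v a b : Finset α} {x p : α} (ha : InW J P B' x v a)
    (hb : InW J P B' x v b) (hpa : p ∈ a) (hp : p ∈ B' ∪ b) : p ∈ a ∩ b := by
  rcases Finset.mem_union.1 hp with h1 | h1
  · have : p = x := (ha.mem_iff_x h1).1 hpa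
    rw [this]
    exact Finset.mem_inter.2 ⟨ha.x_mem.1, hb.x_mem.1⟩
  · exact Finset.mem_inter.2 ⟨hpa, h1⟩

/-- Claims of the first kind inject into the minimal traces (with a point). -/
theorem HF.cG_le' (h : HF J P) (hpos : 0 < cG J P X w) :
    w.card = 4 ∧ X \ w ∉ unions J ∧ 0 < bb J X w ∧ CP J P X w = ∅ ∧ dn J P X w = 0 ∧
      c2 J P X w = 0 ∧ cG J P X w ≤ (gM (Tr J X w) w).card := by
  classical
  obtain ⟨o, ho⟩ := Finset.card_pos.1 hpos
  obtain ⟨⟨ha, hb, hab⟩, ⟨hout, hbb⟩, hX, hw⟩ := mem_cG'.1 ho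
  obtain ⟨⟨B', x, v⟩, a, b⟩ := o
  dsimp only at ha hb hab hout hbb hX hw
  have hX' : B' ∪ a ∪ b = X := hX
  have hBa : B' ∪ a ∈ unions J := ha.top_mem h
  have hBb : B' ∪ b ∈ unions J := hb.top_mem h
  subst hw
  subst hX'
  have hXm : B' ∪ a ∪ b ∈ unions J := union_mem hBa (self_mem (h.PJ hb.2.1))
  have haX : a ⊆ B' ∪ a ∪ b := Finset.subset_union_right.trans Finset.subset_union_left
  have hbX : b ⊆ B' ∪ a ∪ b := Finset.subset_union_right
  have hcard : a.card = 4 := ha.card h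
  have hshare : (a ∩ b).card ≤ 2 := h.share b hb.2.1 a ha.2.1 hab
  have hno : (B' ∪ a ∪ b) \ a ∉ unions J := InW.no_empty h ha hb hout
  have hunion : (B' ∪ b) ∪ a = B' ∪ a ∪ b := by
    ext z
    simp only [Finset.mem_union]
    tauto
  have hsw : B' ∪ b ∪ a = B' ∪ a ∪ b := hunion
  refine ⟨hcard, hno, hbb, ?_, ?_, ?_, ?_⟩
  · rw [Finset.eq_empty_iff_forall_notMem]
    intro p hp
    obtain ⟨hpF, w', hw'P, hw'X, hneg, haw⟩ := mem_CP.1 hp
    obtain ⟨hpa, hpA⟩ := (mem_Fo' haX).1 hpF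
    have hpab := InW.mem_b' ha hb hpa (hpA _ hBb hunion)
    have hpb := (Finset.mem_inter.1 hpab).2
    have hpw' : p ∈ w' := by
      have : p ∈ a ∩ w' := by
        rw [haw]
        exact Finset.mem_singleton_self p
      exact (Finset.mem_inter.1 this).2
    rcases InW.loser_eq h ha hb hw'P hw'X hneg hpw' hpa hpb with rfl | rfl
    · rw [Finset.inter_self] at haw
      rw [haw, Finset.card_singleton] at hcard
      omega
    · have hxp : x = p := by
        have : x ∈ a ∩ w' := Finset.mem_inter.2 ⟨ha.x_mem.1, hb.x_mem.1⟩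
        rw [haw] at this
        exact Finset.mem_singleton.1 this
      have h0 := (h.loser_struct hXm hw'P hw'X hneg).2.1
      have hpriv : ∃ r, r ≠ x ∧ Priv J (B' ∪ a) a r := by
        rcases ha.needy h with ⟨r, _, _, h1, _, h2, _⟩ | ⟨r, h1, h2, _⟩
        · exact ⟨r, h1, h2⟩
        · exact ⟨r, h1, h2⟩
      obtain ⟨r, hrx, hr⟩ := hpriv
      have hout' : Out J B' w' a := by
        refine ⟨r, hr, fun hrb => ?_⟩
        have : r ∈ a ∩ w' := Finset.mem_inter.2 ⟨hr.1, hrb⟩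
        rw [haw, ← hxp] at this
        exact hrx (Finset.mem_singleton.1 this)
      have h1 := InW.no_empty h hb ha hout'
      rw [hsw] at h1
      exact h1 h0
  · unfold dn
    rw [Finset.card_eq_zero, Finset.eq_empty_iff_forall_notMem]
    intro t ht
    obtain ⟨ht1, ht2, ht3⟩ := Finset.mem_filter.1 ht
    obtain ⟨w', hw'⟩ := mem_Cx.1 ht1
    obtain ⟨t1, x', t2⟩ := t
    dsimp only at ht2 ht3 hw'
    subst ht2
    subst ht3
    have h1 := hw'.down h hBb hunion
    have h2 : t2.erase x' ⊆ t2 ∩ b := by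
      intro z hz
      exact InW.mem_b' ha hb (Finset.mem_of_mem_erase hz) (h1 hz)
    have h3 := Finset.card_le_card h2
    have h4 := Finset.pred_card_le_card_erase (a := x') (s := t2)
    omega
  · by_contra hc
    exact hno (h.c2_le' (Nat.pos_of_ne_zero hc)).2.1
  · unfold cG
    apply Finset.card_le_card_of_injOn (fun o => (o.1.2.1, o.2.1 ∩ o.2.2))
    · intro o ho
      obtain ⟨⟨ha', hb', hab'⟩, ⟨hout', _⟩, hXo, hwo⟩ := mem_cG'.1 (Finset.mem_coe.1 ho)
      obtain ⟨⟨C, y, u⟩, a', b'⟩ := o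
      dsimp only at ha' hb' hab' hout' hXo hwo
      have hXo' : C ∪ a' ∪ b' = B' ∪ a ∪ b := hXo
      subst hwo
      rw [Finset.mem_coe]
      unfold gM
      rw [Finset.mem_filter, Finset.mem_product, Finset.mem_powerset]
      refine ⟨⟨ha'.x_mem.1, Finset.inter_subset_left⟩,
        Finset.mem_inter.2 ⟨ha'.x_mem.1, hb'.x_mem.1⟩, h.share b' hb'.2.1 a' ha'.2.1 hab', ?_, ?_⟩
      · show (B' ∪ a' ∪ b) \ a' ∪ (a' ∩ b') ∈ unions J
        rw [← hXo', InW.tau h ha' hb']
        exact hb'.top_mem h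
      · intro S hS hM
        have hM' : (B' ∪ a' ∪ b) \ a' ∪ S ∈ unions J := hM
        rw [← hXo'] at hM'
        have hSa : S ⊆ a' := hS.1.trans Finset.inter_subset_left
        have haX' : a' ⊆ C ∪ a' ∪ b' :=
          Finset.subset_union_right.trans Finset.subset_union_left
        have h1 := InW.min h ha' hb' hout' hM' (union_eq_of_sub haX' hSa) (by
          intro z hz
          obtain ⟨h2, h3⟩ := Finset.mem_inter.1 hz
          rcases Finset.mem_union.1 h2 with h4 | h4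
          · exact absurd h3 (Finset.mem_sdiff.1 h4).2
          · exact hS.1 h4)
        apply hS.2
        intro z hz
        rcases Finset.mem_union.1 (h1 hz) with h4 | h4
        · exact absurd (Finset.mem_inter.1 hz).1 (Finset.mem_sdiff.1 h4).2
        · exact h4
    · intro o ho o' ho' heq
      obtain ⟨⟨ha1, hb1, hab1⟩, ⟨hout1, _⟩, hX1, hw1⟩ := mem_cG'.1 (Finset.mem_coe.1 ho)
      obtain ⟨⟨ha2, hb2, hab2⟩, ⟨hout2, _⟩, hX2, hw2⟩ := mem_cG'.1 (Finset.mem_coe.1 ho')
      obtain ⟨⟨C, y, u⟩, a1, b1⟩ := o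
      obtain ⟨⟨C', y', u'⟩, a2, b2⟩ := o'
      dsimp only at ha1 hb1 hab1 hout1 hX1 hw1 ha2 hb2 hab2 hout2 hX2 hw2 heq
      have hX1' : C ∪ a1 ∪ b1 = B' ∪ a ∪ b := hX1
      have hX2' : C' ∪ a2 ∪ b2 = B' ∪ a ∪ b := hX2
      subst hw1
      subst hw2
      obtain ⟨hy, hab⟩ := Prod.mk.inj heq
      subst hy
      have e1 : C ∪ b1 = C' ∪ b2 := by
        rw [← InW.tau h ha1 hb1, ← InW.tau h ha2 hb2, hX1', hX2', hab]
      have hb12 : b1 = b2 := by
        apply h.loser_unique (hb1.top_mem h) hb1.2.1 Finset.subset_union_right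
          hb1.2.2.2.1.neg hb2.2.1 _ _ hb1.x_mem.1 hb2.x_mem.1
        · rw [e1]
          exact Finset.subset_union_right
        · rw [e1]
          exact hb2.2.2.2.1.neg
      subst hb12
      have hC : C = C' := by
        have e2 := hb1.sdiff_union
        have e3 := hb2.sdiff_union
        rw [e1] at e2
        exact e2.symm.trans e3
      subst hC
      have hu : u' = u := hb1.2.2.2.2.2.1.2.2.2 u' hb2.2.2.2.2.2.1.1 hb2.2.2.2.2.2.1.2.1
        hb2.2.2.2.2.2.1.2.2.1
      rw [hu]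

end Pool.Agent.H83.F4
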