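import Pool.Agent.H83.F4.Pay1
import Pool.Agent.H83.F4.Pay2
import Pool.Agent.H83.F4.PayG

/-!
# Theorem FOUR (MP_75f39d): the payer bound

Row F4/Pay. PROOFS (cite the statements of Ctx, Pair, Loc, Abs2).
* `cG_le`: a claim `o = ((B', x, v), a, b)`, `a = w`, `X = B' ∪ a ∪ b`. `card`, `no_empty`. `CP = ∅`: `p ∈ Fo J X a` gives `p ∈ a ∩ b` (the trace
  `a ∩ b`, `tau`), a loser `w'` at `X` with `a ∩ w' = {p}`: `loser_eq`: `w' = a` (no: `a ∩ a = a` has four points) or `w' = b`: then
  `a ∩ b = {p} = {x}`; `b` loser, so `X \ b ∈ unions J`; but `a` has a private point (`Nd.neg`, `loser_struct` at `B' ∪ a`), it is not `x` (`v ∋ x`), so it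
  is outside `b`: `no_empty` with the roles exchanged. `dn = 0`: a context `(X, x', a)` gives (`down`) `a.erase x' ⊆ B' ∪ b`, i.e. three points in
  `a ∩ b`, which has at most two. `c2 = 0`: `c2_le` gives `X \ w ∈ unions J`. `cG ≤ card gM`: `o ↦ (x, a ∩ b)`; minimal by `min`; injective:
  `B' ∪ b = (X \ a) ∪ (a ∩ b)`, `b` = the loser there with `x` (`loser_unique`, `Nd.neg`), `B' = ((B' ∪ b) \ b) ∪ {x}`, `v` by `Uq`.
* `c1_le`: a claim `o`, `v = w`, `x ∈ Fo J X v`. `x ∉ CP`: a loser `w'` with `v ∩ w' = {x}` would be `a` or `b` (`loser_eq`), but `twin_nonneg`. At most two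
  claims for each `x` (`card_le_mul_card_image` or so): two claims `o, o'` with the same `X, v, x`, common private points `r, r'`: `X \ {x, r}`,
  `X \ {x, r'}` are in `unions J` (`twin_tr` with `T = b \ a`); if `r ≠ r'` the union `X \ {x}` is in `unions J`, so `x ∉ Fo J X v`; so `r = r'`, and `twin_third`
  gives `a', b' ∈ {a, b}`; `B'` from `B'_eq`. `dn = 0`: a context `(X, x', v)`: `v` is the only generator inside `X` with `x'`; but
  `Fo J (B' ∪ a) v = v`: the union `A` of the other generators inside `B' ∪ a` has `A ∪ v = B' ∪ a`, so `x' ∈ A`.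
* `c2_le`: a claim `o`, `b = w`: `twin_two`. At most one for each `x ∈ w` (`w.card = 4`): `r` is determined by `(X, w)`: `{r}` is no trace, the other
  `{z}` are (`twin_tr`); `a = a'` by `twin_third` (`a' ≠ b`), `B'` by `B'_eq`, `v` by `Uq`.
* `dn_le`: `down`, `down_value`, `down_Fo` (`x` is the point of `w` not in `Fo J X w`), `down_CP`; two contexts `(X, x, w)`, `(X, x', w)` have `x = x'`.
* `cl_le`: if `cG > 0`: `gM_card4`, `c1 ≤ 2 card Fo`; else if `c2 > 0`: `Fo = ∅` (`X \ w ∈ unions J`), so `c1 = 0`, `dn = 0`, `4 ≤ 4 * 2`; else if `c1 > 0`: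
  `forced_le`, `uu ≥ 1`; else `dn`: `8 ≤ 4 (2 card w - 2)`; else `res_nonneg`.
-/

set_option autoImplicit false

namespace Pool.Agent.H83.F4

open Finset Pool.Agent.H97.GEN Pool.Agent.H83.ELZ Pool.Agent.H97.R3

variable {α : Type*} [DecidableEq α] {J P : Finset (Finset α)} {X w : Finset α}

/-- Claims of the first kind inject into the minimal traces (with a point). -/
theorem HF.cG_le (h : HF J P) (hpos : 0 < cG J P X w) :
    w.card = 4 ∧ X \ w ∉ unions J ∧ 0 < bb J X w ∧ CP J P X w = ∅ ∧ dn J P X w = 0 ∧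
      c2 J P X w = 0 ∧ cG J P X w ≤ (gM (Tr J X w) w).card := h.cG_le' hpos

/-- Claims of twins on `(X, v)`. -/
theorem HF.c1_le (h : HF J P) (hpos : 0 < c1 J P X w) :
    dn J P X w = 0 ∧ c1 J P X w ≤ 2 * (Fo J X w \ CP J P X w).card := h.c1_le' hpos

/-- Claims of twins on `(X, b)`. -/
theorem HF.c2_le (h : HF J P) (hpos : 0 < c2 J P X w) :
    2 ≤ bb J X w ∧ X \ w ∈ unions J ∧ c2 J P X w ≤ 4 := h.c2_le' hpos

/-- Contexts. -/
theorem HF.dn_le (h : HF J P) (hpos : 0 < dn J P X w) :
    dn J P X w ≤ 1 ∧ X \ w ∉ unions J ∧ CP J P X w = ∅ ∧ bb J X w = 2 * (w.card : ℤ) - 2 :=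
  h.dn_le' hpos

lemma CP_sub : CP J P X w ⊆ Fo J X w := fun _ hp => (mem_CP.1 hp).1

/-- The value without charges. -/
lemma res_of_empty (hb : 0 ≤ bb J X w) (hc : CP J P X w = ∅) : res J P X w = bb J X w := by
  unfold res
  rw [if_neg (by omega), hc, Finset.card_empty]
  push_cast
  ring

/-- **The payer bound.** -/
theorem HF.cl_le (h : HF J P) (hX : X ∈ unions J) (hw : w ∈ P) (hwX : w ⊆ X) :
    cl J P X w ≤ 4 * res J P X w := by
  classical
  unfold cl
  rcases Nat.eq_zero_or_pos (cG J P X w) with hG | hG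
  · rcases Nat.eq_zero_or_pos (c2 J P X w) with h2 | h2
    · rcases Nat.eq_zero_or_pos (c1 J P X w) with h1 | h1
      · rcases Nat.eq_zero_or_pos (dn J P X w) with h0 | h0
        · rw [hG, h2, h1, h0]
          have := h.res_nonneg hX hw hwX
          push_cast
          linarith
        · obtain ⟨d1, _, d3, d4⟩ := h.dn_le h0
          have hw2 := h.two w hw
          have hw2' : (2 : ℤ) ≤ w.card := by exact_mod_cast hw2
          have d1' : (dn J P X w : ℤ) ≤ 1 := by exact_mod_cast d1
          rw [res_of_empty (by rw [d4]; linarith) d3, hG, h2, h1, d4]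
          push_cast
          linarith
      · obtain ⟨d1, d2⟩ := h.c1_le h1
        have hF : (Fo J X w).Nonempty := by
          have h3 : 0 < (Fo J X w \ CP J P X w).card := by omega
          obtain ⟨p, hp⟩ := Finset.card_pos.1 h3
          exact ⟨p, (Finset.mem_sdiff.1 hp).1⟩
        have h4 := h.forced_le hX hw hwX hF
        have h5 : (Fo J X w \ CP J P X w).card + (CP J P X w).card = (Fo J X w).card :=
          Finset.card_sdiff_add_card_eq_card CP_sub
        have h5' : ((Fo J X w \ CP J P X w).card : ℤ) + (CP J P X w).card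
            = (Fo J X w).card := by exact_mod_cast h5
        have hu : 1 ≤ uu J X w := by
          unfold uu
          split_ifs <;> norm_num
        have hb : 0 ≤ bb J X w := by
          have : (0 : ℤ) ≤ uu J X w * ((Fo J X w).card : ℤ) :=
            mul_nonneg (by omega) (by positivity)
          linarith
        have hr : res J P X w = bb J X w - uu J X w * ((CP J P X w).card : ℤ) := by
          unfold res
          rw [if_neg (by omega)]
        have d2' : (c1 J P X w : ℤ) ≤ 2 * ((Fo J X w \ CP J P X w).card : ℤ) := by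
          exact_mod_cast d2
        have h6 : ((Fo J X w \ CP J P X w).card : ℤ)
            ≤ uu J X w * ((Fo J X w \ CP J P X w).card : ℤ) := by
          have : (0 : ℤ) ≤ ((Fo J X w \ CP J P X w).card : ℤ) := by positivity
          nlinarith
        rw [← h5', mul_add] at h4
        rw [hG, h2, d1, hr]
        have h7 : (0 : ℤ) ≤ ((Fo J X w \ CP J P X w).card : ℤ) := by positivity
        push_cast
        linarith
    · obtain ⟨d1, d2, d3⟩ := h.c2_le h2
      have hF : Fo J X w = ∅ := by
        rw [Finset.eq_empty_iff_forall_notMem]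
        intro p hp
        have h3 := (mem_Fo.1 hp).2 ∅ (Finset.empty_subset _) (by rw [Finset.union_empty]; exact d2)
        exact absurd h3 (Finset.notMem_empty p)
      have hC : CP J P X w = ∅ := Finset.subset_empty.1 (hF ▸ CP_sub)
      have h1 : c1 J P X w = 0 := by
        by_contra hne
        have h3 := (h.c1_le (Nat.pos_of_ne_zero hne)).2
        rw [hF, Finset.empty_sdiff, Finset.card_empty] at h3
        omega
      have h0 : dn J P X w = 0 := by
        by_contra hne
        exact (h.dn_le (Nat.pos_of_ne_zero hne)).2.1 d2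
      have d3' : (c2 J P X w : ℤ) ≤ 4 := by exact_mod_cast d3
      rw [hG, h1, h0, res_of_empty (by linarith) hC]
      push_cast
      linarith
  · obtain ⟨g1, g2, g3, g4, g5, g6, g7⟩ := h.cG_le hG
    have hcap : ((gM (Tr J X w) w).card : ℤ) + ((Fo J X w).card : ℤ) ≤ 2 * bb J X w := by
      rw [bb_eq, Fo_eq]
      apply gM_card4 (fun S S' => Tr_union S S') (Tr_top hX hwX) g1
      · intro hm
        apply g2
        unfold Tr at hm
        rwa [Finset.union_empty] at hm
      · rw [← bb_eq]
        exact g3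
    have h1 : c1 J P X w ≤ 2 * (Fo J X w).card := by
      rcases Nat.eq_zero_or_pos (c1 J P X w) with h1 | h1
      · omega
      · have := (h.c1_le h1).2
        rw [g4, Finset.sdiff_empty] at this
        exact this
    have h1' : (c1 J P X w : ℤ) ≤ 2 * ((Fo J X w).card : ℤ) := by exact_mod_cast h1
    have g7' : (cG J P X w : ℤ) ≤ ((gM (Tr J X w) w).card : ℤ) := by exact_mod_cast g7
    rw [g5, g6, res_of_empty g3.le g4]
    push_cast
    linarith

end Pool.Agent.H83.F4
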