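import Pool.Agent.H83.F4.Pair

/-!
# Theorem FOUR (MP_75f39d): the payer bound, claims of twins on `(X, v)`

Row F4/Pay1: `HF.c1_le` of `Pool/Agent/H83/F4/Pay.lean`.
-/

set_option autoImplicit false

namespace Pool.Agent.H83.F4

open Finset Pool.Agent.H97.GEN Pool.Agent.H83.ELZ Pool.Agent.H97.R3

variable {α : Type*} [DecidableEq α] {J P : Finset (Finset α)} {X w : Finset α}

/-- Twins: `X` without the two common points. -/
private lemma F4P1_two (hF : HF J P) {B' v a b : Finset α} {x : α} (ha : InW J P B' x v a)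
    (hb : InW J P B' x v b) (hab : a ≠ b) (ho : ¬ Out J B' a b) (ho' : ¬ Out J B' b a) {r : α}
    (hr : r ≠ x) (hr' : a ∩ b = {x, r}) : (B' ∪ a ∪ b) \ {x, r} ∈ unions J := by
  have hra : r ∈ a := by
    have h1 : r ∈ a ∩ b := by
      rw [hr']
      exact Finset.mem_insert_of_mem (Finset.mem_singleton_self r)
    exact (Finset.mem_inter.1 h1).1
  have hT : b \ a ⊆ b.erase r := by
    intro z hz
    rw [Finset.mem_sdiff] at hz
    rw [Finset.mem_erase]
    refine ⟨?_, hz.1⟩
    rintro rfl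
    exact hz.2 hra
  have h1 := InW.twin_tr hF ha hb hab ho ho' hr hr' hT
  have h2 : ((B' ∪ a ∪ b) \ b) ∪ (b \ a) = (B' ∪ a ∪ b) \ {x, r} := by
    rw [← hr']
    ext z
    simp only [Finset.mem_union, Finset.mem_sdiff, Finset.mem_inter]
    tauto
  rwa [h2] at h1

/-- Two claims with the same `X`, `v`, `x`. -/
private lemma F4P1_key (hF : HF J P) {B' B1 v a b a' b' : Finset α} {x : α}
    (ha : InW J P B' x v a) (hb : InW J P B' x v b) (hab : a ≠ b) (ho : ¬ Out J B' a b)
    (ho' : ¬ Out J B' b a) (ha' : InW J P B1 x v a') (hb' : InW J P B1 x v b')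
    (hab' : a' ≠ b') (h1 : ¬ Out J B1 a' b') (h1' : ¬ Out J B1 b' a')
    (hX : B1 ∪ a' ∪ b' = B' ∪ a ∪ b) (hx : x ∈ Fo J (B' ∪ a ∪ b) v) :
    B1 = B' ∧ (a' = a ∧ b' = b ∨ a' = b ∧ b' = a) := by
  obtain ⟨r, hr, hr', hpa, -, -, -⟩ := InW.twin_pt hF ha hb hab ho ho'
  obtain ⟨s, hs, hs', -, -, -, -⟩ := InW.twin_pt hF ha' hb' hab' h1 h1'
  have hvB : v ⊆ B' := ha.2.2.2.2.2.1.2.1
  have hxv : x ∈ v := ha.2.2.2.2.2.1.2.2.1
  have hvX : v ⊆ B' ∪ a ∪ b := by
    intro z hz
    exact Finset.mem_union_left _ (Finset.mem_union_left _ (hvB hz))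
  have hrs : s = r := by
    by_contra hne
    have h2 := F4P1_two hF ha hb hab ho ho' hr hr'
    have h3 := F4P1_two hF ha' hb' hab' h1 h1' hs hs'
    rw [hX] at h3
    have h4 := union_mem h2 h3
    have h5 : ((B' ∪ a ∪ b) \ {x, r}) ∪ ((B' ∪ a ∪ b) \ {x, s}) ∪ v = B' ∪ a ∪ b := by
      apply Finset.Subset.antisymm
      · refine Finset.union_subset (Finset.union_subset ?_ ?_) hvX
        · exact Finset.sdiff_subset
        · exact Finset.sdiff_subset
      · intro z hz
        by_cases hzx : z = x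
        · rw [hzx]
          exact Finset.mem_union_right _ hxv
        · apply Finset.mem_union_left
          by_cases hzr : z = r
          · apply Finset.mem_union_right
            rw [Finset.mem_sdiff]
            refine ⟨hz, ?_⟩
            rw [Finset.mem_insert, Finset.mem_singleton]
            rintro (h6 | h6)
            · exact hzx h6
            · exact hne (h6.symm.trans hzr)
          · apply Finset.mem_union_left
            rw [Finset.mem_sdiff]
            refine ⟨hz, ?_⟩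
            rw [Finset.mem_insert, Finset.mem_singleton]
            rintro (h6 | h6)
            · exact hzx h6
            · exact hzr h6
    have h6 := ((mem_Fo' hvX).1 hx).2 _ h4 h5
    rcases Finset.mem_union.1 h6 with h7 | h7
    · exact (Finset.mem_sdiff.1 h7).2 (Finset.mem_insert_self _ _)
    · exact (Finset.mem_sdiff.1 h7).2 (Finset.mem_insert_self _ _)
  subst hrs
  have hsI : s ∈ a' ∩ b' := by
    rw [hs']
    exact Finset.mem_insert_of_mem (Finset.mem_singleton_self s)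
  have hxI : x ∈ a' ∩ b' := by
    rw [hs']
    exact Finset.mem_insert_self _ _
  have haX : a' ⊆ B' ∪ a ∪ b := by
    rw [← hX]
    intro z hz
    exact Finset.mem_union_left _ (Finset.mem_union_right _ hz)
  have hbX : b' ⊆ B' ∪ a ∪ b := by
    rw [← hX]
    intro z hz
    exact Finset.mem_union_right _ hz
  have h8 := InW.twin_third hF ha hb hab hr hr' hpa ha'.2.1 haX (Finset.mem_inter.1 hxI).1
    (Finset.mem_inter.1 hsI).1
  have h9 := InW.twin_third hF ha hb hab hr hr' hpa hb'.2.1 hbX (Finset.mem_inter.1 hxI).2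
    (Finset.mem_inter.1 hsI).2
  have h10 : a' = a ∧ b' = b ∨ a' = b ∧ b' = a := by
    rcases h8 with h8 | h8
    · rcases h9 with h9 | h9
      · exact absurd (h8.trans h9.symm) hab'
      · exact Or.inl ⟨h8, h9⟩
    · rcases h9 with h9 | h9
      · exact Or.inr ⟨h8, h9⟩
      · exact absurd (h8.trans h9.symm) hab'
  refine ⟨?_, h10⟩
  have e1 : B1 = (B1 ∪ a' ∪ b') \ ((a' ∪ b').erase x) := InW.B'_eq ha' hb'
  have e2 : B' = (B' ∪ a ∪ b) \ ((a ∪ b).erase x) := InW.B'_eq ha hb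
  have e3 : a' ∪ b' = a ∪ b := by
    rcases h10 with ⟨h11, h12⟩ | ⟨h11, h12⟩
    · rw [h11, h12]
    · rw [h11, h12, Finset.union_comm]
  calc B1 = (B1 ∪ a' ∪ b') \ ((a' ∪ b').erase x) := e1
    _ = (B' ∪ a ∪ b) \ ((a ∪ b).erase x) := by rw [hX, e3]
    _ = B' := e2.symm

/-- The point of a claim is not charged. -/
private lemma F4P1_CP (hF : HF J P) {B' v a b : Finset α} {x : α} (ha : InW J P B' x v a)
    (hb : InW J P B' x v b) (hab : a ≠ b) (ho : ¬ Out J B' a b) (ho' : ¬ Out J B' b a) :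
    x ∉ CP J P (B' ∪ a ∪ b) v := by
  intro hx
  obtain ⟨-, u, huP, huX, hneg, hvu⟩ := mem_CP.1 hx
  have hxu : x ∈ u := by
    have h1 : x ∈ v ∩ u := by
      rw [hvu]
      exact Finset.mem_singleton_self x
    exact (Finset.mem_inter.1 h1).2
  have h2 := InW.twin_nonneg hF ha hb hab ho ho'
  rcases InW.loser_eq hF ha hb huP huX hneg hxu ha.x_mem.1 hb.x_mem.1 with h3 | h3
  · rw [h3] at hneg
    exact absurd h2.1 (not_le.2 hneg)
  · rw [h3] at hneg
    exact absurd h2.2 (not_le.2 hneg)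

/-- No context is paid by `(X, v)`. -/
private lemma F4P1_dn (hF : HF J P) {B' v a : Finset α} {x : α} (ha : InW J P B' x v a)
    (hsub : B' ∪ a ⊆ X) {x' : α} (hU : Uq J X x' v) : False := by
  have hvB : v ⊆ B' := ha.2.2.2.2.2.1.2.1
  have hvB2 : v ⊆ B' ∪ a := by
    intro z hz
    exact Finset.mem_union_left _ (hvB hz)
  have hFo : Fo J (B' ∪ a) v = v := ha.2.2.2.2.2.2
  have htop : B' ∪ a ∈ unions J := InW.top_mem hF ha
  have hx' : x' ∈ Fo J (B' ∪ a) v := by
    rw [hFo]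
    exact hU.2.2.1
  have hA : (K (J.erase v) (B' ∪ a)).sup id ∈ unions J :=
    sup_mem_unions ((K_subset _ _).trans (Finset.erase_subset _ _))
  have hAv : (K (J.erase v) (B' ∪ a)).sup id ∪ v = B' ∪ a := by
    apply Finset.Subset.antisymm
    · exact Finset.union_subset (supK_subset _ _) hvB2
    · intro z hz
      obtain ⟨G, hG, hGs, hzG⟩ := (mem_iff htop z).1 hz
      by_cases hGv : G = v
      · rw [hGv] at hzG
        exact Finset.mem_union_right _ hzG
      · apply Finset.mem_union_left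
        exact mem_sup_id.2 ⟨G, mem_K.2 ⟨Finset.mem_erase.2 ⟨hGv, hG⟩, hGs⟩, hzG⟩
  have h1 := ((mem_Fo' hvB2).1 hx').2 _ hA hAv
  obtain ⟨g, hg, hxg⟩ := mem_sup_id.1 h1
  obtain ⟨hg1, hg2⟩ := mem_K.1 hg
  obtain ⟨hg3, hg4⟩ := Finset.mem_erase.1 hg1
  exact hg3 (hU.2.2.2 g hg4 (hg2.trans hsub) hxg)

/-- Claims of twins on `(X, v)`. -/
theorem HF.c1_le' (h : HF J P) (hpos : 0 < c1 J P X w) :
    dn J P X w = 0 ∧ c1 J P X w ≤ 2 * (Fo J X w \ CP J P X w).card := by
  classical
  constructor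
  · unfold c1 at hpos
    obtain ⟨⟨⟨B', x, v⟩, a, b⟩, ho⟩ := Finset.card_pos.1 hpos
    obtain ⟨hOm, -, -, hX, hv⟩ := Finset.mem_filter.1 ho
    have hOm' := mem_Om.1 hOm
    have hX' : B' ∪ a ∪ b = X := hX
    have hv' : v = w := hv
    subst hv'
    by_contra hne
    unfold dn at hne
    obtain ⟨⟨Y, x', v'⟩, ht⟩ := Finset.card_pos.1 (Nat.pos_of_ne_zero hne)
    obtain ⟨hC, hY, hv1⟩ := Finset.mem_filter.1 ht
    obtain ⟨u, hu⟩ := mem_Cx.1 hC
    have hY' : Y = X := hY
    have hv2 : v' = v := hv1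
    subst hY'
    subst hv2
    have hU : Uq J Y x' v' := hu.2.2.2.2.2.1
    have ha : InW J P B' x v' a := hOm'.1
    refine F4P1_dn h ha ?_ hU
    rw [← hX']
    exact Finset.subset_union_left
  · unfold c1
    refine (Finset.card_le_mul_card_image (f := fun o => o.1.2.1) _ 2 ?_).trans ?_
    · intro x hx
      obtain ⟨o, ho, hox⟩ := Finset.mem_image.1 hx
      obtain ⟨⟨B', x0, v⟩, a, b⟩ := o
      have hx0 : x0 = x := hox
      subst hx0
      obtain ⟨hOm, hTw, hFo, hX, hv⟩ := Finset.mem_filter.1 ho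
      have hv' : v = w := hv
      subst hv'
      have hX' : B' ∪ a ∪ b = X := hX
      have hFo' : x0 ∈ Fo J (B' ∪ a ∪ b) v := hFo
      obtain ⟨ha, hb, hab⟩ := mem_Om.1 hOm
      refine (Finset.card_le_card (t := {((B', x0, v), a, b), ((B', x0, v), b, a)}) ?_).trans
        Finset.card_le_two
      intro o' ho'
      obtain ⟨ho1, ho2⟩ := Finset.mem_filter.1 ho'
      obtain ⟨⟨B1, x1, v1⟩, a', b'⟩ := o'
      obtain ⟨hOm1, hTw1, hFo1, hX1, hv1⟩ := Finset.mem_filter.1 ho1
      have hx1 : x1 = x0 := ho2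
      have hv1' : v1 = v := hv1
      subst hx1
      subst hv1'
      have hX1' : B1 ∪ a' ∪ b' = X := hX1
      obtain ⟨ha', hb', hab'⟩ := mem_Om.1 hOm1
      obtain ⟨e1, e2⟩ := F4P1_key h ha hb hab hTw.1 hTw.2 ha' hb' hab' hTw1.1 hTw1.2
        (hX1'.trans hX'.symm) hFo'
      rw [Finset.mem_insert, Finset.mem_singleton]
      rcases e2 with ⟨e2, e3⟩ | ⟨e2, e3⟩
      · left
        have f1 : B1 = B' := e1
        have f2 : a' = a := e2
        have f3 : b' = b := e3
        rw [f1, f2, f3]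
      · right
        have f1 : B1 = B' := e1
        have f2 : a' = b := e2
        have f3 : b' = a := e3
        rw [f1, f2, f3]
    · apply Nat.mul_le_mul_left
      apply Finset.card_le_card
      intro x hx
      obtain ⟨o, ho, hox⟩ := Finset.mem_image.1 hx
      obtain ⟨⟨B', x0, v⟩, a, b⟩ := o
      have hx0 : x0 = x := hox
      subst hx0
      obtain ⟨hOm, hTw, hFo, hX, hv⟩ := Finset.mem_filter.1 ho
      have hv' : v = w := hv
      subst hv'
      have hX' : B' ∪ a ∪ b = X := hX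
      have hFo' : x0 ∈ Fo J (B' ∪ a ∪ b) v := hFo
      obtain ⟨ha, hb, hab⟩ := mem_Om.1 hOm
      rw [Finset.mem_sdiff, ← hX']
      exact ⟨hFo', F4P1_CP h ha hb hab hTw.1 hTw.2⟩

end Pool.Agent.H83.F4
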