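import Pool.Agent.H83.F4.Loc

/-!
# Theorem FOUR (MP_75f39d): the sum at `B`

Row F4/Stage. PROOF of `stage1`. Put `Q = P.filter (· ⊆ B)`, `L` = losers in `Q` (`bb < 0`). For a loser `w`
`pay w := ∑ v ∈ Q, uu v * card {p ∈ Fo J B v | v ∩ w = {p}}`.
(a) `∑_{w ∈ L} pay w ≤ ∑_{v ∈ Q} uu v * card (CP v)`: for `v` fixed the sets `{p | p ∈ Fo v, v ∩ w = {p}}` for different losers `w`
are disjoint (`loser_unique`) and inside `CP v`.  Losers `v` have `Fo v = ∅` (`B \ v ∈ unions J`), so both sides are sums over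
the non-losers.
(b) for a loser `w`: `- bb w - card (bad w) ≤ pay w`:
 every single `p` has a target `g` (`target_ex`, `target`); the sets of pairs `(v, p)` for different `p` are disjoint; a single `p`
 contributes at least `1`; it contributes at least `2` if it has two targets or a target `v` with `uu v = 2`. If it contributes
 only `1`, it has exactly one target `v`, `Fo J B v = v`. If `w` is needy then `p ∈ bad w`: `InW J P ((B \ w) ∪ {p}) p v w`
 (`(B \ w) ∪ {p} ∪ w = B`, `w ∩ ((B \ w) ∪ {p}) = {p}`). So for needy `w`: `pay w ≥ 2 * card (sg w) - card (bad w) ≥ - bb w - card (bad w)`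
 by `loser_struct`; for other losers `pay w ≥ card (sg w) ≥ - bb w` (not `Nd`).
(c) `ss = ∑_{v ∈ Q \ L} bb v + ∑_{w ∈ L} bb w`, `res v = bb v - uu v * card (CP v)` for non-losers, `0` for losers.
-/

set_option autoImplicit false

namespace Pool.Agent.H83.F4

open Finset Pool.Agent.H97.GEN Pool.Agent.H83.ELZ Pool.Agent.H97.R3

variable {α : Type*} [DecidableEq α] {J P : Finset (Finset α)} {B : Finset α}

lemma uu_pos {v : Finset α} : 1 ≤ uu J B v := by
  unfold uu
  split_ifs <;> norm_num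

/-- The points of `v` that pay for `w`. -/
def Ev (J : Finset (Finset α)) (B v w : Finset α) : Finset α :=
  (Fo J B v).filter fun p => v ∩ w = {p}

lemma mem_Ev {v w : Finset α} {p : α} : p ∈ Ev J B v w ↔ p ∈ Fo J B v ∧ v ∩ w = {p} :=
  Finset.mem_filter

lemma Ev_mem {v w : Finset α} {p : α} (hp : p ∈ Ev J B v w) : p ∈ v ∧ p ∈ w := by
  have h : p ∈ v ∩ w := by
    rw [(mem_Ev.1 hp).2]
    exact Finset.mem_singleton_self p
  exact Finset.mem_inter.1 h

/-- What the points pay for different losers is different. -/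
lemma HF.sum_Ev (h : HF J P) (hB : B ∈ unions J) (v : Finset α) :
    ∑ w ∈ (P.filter (fun w => w ⊆ B)).filter (fun w => bb J B w < 0), (Ev J B v w).card
      ≤ (CP J P B v).card := by
  classical
  rw [← Finset.card_biUnion]
  · apply Finset.card_le_card
    intro p hp
    obtain ⟨w, hw, hpw⟩ := Finset.mem_biUnion.1 hp
    obtain ⟨hwQ, hneg⟩ := Finset.mem_filter.1 hw
    obtain ⟨hwP, hwB⟩ := Finset.mem_filter.1 hwQ
    exact mem_CP.2 ⟨(mem_Ev.1 hpw).1, w, hwP, hwB, hneg, (mem_Ev.1 hpw).2⟩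
  · intro w hw w' hw' hne
    obtain ⟨hwQ, hneg⟩ := Finset.mem_filter.1 hw
    obtain ⟨hwP, hwB⟩ := Finset.mem_filter.1 hwQ
    obtain ⟨hwQ', hneg'⟩ := Finset.mem_filter.1 hw'
    obtain ⟨hwP', hwB'⟩ := Finset.mem_filter.1 hwQ'
    show Disjoint (Ev J B v w) (Ev J B v w')
    rw [Finset.disjoint_left]
    intro p hp hp'
    exact hne (h.loser_unique hB hwP hwB hneg hwP' hwB' hneg' (Ev_mem hp).2 (Ev_mem hp').2)

/-- What is paid at the point `p` of `w`. -/
def cp (J P : Finset (Finset α)) (B w : Finset α) (p : α) : ℤ :=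
  ∑ v ∈ P.filter (fun w => w ⊆ B), if p ∈ Ev J B v w then uu J B v else 0

lemma sum_cp {w : Finset α} :
    ∑ v ∈ P.filter (fun w => w ⊆ B), uu J B v * ((Ev J B v w).card : ℤ)
      = ∑ p ∈ w, cp J P B w p := by
  unfold cp
  rw [Finset.sum_comm]
  apply Finset.sum_congr rfl
  intro v _
  rw [← Finset.sum_filter, Finset.sum_const, nsmul_eq_mul, mul_comm]
  congr 2
  congr 1
  ext p
  rw [Finset.mem_filter]
  exact ⟨fun hp => ⟨(Ev_mem hp).2, hp⟩, fun hp => hp.2⟩

lemma cp_nonneg {w : Finset α} {p : α} : 0 ≤ cp J P B w p := by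
  unfold cp
  apply Finset.sum_nonneg
  intro v _
  have := uu_pos (J := J) (B := B) (v := v)
  split_ifs
  · omega
  · exact le_refl _

lemma cp_ge {w v : Finset α} {p : α} (hvP : v ∈ P) (hvB : v ⊆ B) (hp : p ∈ Ev J B v w) :
    uu J B v ≤ cp J P B w p := by
  unfold cp
  have h1 : (if p ∈ Ev J B v w then uu J B v else 0) ≤
      ∑ v ∈ P.filter (fun w => w ⊆ B), if p ∈ Ev J B v w then uu J B v else 0 := by
    apply Finset.single_le_sum (f := fun v => if p ∈ Ev J B v w then uu J B v else 0) ?_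
      (Finset.mem_filter.2 ⟨hvP, hvB⟩)
    intro u _
    have := uu_pos (J := J) (B := B) (v := u)
    show (0 : ℤ) ≤ if p ∈ Ev J B u w then uu J B u else 0
    split_ifs
    · omega
    · exact le_refl _
  rw [if_pos hp] at h1
  exact h1

lemma cp_ge2 {w v u : Finset α} {p : α} (hvP : v ∈ P) (hvB : v ⊆ B) (hp : p ∈ Ev J B v w)
    (huP : u ∈ P) (huB : u ⊆ B) (hp' : p ∈ Ev J B u w) (hne : v ≠ u) :
    2 ≤ cp J P B w p := by
  classical
  unfold cp
  have hs : ({v, u} : Finset (Finset α)) ⊆ P.filter (fun w => w ⊆ B) := by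
    intro x hx
    rw [Finset.mem_insert, Finset.mem_singleton] at hx
    rcases hx with rfl | rfl
    · exact Finset.mem_filter.2 ⟨hvP, hvB⟩
    · exact Finset.mem_filter.2 ⟨huP, huB⟩
  have h1 : ∑ v ∈ ({v, u} : Finset (Finset α)), (if p ∈ Ev J B v w then uu J B v else 0) ≤
      ∑ v ∈ P.filter (fun w => w ⊆ B), if p ∈ Ev J B v w then uu J B v else 0 := by
    apply Finset.sum_le_sum_of_subset_of_nonneg hs
    intro u _ _
    have := uu_pos (J := J) (B := B) (v := u)
    split_ifs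
    · omega
    · exact le_refl _
  rw [Finset.sum_pair hne, if_pos hp, if_pos hp'] at h1
  have e1 := uu_pos (J := J) (B := B) (v := v)
  have e2 := uu_pos (J := J) (B := B) (v := u)
  omega

/-- A single gets at least one. -/
lemma HF.cp_one (h : HF J P) (hB : B ∈ unions J) {w : Finset α} (hwP : w ∈ P) (hwB : w ⊆ B)
    (hneg : bb J B w < 0) {p : α} (hp : p ∈ sg J B w) : 1 ≤ cp J P B w p := by
  obtain ⟨g, hg, hpg, hgs⟩ := HF.target_ex hp
  obtain ⟨hgP, hgB, hgw, -, hF⟩ := h.target hB hwP hwB hneg hp hg hpg hgs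
  have h1 := cp_ge (J := J) hgP hgB (mem_Ev.2 ⟨hF, hgw⟩)
  have h2 := uu_pos (J := J) (B := B) (v := g)
  omega

/-- A single of a needy member gets at least two or is bad. -/
lemma HF.cp_two (h : HF J P) (hB : B ∈ unions J) {w : Finset α} (hwP : w ∈ P) (hwB : w ⊆ B)
    (hneg : bb J B w < 0) (hnd : Nd J B w) {p : α} (hp : p ∈ sg J B w) :
    2 - (if p ∈ bad J P B w then 1 else 0) ≤ cp J P B w p := by
  classical
  by_cases h2 : 2 ≤ cp J P B w p
  · split_ifs <;> omega
  · have h1 := h.cp_one hB hwP hwB hneg hp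
    obtain ⟨hpw, hpF⟩ := mem_sg.1 hp
    obtain ⟨v, hv, hpv, hvs⟩ := HF.target_ex hp
    obtain ⟨hvP, hvB, hvw, -, hF⟩ := h.target hB hwP hwB hneg hp hv hpv hvs
    have hEv : p ∈ Ev J B v w := mem_Ev.2 ⟨hF, hvw⟩
    have huu : uu J B v = 1 := by
      have := cp_ge (J := J) hvP hvB hEv
      have := uu_pos (J := J) (B := B) (v := v)
      omega
    have hFo : Fo J B v = v := by
      by_contra hne
      unfold uu at huu
      rw [if_neg hne] at huu
      norm_num at huu
    have hBw : (B \ w) ∪ {p} ∪ w = B := union_eq_of_sub hwB (Finset.singleton_subset_iff.2 hpw)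
    have hbad : p ∈ bad J P B w := by
      refine mem_bad.2 ⟨hpw, v, hpF, hwP, ?_, ?_, hvP, ⟨hv, hvs, hpv, ?_⟩, ?_⟩
      · ext z
        simp only [Finset.mem_inter, Finset.mem_union, Finset.mem_sdiff, Finset.mem_singleton]
        constructor
        · rintro ⟨hz, ⟨_, hz'⟩ | hz'⟩
          · exact absurd hz hz'
          · exact hz'
        · rintro rfl
          exact ⟨hpw, Or.inr rfl⟩
      · rw [hBw]
        exact hnd
      · intro g hg hgs hpg
        by_contra hne
        obtain ⟨hgP, hgB, hgw, -, hF'⟩ := h.target hB hwP hwB hneg hp hg hpg hgs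
        have := cp_ge2 (J := J) hvP hvB hEv hgP hgB (mem_Ev.2 ⟨hF', hgw⟩) (fun e => hne e.symm)
        omega
      · rw [hBw]
        exact hFo
    rw [if_pos hbad]
    omega

/-- What a loser gets. -/
lemma HF.loser_pay (h : HF J P) (hB : B ∈ unions J) {w : Finset α} (hwP : w ∈ P) (hwB : w ⊆ B)
    (hneg : bb J B w < 0) :
    - bb J B w - ((bad J P B w).card : ℤ) ≤
      ∑ v ∈ P.filter (fun w => w ⊆ B), uu J B v * ((Ev J B v w).card : ℤ) := by
  classical
  rw [sum_cp]
  have hsub : sg J B w ⊆ w := fun p hp => (mem_sg.1 hp).1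
  have h1 : ∑ p ∈ sg J B w, cp J P B w p ≤ ∑ p ∈ w, cp J P B w p :=
    Finset.sum_le_sum_of_subset_of_nonneg hsub fun p _ _ => cp_nonneg
  obtain ⟨-, -, -, hst⟩ := h.loser_struct hB hwP hwB hneg
  have hb0 : (0 : ℤ) ≤ ((bad J P B w).card : ℤ) := by positivity
  by_cases hnd : Nd J B w
  · have h2 : ∑ p ∈ sg J B w, ((2 : ℤ) - (if p ∈ bad J P B w then 1 else 0))
        ≤ ∑ p ∈ sg J B w, cp J P B w p :=
      Finset.sum_le_sum fun p hp => h.cp_two hB hwP hwB hneg hnd hp
    rw [Finset.sum_sub_distrib, Finset.sum_const, nsmul_eq_mul, ← Finset.sum_filter,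
      Finset.sum_const, nsmul_eq_mul] at h2
    have h3 : ((sg J B w).filter (fun p => p ∈ bad J P B w)).card ≤ (bad J P B w).card := by
      apply Finset.card_le_card
      intro p hp
      exact (Finset.mem_filter.1 hp).2
    have h4 : (((sg J B w).filter (fun p => p ∈ bad J P B w)).card : ℤ)
        ≤ ((bad J P B w).card : ℤ) := by exact_mod_cast h3
    linarith
  · have h2 : ∑ p ∈ sg J B w, (1 : ℤ) ≤ ∑ p ∈ sg J B w, cp J P B w p :=
      Finset.sum_le_sum fun p hp => h.cp_one hB hwP hwB hneg hp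
    rw [Finset.sum_const, nsmul_eq_mul, mul_one] at h2
    unfold Nd at hnd
    push Not at hnd
    linarith

/-- Losers do not pay. -/
lemma HF.CP_loser (h : HF J P) (hB : B ∈ unions J) {w : Finset α} (hwP : w ∈ P) (hwB : w ⊆ B)
    (hneg : bb J B w < 0) : CP J P B w = ∅ := by
  obtain ⟨-, h0, -, -⟩ := h.loser_struct hB hwP hwB hneg
  rw [Finset.eq_empty_iff_forall_notMem]
  intro p hp
  have hF := (mem_CP.1 hp).1
  have h2 := (mem_Fo.1 hF).2 ∅ (Finset.empty_subset _) (by rw [Finset.union_empty]; exact h0)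
  exact absurd h2 (Finset.notMem_empty p)

theorem HF.stage1 (h : HF J P) (hB : B ∈ unions J) :
    ∑ v ∈ P.filter (fun w => w ⊆ B), res J P B v
      - ∑ w ∈ P.filter (fun w => w ⊆ B), ((bad J P B w).card : ℤ) ≤ ss J P B := by
  classical
  set Q := P.filter (fun w => w ⊆ B) with hQ
  have hmem : ∀ w ∈ Q, w ∈ P ∧ w ⊆ B := fun w hw => Finset.mem_filter.1 hw
  -- the sum over the losers
  have hb : ∑ w ∈ Q.filter (fun w => bb J B w < 0), (- bb J B w - ((bad J P B w).card : ℤ))
      ≤ ∑ w ∈ Q.filter (fun w => bb J B w < 0),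
        ∑ v ∈ Q, uu J B v * ((Ev J B v w).card : ℤ) := by
    apply Finset.sum_le_sum
    intro w hw
    obtain ⟨hwQ, hneg⟩ := Finset.mem_filter.1 hw
    exact h.loser_pay hB (hmem w hwQ).1 (hmem w hwQ).2 hneg
  have ha : ∑ w ∈ Q.filter (fun w => bb J B w < 0),
      ∑ v ∈ Q, uu J B v * ((Ev J B v w).card : ℤ) ≤ ∑ v ∈ Q, uu J B v * ((CP J P B v).card : ℤ) := by
    rw [Finset.sum_comm]
    apply Finset.sum_le_sum
    intro v _
    rw [← Finset.mul_sum]
    have h1 := h.sum_Ev hB v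
    have h2 : ∑ w ∈ Q.filter (fun w => bb J B w < 0), ((Ev J B v w).card : ℤ)
        ≤ ((CP J P B v).card : ℤ) := by exact_mod_cast h1
    have h3 := uu_pos (J := J) (B := B) (v := v)
    exact mul_le_mul_of_nonneg_left h2 (by omega)
  have hc : ∀ v ∈ Q, bb J B v - uu J B v * ((CP J P B v).card : ℤ)
      = res J P B v + (if bb J B v < 0 then bb J B v else 0) := by
    intro v hv
    unfold res
    split_ifs with hn
    · rw [h.CP_loser hB (hmem v hv).1 (hmem v hv).2 hn, Finset.card_empty]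
      push_cast
      ring
    · ring
  have hd : ∑ v ∈ Q, (bb J B v - uu J B v * ((CP J P B v).card : ℤ))
      = ∑ v ∈ Q, res J P B v + ∑ v ∈ Q.filter (fun w => bb J B w < 0), bb J B v := by
    rw [Finset.sum_congr rfl hc, Finset.sum_add_distrib]
    congr 1
    exact (Finset.sum_filter (s := Q) (fun v => bb J B v < 0) (fun v => bb J B v)).symm
  rw [Finset.sum_sub_distrib] at hd hb
  have he : ∑ w ∈ Q.filter (fun w => bb J B w < 0), ((bad J P B w).card : ℤ)
      ≤ ∑ w ∈ Q, ((bad J P B w).card : ℤ) := by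
    apply Finset.sum_le_sum_of_subset_of_nonneg (Finset.filter_subset _ _)
    intro w _ _
    positivity
  rw [Finset.sum_neg_distrib] at hb
  have hss : ss J P B = ∑ w ∈ Q, bb J B w := rfl
  rw [hss]
  linarith

end Pool.Agent.H83.F4
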