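import Pool.Agent.H83.F4.Strict2

/-!
# Theorem FOUR (MP_75f39d): the strict inequality
-/

set_option autoImplicit false

namespace Pool.Agent.H83.F4

open Finset Pool.Agent.H97.GEN Pool.Agent.H83.ELZ Pool.Agent.H97.R3

variable {α : Type*} [DecidableEq α] {J P : Finset (Finset α)}

/-- No pair of members of a group has the smallest union. -/
lemma HF.min_no_pair (h : HF J P) {w u B : Finset α}
    (m : Pool.Agent.H4.F4.MinPair J P w u B)
    {o : (Finset α × α × Finset α) × Finset α × Finset α} (ho : o ∈ Om J P) (hX : XX o = B) :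
    False := by
  obtain ⟨⟨B', x, v⟩, a, b⟩ := o
  obtain ⟨ha, hb, hab⟩ := mem_Om.1 ho
  simp only at ha hb hab
  have hXe : B' ∪ a ∪ b = B := hX
  have h1 := m.min a ha.2.1 v (h.PJ ha.v_P) (ha.v_ne h) ⟨x, ha.x_mem.1, ha.x_v⟩
  have h2 : ¬ b ⊆ B' ∪ a := by
    intro hsub
    have h3 : b ⊆ a ∩ b := by
      intro z hz
      rcases Finset.mem_union.1 (hsub hz) with h4 | h4
      · have h5 : z = x := (hb.mem_iff_x h4).1 hz
        rw [h5]
        exact Finset.mem_inter.2 ⟨ha.x_mem.1, hb.x_mem.1⟩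
      · exact Finset.mem_inter.2 ⟨h4, hz⟩
    have h4 := Finset.card_le_card h3
    have h5 := h.share b hb.2.1 a ha.2.1 hab
    have h6 := hb.card h
    omega
  have h3 : a ∪ v ⊆ B' ∪ a :=
    Finset.union_subset Finset.subset_union_right (ha.v_sub.trans Finset.subset_union_left)
  have h4 : B' ∪ a ⊂ B := by
    rw [← hXe]
    refine Finset.ssubset_iff_subset_ne.2 ⟨Finset.subset_union_left, fun he => h2 ?_⟩
    rw [he]
    exact Finset.subset_union_right
  have h5 := Finset.card_le_card h3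
  have h6 := Finset.card_lt_card h4
  omega

/-- All members of `P` have at least three points: the sum is positive. -/
theorem HF.total_pos (h : HF J P) (h3 : ∀ w ∈ P, 3 ≤ w.card) (hP : P.Nonempty) :
    0 < ∑ B ∈ unions J, ss J P B := by
  classical
  have h' : Pool.Agent.H4.F4.HF J P :=
    { irr := h.irr, PC := h.PC, comp := h.comp, four := h.four,
      two := fun w hw w' hw' hne => h.share w' hw' w hw hne }
  obtain ⟨w, u, B, m⟩ := h'.exists_min hP
  obtain ⟨hwB, hpos⟩ := h'.min_pos h3 m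
  have hBF : B ∈ unions J := by
    rw [m.hB]
    exact union_mem (self_mem (h.PJ m.hw)) (self_mem m.hu)
  have hnl : ∀ w' ∈ P, w' ⊆ B → ¬ bb J B w' < 0 := by
    intro w' hw' hwB' hneg
    obtain ⟨_, h0, _, hs⟩ := h.loser_struct hBF hw' hwB' hneg
    have hc : 0 < (sg J B w').card := by omega
    obtain ⟨p, hp⟩ := Finset.card_pos.1 hc
    obtain ⟨hpw, hpm⟩ := mem_sg.1 hp
    exact h'.min_no_loser h3 m hw' hwB' h0 hpw hpm
  have hCP : CP J P B w = ∅ := by
    rw [Finset.eq_empty_iff_forall_notMem]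
    intro p hp
    obtain ⟨_, w', hw', hwB', hneg, _⟩ := mem_CP.1 hp
    exact hnl w' hw' hwB' hneg
  have hres : res J P B w = bb J B w := by
    unfold res
    rw [if_neg (hnl w m.hw hwB), hCP, Finset.card_empty]
    push_cast
    ring
  have hG : cG J P B w = 0 := by
    unfold cG
    rw [Finset.card_eq_zero, Finset.eq_empty_iff_forall_notMem]
    intro o ho
    obtain ⟨h1, _, h2, _⟩ := Finset.mem_filter.1 ho
    exact h.min_no_pair m h1 h2
  have hc1 : c1 J P B w = 0 := by
    unfold c1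
    rw [Finset.card_eq_zero, Finset.eq_empty_iff_forall_notMem]
    intro o ho
    obtain ⟨h1, _, _, h2, _⟩ := Finset.mem_filter.1 ho
    exact h.min_no_pair m h1 h2
  have hc2 : c2 J P B w = 0 := by
    unfold c2
    rw [Finset.card_eq_zero, Finset.eq_empty_iff_forall_notMem]
    intro o ho
    obtain ⟨h1, _, _, h2, _⟩ := Finset.mem_filter.1 ho
    exact h.min_no_pair m h1 h2
  have hstrict : 0 < 4 * res J P B w - cl J P B w := by
    unfold cl
    rw [hres, hG, hc1, hc2]
    rcases Nat.eq_zero_or_pos (dn J P B w) with hd | hd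
    · rw [hd]
      push_cast
      linarith
    · obtain ⟨hd1, _, _, hd2⟩ := h.dn_le hd
      have hd3 : (dn J P B w : ℤ) ≤ 1 := by exact_mod_cast hd1
      have hd4 : (3 : ℤ) ≤ w.card := by exact_mod_cast h3 w m.hw
      rw [hd2]
      push_cast
      linarith
  have hnn : ∀ B₁ ∈ unions J, ∀ w₁ ∈ P.filter (fun w => w ⊆ B₁),
      0 ≤ 4 * res J P B₁ w₁ - cl J P B₁ w₁ := by
    intro B₁ hB₁ w₁ hw₁
    obtain ⟨h1, h2⟩ := Finset.mem_filter.1 hw₁
    have := h.cl_le hB₁ h1 h2
    linarith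
  have h5 : 0 < ∑ B ∈ unions J, ∑ w ∈ P.filter (fun w => w ⊆ B),
      (4 * res J P B w - cl J P B w) := by
    apply Finset.sum_pos' (fun B₁ hB₁ => Finset.sum_nonneg (hnn B₁ hB₁))
    refine ⟨B, hBF, ?_⟩
    exact Finset.sum_pos' (hnn B hBF) ⟨w, Finset.mem_filter.2 ⟨m.hw, hwB⟩, hstrict⟩
  have h6 := h.total_ge
  linarith

/-- **The theorem for generators.** -/
theorem four_exists_gt (irr : ∀ g ∈ J, g ∉ unions (J.erase g)) (PC : P ⊆ cov J)
    (comp : ∀ w ∈ cov J, ∀ i ∈ P, ∀ z, z ∈ w → z ∈ i → w ∈ P) (four : ∀ w ∈ P, w.card ≤ 4)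
    (share : ∀ w ∈ P, ∀ v ∈ P, v ≠ w → (v ∩ w).card ≤ 2) (hP : P.Nonempty) :
    ∃ z ∈ P.sup id, (unions J).card < 2 * fr (unions J) z :=
  four_exists_gt' irr PC comp four share fun h h3 => h.total_pos h3 hP

end Pool.Agent.H83.F4
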