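import Pool.Agent.H83.F4.Sum
import Pool.Agent.H4.F4.Str

/-!
# Theorem FOUR (MP_75f39d): from the sum to the strict inequality
-/

set_option autoImplicit false

namespace Pool.Agent.H83.F4

open Finset Pool.Agent.H97.GEN Pool.Agent.H83.ELZ Pool.Agent.H97.R3

variable {α : Type*} [DecidableEq α] {J P : Finset (Finset α)}

/-- **The theorem for generators**, from the positive sum. -/
theorem four_exists_gt' (irr : ∀ g ∈ J, g ∉ unions (J.erase g)) (PC : P ⊆ cov J)
    (comp : ∀ w ∈ cov J, ∀ i ∈ P, ∀ z, z ∈ w → z ∈ i → w ∈ P) (four : ∀ w ∈ P, w.card ≤ 4)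
    (share : ∀ w ∈ P, ∀ v ∈ P, v ≠ w → (v ∩ w).card ≤ 2)
    (hpos : HF J P → (∀ w ∈ P, 3 ≤ w.card) → 0 < ∑ B ∈ unions J, ss J P B) :
    ∃ z ∈ P.sup id, (unions J).card < 2 * fr (unions J) z := by
  classical
  by_contra hcon
  push Not at hcon
  have hz : ∀ w ∈ P, ∀ z ∈ w, 2 * fr (unions J) z ≤ (unions J).card := by
    intro w hw z hzw
    exact hcon z (mem_sup_id.2 ⟨w, hw, hzw⟩)
  have h' : Pool.Agent.H4.F4.HF J P :=
    { irr := irr, PC := PC, comp := comp, four := four,
      two := fun w hw w' hw' hne => share w' hw' w hw hne }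
  have h3 : ∀ w ∈ P, 3 ≤ w.card := fun w hw => h'.three_le hz hw
  have h : HF J P :=
    { irr := irr, PC := PC, comp := comp, four := four,
      two := fun w hw => by have := h3 w hw; omega, share := share }
  have h4 := hpos h h3
  rw [← h.total] at h4
  have h5 : ∑ w ∈ P, ∑ z ∈ w, (2 * (fr (unions J) z : ℤ) - (unions J).card) ≤ 0 := by
    apply Finset.sum_nonpos
    intro w hw
    apply Finset.sum_nonpos
    intro z hzw
    have := hz w hw z hzw
    omega
  omega

end Pool.Agent.H83.F4
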