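import Pool.Agent.H83.F4.Pay
import Pool.Agent.H83.F4.Stage

/-!
# Theorem FOUR (MP_75f39d): the total sum

`total_ge`: `stage1` summed, `sum_bad`, `4 n ≤ 8 + n (n - 1)` for every group, `card_Om`, `Om_le`, `Cx_card`.
`Om_le`: the claims of the three kinds, grouped by their payer (`Finset.card_eq_sum_card_fiberwise`), `X ∈ unions J`, the payer is in `P`, inside `X`.
`total`: `sum_points`, `sum_group` as in `HR.total` (`Pool/Agent/H97/R3/Main.lean`).
-/

set_option autoImplicit false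

namespace Pool.Agent.H83.F4

open Finset Pool.Agent.H97.GEN Pool.Agent.H83.ELZ Pool.Agent.H97.R3

variable {α : Type*} [DecidableEq α] {J P : Finset (Finset α)}

private lemma SumA_back {B' w : Finset α} {x : α} (h : w ∩ B' = {x}) : ((B' ∪ w) \ w) ∪ {x} = B' := by
  have hx : x ∈ w ∩ B' := by
    rw [h]
    exact Finset.mem_singleton_self x
  have hx' := Finset.mem_inter.1 hx
  ext z
  simp only [Finset.mem_union, Finset.mem_sdiff, Finset.mem_singleton]
  constructor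
  · rintro (⟨h1 | h1, h2⟩ | rfl)
    · exact h1
    · exact absurd h1 h2
    · exact hx'.2
  · intro hz
    by_cases hw : z ∈ w
    · right
      have : z ∈ w ∩ B' := Finset.mem_inter.2 ⟨hw, hz⟩
      rw [h] at this
      exact Finset.mem_singleton.1 this
    · exact Or.inl ⟨Or.inl hz, hw⟩

private lemma SumA_forth {B w : Finset α} {x : α} (hw : w ⊆ B) (hx : x ∈ w) : ((B \ w) ∪ {x}) ∪ w = B := by
  ext z
  simp only [Finset.mem_union, Finset.mem_sdiff, Finset.mem_singleton]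
  constructor
  · rintro ((⟨h1, _⟩ | rfl) | h1)
    · exact h1
    · exact hw hx
    · exact hw h1
  · intro hz
    by_cases h : z ∈ w
    · exact Or.inr h
    · exact Or.inl (Or.inl ⟨hz, h⟩)

private lemma SumA_uniq {B' w w' v v' : Finset α} {x : α} (h : InW J P B' x v w) (h' : InW J P B' x v' w') :
    v = v' := by
  obtain ⟨h1, h2, h3, h4⟩ := h.2.2.2.2.2.1
  obtain ⟨k1, k2, k3, k4⟩ := h'.2.2.2.2.2.1
  exact k4 v h1 h2 h3

/-- Bad nodes and groups: `(B, w, x) ↔ ((B', x, v), w)`, `B' = (B \ w) ∪ {x}`, `B = B' ∪ w`; `v` is determined (`Uq`). -/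
theorem HF.sum_bad (h : HF J P) :
    ∑ B ∈ unions J, ∑ w ∈ P.filter (fun w => w ⊆ B), (bad J P B w).card
      = ∑ t ∈ Cx J P, (WW J P t).card := by
  classical
  rw [Finset.sum_sigma' (unions J) (fun B => P.filter (fun w => w ⊆ B)) (fun B w => (bad J P B w).card)]
  rw [← Finset.card_sigma (Cx J P) (fun t => WW J P t)]
  rw [← Finset.card_sigma ((unions J).sigma (fun B => P.filter (fun w => w ⊆ B))) (fun q => bad J P q.1 q.2)]
  symm
  refine Finset.card_bij (fun (a : Σ _ : Finset α × α × Finset α, Finset α) _ =>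
    (⟨⟨a.1.1 ∪ a.2, a.2⟩, a.1.2.1⟩ : Σ _ : (Σ _ : Finset α, Finset α), α)) ?_ ?_ ?_
  · rintro ⟨⟨B', x, v⟩, w⟩ ha
    simp only [Finset.mem_sigma, mem_WW] at ha
    have hI : InW J P B' x v w := ha.2
    simp only [Finset.mem_sigma, Finset.mem_filter, mem_bad]
    refine ⟨⟨union_mem hI.1 (self_mem (h.PJ hI.2.1)), hI.2.1, Finset.subset_union_right⟩, hI.x_mem.1, v, ?_⟩
    rw [SumA_back hI.2.2.1]
    exact hI
  · rintro ⟨⟨B', x, v⟩, w⟩ ha ⟨⟨B'', x', v'⟩, w'⟩ ha' he
    simp only [Finset.mem_sigma, mem_WW] at ha ha'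
    have hI : InW J P B' x v w := ha.2
    have hI' : InW J P B'' x' v' w' := ha'.2
    simp only [Sigma.mk.injEq, heq_eq_eq] at he
    obtain ⟨⟨h1, h2⟩, h3⟩ := he
    subst h2
    subst h3
    have h4 : B' = B'' := by
      rw [← SumA_back hI.2.2.1, h1, SumA_back hI'.2.2.1]
    subst h4
    have h5 := SumA_uniq hI hI'
    subst h5
    rfl
  · rintro ⟨⟨B, w⟩, x⟩ hb
    simp only [Finset.mem_sigma, Finset.mem_filter, mem_bad] at hb
    obtain ⟨⟨hB, hw, hwB⟩, hx, v, hI⟩ := hb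
    refine ⟨⟨⟨(B \ w) ∪ {x}, x, v⟩, w⟩, ?_, ?_⟩
    · simp only [Finset.mem_sigma, mem_WW, mem_Cx]
      exact ⟨⟨w, hI⟩, hI⟩
    · simp only [SumA_forth hwB hx]

/-- The number of ordered pairs. -/
theorem card_Om : ((Om J P).card : ℤ) = ∑ t ∈ Cx J P, ((WW J P t).card : ℤ) * ((WW J P t).card - 1) := by
  classical
  have h1 : (Om J P).card = ∑ t ∈ Cx J P, ((Om J P).filter (fun o => o.1 = t)).card := by
    refine Finset.card_eq_sum_card_fiberwise ?_
    intro o ho
    have ho' := mem_Om.1 (Finset.mem_coe.1 ho)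
    exact Finset.mem_coe.2 (mem_Cx.2 ⟨_, ho'.1⟩)
  rw [h1, Nat.cast_sum]
  refine Finset.sum_congr rfl fun t ht => ?_
  have h2 : ((Om J P).filter (fun o => o.1 = t)).card = (WW J P t).offDiag.card := by
    refine Finset.card_bij (fun o _ => o.2) ?_ ?_ ?_
    · rintro ⟨t', a, b⟩ ho
      rw [Finset.mem_filter, mem_Om] at ho
      obtain ⟨⟨h3, h4, h5⟩, h6⟩ := ho
      simp only at h3 h4 h5 h6
      subst h6
      rw [Finset.mem_offDiag]
      exact ⟨mem_WW.2 h3, mem_WW.2 h4, h5⟩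
    · rintro ⟨t', a, b⟩ ho ⟨t'', a', b'⟩ ho' he
      rw [Finset.mem_filter] at ho ho'
      have e1 : t' = t := ho.2
      have e2 : t'' = t := ho'.2
      have e3 : (a, b) = (a', b') := he
      rw [e1, e2, e3]
    · rintro ⟨a, b⟩ hb
      rw [Finset.mem_offDiag] at hb
      refine ⟨(t, a, b), ?_, rfl⟩
      rw [Finset.mem_filter, mem_Om]
      exact ⟨⟨mem_WW.1 hb.1, mem_WW.1 hb.2.1, hb.2.2⟩, rfl⟩
  rw [h2, Finset.offDiag_card]
  have h3 : (WW J P t).card ≤ (WW J P t).card * (WW J P t).card := Nat.le_mul_self _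
  rw [Nat.cast_sub h3, Nat.cast_mul]
  ring

theorem HF.Cx_card (h : HF J P) :
    (Cx J P).card = ∑ B ∈ unions J, ∑ w ∈ P.filter (fun w => w ⊆ B), dn J P B w := by
  classical
  rw [Finset.sum_sigma' (unions J) (fun B => P.filter (fun w => w ⊆ B)) (fun B w => dn J P B w)]
  have h1 : (Cx J P).card = ∑ q ∈ (unions J).sigma (fun B => P.filter (fun w => w ⊆ B)),
      ((Cx J P).filter (fun t => (⟨t.1, t.2.2⟩ : Σ _ : Finset α, Finset α) = q)).card := by
    refine Finset.card_eq_sum_card_fiberwise ?_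
    intro t ht
    obtain ⟨w, hI⟩ := mem_Cx.1 (Finset.mem_coe.1 ht)
    refine Finset.mem_coe.2 ?_
    simp only [Finset.mem_sigma, Finset.mem_filter]
    exact ⟨hI.1, hI.2.2.2.2.1, hI.2.2.2.2.2.1.2.1⟩
  rw [h1]
  refine Finset.sum_congr rfl fun q _ => ?_
  unfold dn
  congr 1
  ext t
  rw [Finset.mem_filter, Finset.mem_filter]
  obtain ⟨B, w⟩ := q
  constructor
  · rintro ⟨h2, h3⟩
    simp only [Sigma.mk.injEq, heq_eq_eq] at h3
    exact ⟨h2, h3⟩
  · rintro ⟨h2, h3, h4⟩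
    refine ⟨h2, ?_⟩
    simp only [Sigma.mk.injEq, heq_eq_eq]
    exact ⟨h3, h4⟩

/-- Counting by the set and the payer. -/
private lemma SumB_fib {ι : Type*} (S : Finset ι) (f g : ι → Finset α)
    (h : ∀ o ∈ S, f o ∈ unions J ∧ g o ∈ P ∧ g o ⊆ f o) (c : Finset α → Finset α → ℕ)
    (hc : ∀ B w, c B w = by classical exact (S.filter fun o => f o = B ∧ g o = w).card) :
    S.card = ∑ B ∈ unions J, ∑ w ∈ P.filter (fun w => w ⊆ B), c B w := by
  classical
  rw [Finset.card_eq_sum_card_fiberwise (f := f) (t := unions J) fun o ho => (h o ho).1]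
  refine Finset.sum_congr rfl fun B _ => ?_
  rw [Finset.card_eq_sum_card_fiberwise (f := g) (t := P.filter fun w => w ⊆ B) fun o ho => ?_]
  · refine Finset.sum_congr rfl fun w _ => ?_
    rw [hc, Finset.filter_filter]
  · have h1 := (Finset.mem_filter.1 (Finset.mem_coe.1 ho))
    have h2 := h o h1.1
    rw [Finset.mem_coe, Finset.mem_filter]
    refine ⟨h2.2.1, ?_⟩
    rw [← h1.2]
    exact h2.2.2

private lemma SumB_XX (h : HF J P) {o : (Finset α × α × Finset α) × Finset α × Finset α}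
    (ho : o ∈ Om J P) : XX o ∈ unions J ∧ o.2.1 ⊆ XX o ∧ o.2.2 ⊆ XX o ∧ o.1.2.2 ⊆ XX o := by
  obtain ⟨h1, h2, -⟩ := mem_Om.1 ho
  have ha : o.2.1 ∈ unions J := self_mem (h.PJ h1.2.1)
  have hb : o.2.2 ∈ unions J := self_mem (h.PJ h2.2.1)
  unfold XX
  refine ⟨union_mem (union_mem h1.1 ha) hb, ?_, Finset.subset_union_right, ?_⟩
  · exact Finset.subset_union_right.trans Finset.subset_union_left
  · exact h1.2.2.2.2.2.1.2.1.trans (Finset.subset_union_left.trans Finset.subset_union_left)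

private lemma SumB_swap (h : HF J P) {o : (Finset α × α × Finset α) × Finset α × Finset α}
    (ho : o ∈ Om J P) : KG J o ∨ KG J (o.1, o.2.2, o.2.1) ∨ Tw J o := by
  obtain ⟨h1, h2, h3⟩ := mem_Om.1 ho
  have hX : XX (o.1, o.2.2, o.2.1) = XX o := by
    unfold XX
    exact Finset.union_right_comm _ _ _
  by_cases p1 : Out J o.1.1 o.2.1 o.2.2
  · by_cases p2 : Out J o.1.1 o.2.2 o.2.1
    · rcases h1.pair_good h h2 h3 p1 p2 with h4 | h4
      · exact Or.inl ⟨p1, h4⟩
      · refine Or.inr (Or.inl ⟨p2, ?_⟩)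
        rw [hX]
        exact h4
    · have h4 := h2.pair_semi h h1 (Ne.symm h3) p2 p1
      refine Or.inl ⟨p1, ?_⟩
      rw [← hX]
      exact h4
  · by_cases p2 : Out J o.1.1 o.2.2 o.2.1
    · have h4 := h1.pair_semi h h2 h3 p1 p2
      refine Or.inr (Or.inl ⟨p2, ?_⟩)
      rw [hX]
      exact h4
    · exact Or.inr (Or.inr ⟨p1, p2⟩)

/-- Each pair is paid: the swap `o ↦ ((B', x, v), b, a)` maps the pairs that are neither of the first kind nor twins into those
of the first kind (`pair_good`, `pair_semi`). -/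
theorem HF.Om_le (h : HF J P) :
    (Om J P).card ≤ 2 * ∑ B ∈ unions J, ∑ w ∈ P.filter (fun w => w ⊆ B), cG J P B w
      + ∑ B ∈ unions J, ∑ w ∈ P.filter (fun w => w ⊆ B), c1 J P B w
      + ∑ B ∈ unions J, ∑ w ∈ P.filter (fun w => w ⊆ B), c2 J P B w := by
  classical
  have e0 : ((Om J P).filter fun o => KG J o).card =
      ∑ B ∈ unions J, ∑ w ∈ P.filter (fun w => w ⊆ B), cG J P B w := by
    refine SumB_fib _ XX (fun o => o.2.1) (fun o ho => ?_) (cG J P) fun B w => ?_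
    · have h1 := (Finset.mem_filter.1 ho).1
      have h2 := SumB_XX h h1
      exact ⟨h2.1, (mem_Om.1 h1).1.2.1, h2.2.1⟩
    · unfold cG
      refine congrArg Finset.card (Finset.ext fun o => ?_)
      simp only [Finset.mem_filter]
      tauto
  have e1 : ((Om J P).filter fun o => Tw J o ∧ o.1.2.1 ∈ Fo J (XX o) o.1.2.2).card =
      ∑ B ∈ unions J, ∑ w ∈ P.filter (fun w => w ⊆ B), c1 J P B w := by
    refine SumB_fib _ XX (fun o => o.1.2.2) (fun o ho => ?_) (c1 J P) fun B w => ?_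
    · have h1 := (Finset.mem_filter.1 ho).1
      have h2 := SumB_XX h h1
      exact ⟨h2.1, (mem_Om.1 h1).1.2.2.2.2.1, h2.2.2.2⟩
    · unfold c1
      refine congrArg Finset.card (Finset.ext fun o => ?_)
      simp only [Finset.mem_filter]
      tauto
  have e2 : ((Om J P).filter fun o => Tw J o ∧ o.1.2.1 ∉ Fo J (XX o) o.1.2.2).card =
      ∑ B ∈ unions J, ∑ w ∈ P.filter (fun w => w ⊆ B), c2 J P B w := by
    refine SumB_fib _ XX (fun o => o.2.2) (fun o ho => ?_) (c2 J P) fun B w => ?_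
    · have h1 := (Finset.mem_filter.1 ho).1
      have h2 := SumB_XX h h1
      exact ⟨h2.1, (mem_Om.1 h1).2.1.2.1, h2.2.2.1⟩
    · unfold c2
      refine congrArg Finset.card (Finset.ext fun o => ?_)
      simp only [Finset.mem_filter]
      tauto
  have e3 : ((Om J P).filter fun o => KG J (o.1, o.2.2, o.2.1)).card =
      ((Om J P).filter fun o => KG J o).card := by
    refine Finset.card_bij (fun o _ => (o.1, o.2.2, o.2.1)) ?_ ?_ ?_
    · intro o ho
      rw [Finset.mem_filter] at ho ⊢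
      obtain ⟨h1, h2, h3⟩ := mem_Om.1 ho.1
      exact ⟨mem_Om.2 ⟨h2, h1, Ne.symm h3⟩, ho.2⟩
    · rintro ⟨t, a, b⟩ _ ⟨t', a', b'⟩ _ he
      simp only [Prod.mk.injEq] at he ⊢
      exact ⟨he.1, he.2.2, he.2.1⟩
    · rintro ⟨t, a, b⟩ ho
      rw [Finset.mem_filter] at ho
      obtain ⟨h1, h2, h3⟩ := mem_Om.1 ho.1
      refine ⟨(t, b, a), ?_, rfl⟩
      rw [Finset.mem_filter]
      exact ⟨mem_Om.2 ⟨h2, h1, Ne.symm h3⟩, ho.2⟩
  have e4 : Om J P ⊆ ((Om J P).filter fun o => KG J o) ∪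
      ((Om J P).filter fun o => KG J (o.1, o.2.2, o.2.1)) ∪
      (((Om J P).filter fun o => Tw J o ∧ o.1.2.1 ∈ Fo J (XX o) o.1.2.2) ∪
        ((Om J P).filter fun o => Tw J o ∧ o.1.2.1 ∉ Fo J (XX o) o.1.2.2)) := by
    intro o ho
    have h1 := SumB_swap h ho
    simp only [Finset.mem_union, Finset.mem_filter]
    tauto
  have e5 := (Finset.card_le_card e4).trans ((Finset.card_union_le _ _).trans
    (add_le_add (Finset.card_union_le _ _) (Finset.card_union_le _ _)))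
  rw [e3, e0, e1, e2] at e5
  omega

/-- **The total sum.** -/
theorem HF.total_ge (h : HF J P) :
    ∑ B ∈ unions J, ∑ w ∈ P.filter (fun w => w ⊆ B), (4 * res J P B w - cl J P B w)
      ≤ 4 * ∑ B ∈ unions J, ss J P B := by
  have h1 : ∑ B ∈ unions J, (∑ v ∈ P.filter (fun w => w ⊆ B), res J P B v
      - ∑ w ∈ P.filter (fun w => w ⊆ B), ((bad J P B w).card : ℤ)) ≤ ∑ B ∈ unions J, ss J P B :=
    Finset.sum_le_sum fun B hB => h.stage1 hB
  rw [Finset.sum_sub_distrib] at h1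
  have h2 : ∑ B ∈ unions J, ∑ w ∈ P.filter (fun w => w ⊆ B), ((bad J P B w).card : ℤ) =
      ∑ t ∈ Cx J P, ((WW J P t).card : ℤ) := by
    exact_mod_cast h.sum_bad
  have h3 : ((Om J P).card : ℤ) ≤
      2 * ∑ B ∈ unions J, ∑ w ∈ P.filter (fun w => w ⊆ B), (cG J P B w : ℤ)
      + ∑ B ∈ unions J, ∑ w ∈ P.filter (fun w => w ⊆ B), (c1 J P B w : ℤ)
      + ∑ B ∈ unions J, ∑ w ∈ P.filter (fun w => w ⊆ B), (c2 J P B w : ℤ) := by
    exact_mod_cast h.Om_le
  have h4 : ((Cx J P).card : ℤ) =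
      ∑ B ∈ unions J, ∑ w ∈ P.filter (fun w => w ⊆ B), (dn J P B w : ℤ) := by
    exact_mod_cast h.Cx_card
  have h5 : ∑ B ∈ unions J, ∑ w ∈ P.filter (fun w => w ⊆ B), (4 * res J P B w - cl J P B w) =
      4 * ∑ B ∈ unions J, ∑ w ∈ P.filter (fun w => w ⊆ B), res J P B w -
      (8 * ∑ B ∈ unions J, ∑ w ∈ P.filter (fun w => w ⊆ B), (dn J P B w : ℤ)
      + 2 * ∑ B ∈ unions J, ∑ w ∈ P.filter (fun w => w ⊆ B), (cG J P B w : ℤ)
      + ∑ B ∈ unions J, ∑ w ∈ P.filter (fun w => w ⊆ B), (c1 J P B w : ℤ)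
      + ∑ B ∈ unions J, ∑ w ∈ P.filter (fun w => w ⊆ B), (c2 J P B w : ℤ)) := by
    simp only [Finset.mul_sum, ← Finset.sum_add_distrib, ← Finset.sum_sub_distrib]
    refine Finset.sum_congr rfl fun B _ => Finset.sum_congr rfl fun w _ => ?_
    unfold cl
    ring
  have h6 : 4 * ∑ t ∈ Cx J P, ((WW J P t).card : ℤ) ≤ 8 * ((Cx J P).card : ℤ) + ((Om J P).card : ℤ) := by
    rw [card_Om, Finset.card_eq_sum_ones, Nat.cast_sum, Finset.mul_sum, Finset.mul_sum,
      ← Finset.sum_add_distrib]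
    refine Finset.sum_le_sum fun t _ => ?_
    push_cast
    nlinarith [sq_nonneg (2 * ((WW J P t).card : ℤ) - 5)]
  rw [h5]
  rw [h2] at h1
  linarith

/-- The sum of the biases. -/
theorem HF.total (h : HF J P) :
    ∑ w ∈ P, ∑ z ∈ w, (2 * (fr (unions J) z : ℤ) - (unions J).card)
      = ∑ B ∈ unions J, ss J P B := by
  have h1 : ∑ w ∈ P, ∑ z ∈ w, (2 * (fr (unions J) z : ℤ) - (unions J).card)
      = ∑ w ∈ P, ∑ B ∈ (unions J).filter (fun B => w ⊆ B), bb J B w := by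
    apply Finset.sum_congr rfl
    intro w hw
    rw [← sum_points, sum_group J (h.PJ hw)]
  rw [h1]
  unfold ss
  simp_rw [Finset.sum_filter]
  exact Finset.sum_comm

end Pool.Agent.H83.F4
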